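import Pool.Agent.H24R2.U.Proj
import Pool.Agent.H24R2.U.Spec

set_option autoImplicit false

/-!
# Bases: determinants, basic solutions, multipliers, feasibility
-/

namespace Pool.Agent.H390R3

open Pool.Agent.H24U Pool.Agent.H24R2 Pool.Agent.H670R2 Matrix

variable {P : LPd} {v : List ℕ}

/-- the integer matrix of a basis -/
def NZ (P : LPd) (v : List ℕ) : Matrix (Fin P.2.length) (Fin P.2.length) ℤ :=
  Matrix.of fun i j => (rowA P (v.getD i 0)).getD j 0

theorem bm_eq (P : LPd) (v : List ℕ) : bm (aR P) (bv P v) = (NZ P v).map (Int.cast : ℤ → ℝ) := rfl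

theorem dt_eq (P : LPd) (v : List ℕ) : dt (aR P) (bv P v) = (((NZ P v).det : ℤ) : ℝ) := by
  unfold dt
  rw [bm_eq]
  exact ((Int.castRingHom ℝ).map_det (NZ P v)).symm

theorem bas_len (P : LPd) (v : List ℕ) : (bas P v).length = v.length := by simp [bas]

theorem bas_getD {k : ℕ} (hk : k < v.length) : (bas P v).getD k [] = rowA P (v.getD k 0) := by
  rw [List.getD_eq_getElem _ _ (by rw [bas_len]; exact hk), List.getD_eq_getElem _ _ hk]
  simp [bas]

theorem bas_rows (hWF : WF P) (hv : ∀ x ∈ v, x < P.1.length) :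
    ∀ c ∈ bas P v, c.length = P.2.length := by
  intro c hc
  unfold bas at hc
  obtain ⟨x, hx, rfl⟩ := List.mem_map.1 hc
  exact hWF x (hv x hx)

theorem det_gram (hWF : WF P) (hlen : v.length = P.2.length) (hv : ∀ x ∈ v, x < P.1.length) :
    (gramM (bas P v)).det = (NZ P v).det ^ 2 := by
  have hL : (bas P v).length = P.2.length := by rw [bas_len, hlen]
  rw [Proj.gramM_eq (bas P v) (bas_rows hWF hv)]
  have h1 : Proj.rowsM P.2.length (bas P v) = (NZ P v).submatrix (finCongr hL) id := by
    ext i j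
    simp only [Proj.rowsM, NZ, of_apply, submatrix_apply, id_eq]
    rw [← bas_getD (by rw [← bas_len P v]; exact i.2)]
    simp only [finCongr_apply, Fin.val_cast]
    rw [List.get_eq_getElem, List.getD_eq_getElem _ _ i.2]
  rw [h1, transpose_submatrix]
  have h2 : (NZ P v).submatrix (finCongr hL) id * (NZ P v)ᵀ.submatrix id (finCongr hL) =
      ((NZ P v) * (NZ P v)ᵀ).submatrix (finCongr hL) (finCongr hL) := by
    ext i j
    simp [mul_apply]
  rw [h2, det_submatrix_equiv_self, det_mul, det_transpose, pow_two]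

/-- `tmul` -/
theorem tmul_getD (n : ℕ) (L : List (List ℤ)) (y : List ℤ) {i : ℕ} (hi : i < n) :
    (tmul n L y).getD i 0 = ∑ k ∈ Finset.range L.length, (L.getD k []).getD i 0 * y.getD k 0 := by
  unfold tmul
  rw [List.getD_eq_getElem _ _ (by simpa using hi)]
  simp only [List.getElem_map, List.getElem_range]
  rw [dotL_eq_sum, List.length_map]
  refine Finset.sum_congr rfl fun k hk => ?_
  have hk' := Finset.mem_range.1 hk
  rw [List.getD_eq_getElem _ _ (by simpa using hk'), List.getD_eq_getElem L _ hk']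
  simp

theorem tmul_len (n : ℕ) (L : List (List ℤ)) (y : List ℤ) : (tmul n L y).length = n := by
  simp [tmul]

theorem gramL_getD (L : List (List ℤ)) {j k : ℕ} (hj : j < L.length) (hk : k < L.length) :
    ((gramL L).getD j []).getD k 0 = dotL (L.getD j []) (L.getD k []) := by
  unfold gramL
  rw [List.getD_eq_getElem _ [] (by simpa using hj)]
  rw [List.getD_eq_getElem _ 0 (by simpa using hk)]
  rw [List.getD_eq_getElem L _ hj, List.getD_eq_getElem L _ hk]
  simp

/-- `L (Lᵀ y) = G y` -/
theorem dot_tmul {n : ℕ} (L : List (List ℤ)) (hL : ∀ c ∈ L, c.length = n) (y : List ℤ) {j : ℕ}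
    (hj : j < L.length) :
    ∑ i ∈ Finset.range n, (L.getD j []).getD i 0 * (tmul n L y).getD i 0 =
      dotL ((gramL L).getD j []) y := by
  have hrow : ((gramL L).getD j []).length = L.length := by
    unfold gramL
    rw [List.getD_eq_getElem _ [] (by simpa using hj)]
    simp
  rw [dotL_eq_sum, hrow]
  calc ∑ i ∈ Finset.range n, (L.getD j []).getD i 0 * (tmul n L y).getD i 0
      = ∑ i ∈ Finset.range n, ∑ k ∈ Finset.range L.length,
          (L.getD j []).getD i 0 * ((L.getD k []).getD i 0 * y.getD k 0) := by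
        refine Finset.sum_congr rfl fun i hi => ?_
        rw [tmul_getD n L y (Finset.mem_range.1 hi), Finset.mul_sum]
    _ = ∑ k ∈ Finset.range L.length, ∑ i ∈ Finset.range n,
          (L.getD j []).getD i 0 * ((L.getD k []).getD i 0 * y.getD k 0) := Finset.sum_comm
    _ = _ := by
        refine Finset.sum_congr rfl fun k hk => ?_
        rw [gramL_getD L hj (Finset.mem_range.1 hk), dotL_eq_sum, Finset.sum_mul]
        have : (L.getD j []).length = n := by
          rw [List.getD_eq_getElem L _ hj]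
          exact hL _ (List.getElem_mem _)
        rw [this]
        refine Finset.sum_congr rfl fun i _ => ?_
        ring

section
variable (hWF : WF P) (hv : Sel P v)
include hWF hv

theorem basic_ne : (basic P v).1 ≠ 0 ↔ dt (aR P) (bv P v) ≠ 0 := by
  obtain ⟨hlen, hnd, hlt⟩ := hv
  have h1 := (solveG_spec (bas P v) (v.map (rowB P)) (by simp [bas])).2.1
  rw [det_gram hWF hlen hlt] at h1
  rw [dt_eq]
  change (solveG (gramL (bas P v)) (v.map (rowB P))).1 ≠ 0 ↔ _
  rw [Ne, h1]
  simp

theorem basic_dot {i : ℕ} (hi : i < P.2.length) :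
    ∑ l ∈ Finset.range P.2.length, (rowA P (v.getD i 0)).getD l 0 * (basic P v).2.getD l 0 =
      (basic P v).1 * rowB P (v.getD i 0) := by
  obtain ⟨hlen, hnd, hlt⟩ := hv
  have hi' : i < v.length := by omega
  have h1 := (solveG_spec (bas P v) (v.map (rowB P)) (by simp [bas])).2.2 i
    (by rw [bas_len]; omega)
  have h2 := dot_tmul (n := P.2.length) (bas P v) (bas_rows hWF hlt)
    (solveG (gramL (bas P v)) (v.map (rowB P))).2 (j := i) (by rw [bas_len]; omega)
  rw [bas_getD hi'] at h2
  have h3 : (v.map (rowB P)).getD i 0 = rowB P (v.getD i 0) := by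
    rw [List.getD_eq_getElem _ _ (by simpa using hi'), List.getD_eq_getElem _ _ hi']
    simp
  rw [h3] at h1
  exact h2.trans h1

theorem bpt_basic (hd : dt (aR P) (bv P v) ≠ 0) (l : Fin P.2.length) :
    bpt (aR P) (bR P) (bv P v) l = (((basic P v).2.getD l 0 : ℤ) : ℝ) / (((basic P v).1 : ℤ) : ℝ) := by
  have hD : (((basic P v).1 : ℤ) : ℝ) ≠ 0 := by
    have := (basic_ne hWF hv).2 hd
    exact_mod_cast this
  have h1 : (fun l : Fin P.2.length =>
      (((basic P v).2.getD l 0 : ℤ) : ℝ) / (((basic P v).1 : ℤ) : ℝ)) =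
      bpt (aR P) (bR P) (bv P v) := by
    apply eq_bpt_of_tight hd
    intro i
    have h2 := basic_dot hWF hv i.2
    rw [Finset.sum_range] at h2
    have h3 := congrArg (fun x : ℤ => (x : ℝ)) h2
    push_cast at h3
    simp only [dotProduct]
    have h4 : ∀ x : Fin P.2.length, aR P (bv P v i) x *
        ((((basic P v).2.getD x 0 : ℤ) : ℝ) / (((basic P v).1 : ℤ) : ℝ)) =
        ((((rowA P (v.getD i 0)).getD x 0 : ℤ) : ℝ) * (((basic P v).2.getD x 0 : ℤ) : ℝ)) /
          (((basic P v).1 : ℤ) : ℝ) := by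
      intro x
      simp only [aR, bv]
      ring
    rw [Finset.sum_congr rfl fun x _ => h4 x, ← Finset.sum_div, h3]
    simp only [bR, bv]
    field_simp
  exact (congrFun h1 l).symm

theorem feas_iff : feas P v = true ↔ dt (aR P) (bv P v) ≠ 0 ∧
    ∀ r < P.1.length, 0 ≤ sk (aR P) (bR P) (bv P v) r := by
  unfold feas
  rw [Bool.and_eq_true, decide_eq_true_eq, basic_ne hWF hv, List.all_eq_true]
  refine and_congr_right fun hd => ?_
  have hD : (((basic P v).1 : ℤ) : ℝ) ≠ 0 := by
    have := (basic_ne hWF hv).2 hd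
    exact_mod_cast this
  have key : ∀ r < P.1.length, (((basic P v).1 * ((basic P v).1 * rowB P r -
      dotL (rowA P r) (basic P v).2) : ℤ) : ℝ) =
      (((basic P v).1 : ℤ) : ℝ) ^ 2 * sk (aR P) (bR P) (bv P v) r := by
    intro r hr
    rw [dotL_eq_sum, hWF r hr, Finset.sum_range]
    have h4 : aR P r ⬝ᵥ bpt (aR P) (bR P) (bv P v) =
        (∑ x : Fin P.2.length, (((rowA P r).getD x 0 : ℤ) : ℝ) *
          (((basic P v).2.getD x 0 : ℤ) : ℝ)) / (((basic P v).1 : ℤ) : ℝ) := by
      rw [Finset.sum_div, dotProduct]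
      refine Finset.sum_congr rfl fun x _ => ?_
      rw [bpt_basic hWF hv hd x]
      simp only [aR]
      ring
    unfold sk
    rw [h4]
    push_cast
    simp only [bR]
    field_simp
  have hD2 : 0 < (((basic P v).1 : ℤ) : ℝ) ^ 2 := by positivity
  constructor
  · intro h r hr
    have h1 := h r (List.mem_range.2 hr)
    rw [decide_eq_true_eq] at h1
    have h2 : (0 : ℝ) ≤ (((basic P v).1 * ((basic P v).1 * rowB P r -
      dotL (rowA P r) (basic P v).2) : ℤ) : ℝ) := by exact_mod_cast h1
    rw [key r hr] at h2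
    exact nonneg_of_mul_nonneg_right h2 hD2
  · intro h r hr
    have hr' := List.mem_range.1 hr
    rw [decide_eq_true_eq]
    have h2 := mul_nonneg hD2.le (h r hr')
    rw [← key r hr'] at h2
    exact_mod_cast h2

theorem mults_ne : (mults P v).1 ≠ 0 ↔ dt (aR P) (bv P v) ≠ 0 := by
  obtain ⟨hlen, hnd, hlt⟩ := hv
  have h1 := (solveG_spec (bas P v) ((bas P v).map fun r => dotL r P.2) (by simp)).2.1
  rw [det_gram hWF hlen hlt] at h1
  rw [dt_eq]
  change (solveG (gramL (bas P v)) ((bas P v).map fun r => dotL r P.2)).1 ≠ 0 ↔ _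
  rw [Ne, h1]
  simp

omit hWF in
theorem mults_len : (mults P v).2.length = P.2.length := by
  obtain ⟨hlen, hnd, hlt⟩ := hv
  have h1 := (solveG_spec (bas P v) ((bas P v).map fun r => dotL r P.2) (by simp)).1
  rw [bas_len, hlen] at h1
  exact h1

theorem lm_mults (hd : dt (aR P) (bv P v) ≠ 0) (i : Fin P.2.length) :
    lm (aR P) (bv P v) i (cR P) =
      (((mults P v).2.getD i 0 : ℤ) : ℝ) / (((mults P v).1 : ℤ) : ℝ) := by
  have hne := (mults_ne hWF hv).2 hd
  have hlen := hv.1
  have hlt := hv.2.2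
  set D := (mults P v).1 with hDdef
  set μ := (mults P v).2 with hμ
  have hD : ((D : ℤ) : ℝ) ≠ 0 := by exact_mod_cast hne
  -- the vector `Lᵀ μ - D c` vanishes
  have hz : ∀ l : Fin P.2.length, ∑ k : Fin P.2.length,
      (((rowA P (v.getD k 0)).getD l 0 : ℤ) : ℝ) * ((μ.getD k 0 : ℤ) : ℝ) =
      (D : ℝ) * cR P l := by
    have h0 : (fun l : Fin P.2.length => ∑ k : Fin P.2.length,
      (((rowA P (v.getD k 0)).getD l 0 : ℤ) : ℝ) * ((μ.getD k 0 : ℤ) : ℝ)) =
      fun l => (D : ℝ) * cR P l := by
      apply eq_of_dot hd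
      intro i
      have hi' : (i : ℕ) < v.length := by rw [hlen]; exact i.2
      have h1 := (solveG_spec (bas P v) ((bas P v).map fun r => dotL r P.2) (by simp)).2.2 i
        (by rw [bas_len]; exact hi')
      have h2 := dot_tmul (n := P.2.length) (bas P v) (bas_rows hWF hlt)
        (solveG (gramL (bas P v)) ((bas P v).map fun r => dotL r P.2)).2 (j := i)
        (by rw [bas_len]; exact hi')
      rw [bas_getD hi'] at h2
      have h3 : ((bas P v).map fun r => dotL r P.2).getD i 0 =
          dotL (rowA P (v.getD i 0)) P.2 := by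
        rw [← bas_getD hi', List.getD_eq_getElem _ _ (by rw [List.length_map, bas_len]; exact hi'),
          List.getD_eq_getElem (bas P v) _ (by rw [bas_len]; exact hi')]
        simp
      rw [h3] at h1
      have h4 := h2.trans h1
      change ∑ l ∈ Finset.range P.2.length, (rowA P (v.getD i 0)).getD l 0 *
        (tmul P.2.length (bas P v) μ).getD l 0 = D * dotL (rowA P (v.getD i 0)) P.2 at h4
      have hrl : (rowA P (v.getD i 0)).length = P.2.length := by
        apply hWF
        apply hlt
        rw [List.getD_eq_getElem _ _ hi']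
        exact List.getElem_mem _
      rw [dotL_eq_sum, hrl, Finset.sum_range, Finset.sum_range] at h4
      have h5 := congrArg (fun x : ℤ => (x : ℝ)) h4
      push_cast at h5
      simp only [dotProduct]
      have h6 : ∀ l : Fin P.2.length, ∑ k : Fin P.2.length,
          (((rowA P (v.getD k 0)).getD l 0 : ℤ) : ℝ) * ((μ.getD k 0 : ℤ) : ℝ) =
          (((tmul P.2.length (bas P v) μ).getD l 0 : ℤ) : ℝ) := by
        intro l
        rw [tmul_getD _ _ _ l.2, bas_len, hlen, Finset.sum_range]
        push_cast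
        refine Finset.sum_congr rfl fun k _ => ?_
        rw [bas_getD (by rw [hlen]; exact k.2)]
      simp only [h6]
      simp only [aR, bv, cR]
      rw [h5, Finset.mul_sum]
      refine Finset.sum_congr rfl fun l _ => ?_
      ring
    intro l
    exact congrFun h0 l
  have hc : cR P = fun l => ∑ k : Fin P.2.length, (((μ.getD k 0 : ℤ) : ℝ) / (D : ℝ)) *
      aR P (bv P v k) l := by
    funext l
    have h1 := hz l
    have h2 : cR P l = (∑ k : Fin P.2.length,
      (((rowA P (v.getD k 0)).getD l 0 : ℤ) : ℝ) * ((μ.getD k 0 : ℤ) : ℝ)) / (D : ℝ) := by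
      rw [h1]
      field_simp
    rw [h2, Finset.sum_div]
    refine Finset.sum_congr rfl fun k _ => ?_
    simp only [aR, bv]
    ring
  have h1 := dot_dir hd (cR P) i
  have h2 : cR P ⬝ᵥ dir (aR P) (bv P v) i =
      ∑ k : Fin P.2.length, (((μ.getD k 0 : ℤ) : ℝ) / (D : ℝ)) *
        (aR P (bv P v k) ⬝ᵥ dir (aR P) (bv P v) i) := by
    conv_lhs => rw [hc]
    simp only [dotProduct, Finset.sum_mul, Finset.mul_sum]
    rw [Finset.sum_comm]
    refine Finset.sum_congr rfl fun k _ => Finset.sum_congr rfl fun l _ => ?_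
    ring
  rw [h2] at h1
  simp only [dot_dir_self hd] at h1
  simp only [mul_ite, mul_neg, mul_one, mul_zero, Finset.sum_ite_eq', Finset.mem_univ,
    if_true] at h1
  linarith

theorem impr_iff (hd : dt (aR P) (bv P v) ≠ 0) (j : ℕ) : impr P v j = true ↔
    ∃ i : Fin P.2.length, bv P v i = j ∧ lm (aR P) (bv P v) i (cR P) < 0 := by
  have hne := (mults_ne hWF hv).2 hd
  have hml := mults_len hv
  have hlen := hv.1
  have hsign : ∀ i : Fin P.2.length, ((mults P v).1 * (mults P v).2.getD i 0 < 0 ↔
      lm (aR P) (bv P v) i (cR P) < 0) := by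
    intro i
    rw [lm_mults hWF hv hd i]
    have hD : (((mults P v).1 : ℤ) : ℝ) ≠ 0 := by exact_mod_cast hne
    have hD2 : 0 < (((mults P v).1 : ℤ) : ℝ) ^ 2 := by positivity
    have h1 : ((((mults P v).1 * (mults P v).2.getD i 0 : ℤ)) : ℝ) =
        (((mults P v).1 : ℤ) : ℝ) ^ 2 *
          ((((mults P v).2.getD i 0 : ℤ) : ℝ) / (((mults P v).1 : ℤ) : ℝ)) := by
      push_cast
      field_simp
    constructor
    · intro h
      have h2 : ((((mults P v).1 * (mults P v).2.getD i 0 : ℤ)) : ℝ) < 0 := by exact_mod_cast h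
      rw [h1] at h2
      by_contra hcon
      exact absurd (mul_nonneg hD2.le (not_lt.1 hcon)) (not_le.2 h2)
    · intro h
      have h2 := mul_neg_of_pos_of_neg hD2 h
      rw [← h1] at h2
      exact_mod_cast h2
  unfold impr
  rw [List.any_eq_true]
  constructor
  · rintro ⟨q, hq, hq2⟩
    obtain ⟨i, hi, rfl⟩ := List.mem_iff_getElem.1 hq
    rw [List.getElem_zip] at hq2
    simp only [Bool.and_eq_true, decide_eq_true_eq] at hq2
    rw [List.length_zip] at hi
    have hi2 : i < P.2.length := by omega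
    refine ⟨⟨i, hi2⟩, ?_, ?_⟩
    · simp only [bv]
      rw [List.getD_eq_getElem _ _ (by omega)]
      exact hq2.1
    · rw [← hsign]
      simp only
      rw [List.getD_eq_getElem _ _ (by omega)]
      exact hq2.2
  · rintro ⟨i, hi, hl⟩
    rw [← hsign] at hl
    refine ⟨(v[(i : ℕ)]'(by rw [hlen]; exact i.2), (mults P v).2[(i : ℕ)]'(by rw [hml]; exact i.2)),
      ?_, ?_⟩
    · rw [List.mem_iff_getElem]
      refine ⟨i, ?_, ?_⟩
      · rw [List.length_zip, hlen, hml, min_self]
        exact i.2
      · rw [List.getElem_zip]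
    · simp only [Bool.and_eq_true, decide_eq_true_eq]
      refine ⟨?_, ?_⟩
      · simp only [bv] at hi
        rw [List.getD_eq_getElem _ _ (by rw [hlen]; exact i.2)] at hi
        exact hi
      · rw [List.getD_eq_getElem _ _ (by rw [hml]; exact i.2)] at hl
        exact hl

end

end Pool.Agent.H390R3
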