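import Pool.Agent.H390R3.Init

set_option autoImplicit false

/-!
# The output for rational linear programs
-/

namespace Pool.Agent.H390R3

open Pool.Agent.H24U Pool.Agent.H24R2 Pool.Agent.H670R2 Matrix Function

theorem terminal_scale {n : ℕ} {S : Set (Fin n → ℝ)} {c c' v : Fin n → ℝ} {μ : ℝ} (hμ : 0 < μ)
    (hc : ∀ j, c' j = μ * c j) (h : Terminal S c' v) : Terminal S c v := by
  have hobj : ∀ x, obj c' x = μ * obj c x := by
    intro x
    unfold obj
    rw [Finset.mul_sum]
    refine Finset.sum_congr rfl fun j _ => ?_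
    rw [hc]
    ring
  rcases h with h | ⟨u, hu, hu2⟩
  · left
    intro x hx
    have := h x hx
    rw [hobj, hobj] at this
    exact le_of_mul_le_mul_left this hμ
  · right
    refine ⟨u, hu, ?_⟩
    rw [hobj] at hu2
    exact pos_of_mul_pos_right hu2 hμ.le

theorem run_scale {n : ℕ} {S : Set (Fin n → ℝ)} {c c' : Fin n → ℝ} {μ : ℝ} (hμ : 0 < μ)
    (hc : ∀ j, c' j = μ * c j) : ∀ (l : List (Fin n → ℝ)) (v : Fin n → ℝ),
    SimplexRun S c' v l → SimplexRun S c v l := by
  have hobj : ∀ x, obj c' x = μ * obj c x := by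
    intro x
    unfold obj
    rw [Finset.mul_sum]
    refine Finset.sum_congr rfl fun j _ => ?_
    rw [hc]
    ring
  intro l
  induction l with
  | nil =>
    intro v h
    exact terminal_scale hμ hc h
  | cons w l ih =>
    intro v h
    refine ⟨⟨h.1.1, h.1.2.1, ?_⟩, ih w h.2⟩
    have h1 := h.1.2.2
    rw [hobj, hobj] at h1
    exact lt_of_mul_lt_mul_left h1 hμ.le

/-- transfer to the polyhedron `{A x ≤ b, x ≥ 0}` -/
theorem transfer {m n : ℕ} (P : LPd) (hn : P.2.length = n) (hR : P.1.length = m + n) (hWF : WF P)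
    (A : Fin m → Fin n → ℝ) (b : Fin m → ℝ) (c : Fin n → ℝ)
    (la : Fin m → ℝ) (hla : ∀ i, 0 < la i) (μ : ℝ) (hμ : 0 < μ)
    (hA : ∀ (i : Fin m) (j : Fin n), (((rowA P i).getD j 0 : ℤ) : ℝ) = la i * A i j)
    (hb : ∀ i : Fin m, ((rowB P i : ℤ) : ℝ) = la i * b i)
    (hN : ∀ k j : Fin n, (((rowA P (m + k)).getD j 0 : ℤ) : ℝ) = if j = k then -1 else 0)
    (hN0 : ∀ k : Fin n, rowB P (m + k) = 0)
    (hc : ∀ j : Fin n, ((P.2.getD j 0 : ℤ) : ℝ) = μ * c j)
    (x : List ℚ) (hx : toVec n x ∈ (Poly A b).extremePoints ℝ) {T : ℕ}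
    (hT : 6 * (2 * n + 1) ^ (m + n).size ≤ T) :
    SimplexRun (Poly A b) c (toVec n x) ((outP P (basis0 P x) T).map (toVec n)) ∧
    (outP P (basis0 P x) T).length ≤ 6 * (2 * n + 1) ^ (m + n).size := by
  subst hn
  have hpoly : Poly A b = poly (aR P) (bR P) := by
    ext z
    constructor
    · rintro ⟨h1, h2⟩
      apply mem_polyP
      intro r hr
      by_cases hrm : r < m
      · have h3 := h1 ⟨r, hrm⟩
        have h4 : aR P r ⬝ᵥ z = la ⟨r, hrm⟩ * ∑ j, A ⟨r, hrm⟩ j * z j := by
          rw [dotProduct, Finset.mul_sum]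
          refine Finset.sum_congr rfl fun j _ => ?_
          have := hA ⟨r, hrm⟩ j
          simp only [aR]
          simp only at this
          rw [this]
          ring
        have h5 : bR P r = la ⟨r, hrm⟩ * b ⟨r, hrm⟩ := hb ⟨r, hrm⟩
        rw [h4, h5]
        exact mul_le_mul_of_nonneg_left h3 (hla _).le
      · have hk : r - m < P.2.length := by omega
        have h3 := h2 ⟨r - m, hk⟩
        have hrk : m + (r - m) = r := by omega
        have h4 : aR P r ⬝ᵥ z = - z ⟨r - m, hk⟩ := by
          rw [dotProduct, Finset.sum_eq_single (⟨r - m, hk⟩ : Fin P.2.length)]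
          · have := hN ⟨r - m, hk⟩ ⟨r - m, hk⟩
            simp only [hrk, if_true] at this
            simp only [aR]
            rw [this]
            ring
          · intro j _ hj
            have := hN ⟨r - m, hk⟩ j
            simp only [hrk] at this
            rw [if_neg hj] at this
            simp only [aR]
            rw [this]
            ring
          · intro h
            exact absurd (Finset.mem_univ _) h
        have h5 : bR P r = 0 := by
          have := hN0 ⟨r - m, hk⟩
          simp only [hrk] at this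
          simp only [bR]
          rw [this]
          simp
        rw [h4, h5]
        linarith
    · intro h
      refine ⟨fun i => ?_, fun k => ?_⟩
      · have h3 := h i
        have h4 : aR P i ⬝ᵥ z = la i * ∑ j, A i j * z j := by
          rw [dotProduct, Finset.mul_sum]
          refine Finset.sum_congr rfl fun j _ => ?_
          have := hA i j
          simp only [aR]
          rw [this]
          ring
        have h5 : bR P i = la i * b i := hb i
        rw [h4, h5] at h3
        exact le_of_mul_le_mul_left h3 (hla i)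
      · have h3 := h (m + k)
        have h4 : aR P (m + k) ⬝ᵥ z = - z k := by
          rw [dotProduct, Finset.sum_eq_single k]
          · have := hN k k
            rw [if_pos rfl] at this
            simp only [aR]
            rw [this]
            ring
          · intro j _ hj
            have := hN k j
            rw [if_neg hj] at this
            simp only [aR]
            rw [this]
            ring
          · intro h
            exact absurd (Finset.mem_univ _) h
        have h5 : bR P (m + k) = 0 := by
          simp only [bR]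
          rw [hN0 k]
          simp
        rw [h4, h5] at h3
        linarith
  rw [hpoly] at hx
  obtain ⟨h1, h2, h3, h4⟩ := basis0_spec hWF hx
  rw [← hR] at hT
  obtain ⟨h5, h6⟩ := run_P hWF h1 h2 h4 hT
  rw [h3] at h5
  rw [← hpoly] at h5
  refine ⟨run_scale hμ hc _ _ h5, ?_⟩
  rw [← hR]
  exact h6

section
variable {m n : ℕ} (A : Fin m → Fin n → ℚ) (b : Fin m → ℚ) (c v : Fin n → ℚ)

theorem toP_row {i : ℕ} (hi : i < m) :
    (toP (mkInst A b c v)).1.getD i ([], 0) =
      (intVec (lden (b ⟨i, hi⟩ :: List.ofFn (A ⟨i, hi⟩))) (List.ofFn (A ⟨i, hi⟩)),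
        (b ⟨i, hi⟩).num *
          ((lden (b ⟨i, hi⟩ :: List.ofFn (A ⟨i, hi⟩)) / (b ⟨i, hi⟩).den : ℕ) : ℤ)) := by
  unfold toP mkInst
  simp only
  rw [List.getD_append _ _ _ _ (by simpa using hi)]
  rw [List.getD_eq_getElem _ _ (by simpa using hi)]
  simp

theorem toP_neg {k : ℕ} (hk : k < n) :
    (toP (mkInst A b c v)).1.getD (m + k) ([], 0) =
      ((List.range n).map (fun i => if i = k then (-1 : ℤ) else 0), (0 : ℤ)) := by
  unfold toP mkInst
  simp only
  rw [List.getD_append_right _ _ _ _ (by simp)]
  simp only [List.length_zipWith, List.length_ofFn, min_self, Nat.add_sub_cancel_left]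
  rw [List.getD_eq_getElem _ _ (by simpa using hk)]
  simp

/-- The output is a complete run of the simplex method. -/
theorem outF_run (hv : (fun j => (v j : ℝ)) ∈
      (Poly (fun i j => (A i j : ℝ)) (fun i => (b i : ℝ))).extremePoints ℝ) {T : ℕ}
    (hT : 6 * (2 * n + 1) ^ (m + n).size ≤ T) :
    SimplexRun (Poly (fun i j => (A i j : ℝ)) (fun i => (b i : ℝ))) (fun j => (c j : ℝ))
      (fun j => (v j : ℝ)) ((outF (mkInst A b c v) T).map (toVec n)) ∧
    (outF (mkInst A b c v) T).length ≤ 6 * (2 * n + 1) ^ (m + n).size := by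
  obtain ⟨hR, hn, hWF⟩ := toP_len A b c v
  have hvv : toVec n (List.ofFn v) = fun j => (v j : ℝ) := by
    funext j
    unfold toVec
    rw [List.getD_eq_getElem _ _ (by simp)]
    simp
  have hout : outF (mkInst A b c v) T =
      outP (toP (mkInst A b c v)) (basis0 (toP (mkInst A b c v)) (List.ofFn v)) T := rfl
  rw [hout, ← hvv]
  refine transfer (toP (mkInst A b c v)) hn hR hWF _ _ _
    (fun i => (lden (b i :: List.ofFn (A i)) : ℝ)) ?_ (lden (List.ofFn c) : ℝ) ?_ ?_ ?_ ?_ ?_ ?_ _
    ?_ hT
  · intro i
    exact_mod_cast lden_pos _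
  · exact_mod_cast lden_pos _
  · intro i j
    unfold rowA
    rw [toP_row A b c v i.2]
    simp only
    rw [intVec_getD (fun q hq => den_dvd_lden (List.mem_cons_of_mem _ hq))]
    rw [List.getD_eq_getElem _ _ (by simp)]
    simp
  · intro i
    unfold rowB
    rw [toP_row A b c v i.2]
    simp only
    exact scaled (den_dvd_lden (List.mem_cons_self ..))
  · intro k j
    unfold rowA
    rw [toP_neg A b c v k.2]
    simp only
    rw [List.getD_eq_getElem _ _ (by simp)]
    simp only [List.getElem_map, List.getElem_range]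
    by_cases h : j = k
    · simp [h]
    · have h2 : (j : ℕ) ≠ k := fun h' => h (Fin.ext h')
      simp [h, h2]
  · intro k
    unfold rowB
    rw [toP_neg A b c v k.2]
  · intro j
    have h1 : (toP (mkInst A b c v)).2 = intVec (lden (List.ofFn c)) (List.ofFn c) := rfl
    rw [h1, intVec_getD (fun q hq => den_dvd_lden hq), List.getD_eq_getElem _ _ (by simp)]
    simp
  · rw [hvv]
    exact hv

end

end Pool.Agent.H390R3
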