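import Pool.Agent.H390R3.TM

set_option autoImplicit false
set_option linter.constructorNameAsVariable false

/-!
# The simplex method in quasi-polynomial time
-/

namespace Pool.Agent.H390R3

open Pool.Agent.H24U Pool.Agent.H24R2 Pool.Agent.H670R2 Function
open Pool.Agent.NPC hiding Poly

/-- the exponent -/
def uu (x : List Bool) : ℕ := 3 * (x.length.bits.length + 1) ^ 2

/-- the first phase -/
def fA (x : List Bool) : List Unit × List Bool := (List.replicate (uu x) (), x)

/-- the last phase -/
def fC (p : List Unit × List Bool) : List (List ℚ) :=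
  (unbits Inst p.2).elim [] fun I => outF I p.1.length

theorem poly_fA : NPC.Poly fA := by
  have h1 : UPoly (fun x : List Bool => uu x) := by
    have h2 : UPoly (fun x : List Bool => x.length.bits.length + 1) :=
      (UPoly.length (NPC.Poly.natBits (NPC.Poly.length NPC.Poly.id))).add (UPoly.const 1)
    have h3 := (UPoly.const (α := List Bool) 3).mul (h2.mul h2)
    refine (h3 : NPC.Poly _).congr fun a => ?_
    unfold uu
    congr 1
    ring
  exact NPC.Poly.pair h1 NPC.Poly.id

theorem poly_fC : NPC.Poly fC := by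
  unfold fC
  refine NPC.Poly.optElim (h := fun (p : List Unit × List Bool) I => outF I p.1.length)
    (poly_unbits.comp (NPC.Poly.snd NPC.Poly.id)) (NPC.Poly.const []) ?_
  exact poly_outF (I := fun q : (List Unit × List Bool) × Inst => q.2)
    (l := fun q => q.1.1) (NPC.Poly.snd NPC.Poly.id) (NPC.Poly.fst (NPC.Poly.fst NPC.Poly.id))

/-- a polynomial is bounded by a power -/
theorem poly_pow_bound (q : Polynomial ℕ) : ∃ D : ℕ, ∀ N : ℕ, q.eval N ≤ 2 ^ D * (N + 1) ^ D := by
  induction q using Polynomial.induction_on' with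
  | add p q hp hq =>
    obtain ⟨D1, h1⟩ := hp
    obtain ⟨D2, h2⟩ := hq
    refine ⟨D1 + D2 + 1, fun N => ?_⟩
    rw [Polynomial.eval_add]
    have e1 : 2 ^ D1 * (N + 1) ^ D1 ≤ 2 ^ (D1 + D2) * (N + 1) ^ (D1 + D2 + 1) :=
      Nat.mul_le_mul (Nat.pow_le_pow_right (by norm_num) (by omega))
        (Nat.pow_le_pow_right (by omega) (by omega))
    have e2 : 2 ^ D2 * (N + 1) ^ D2 ≤ 2 ^ (D1 + D2) * (N + 1) ^ (D1 + D2 + 1) :=
      Nat.mul_le_mul (Nat.pow_le_pow_right (by norm_num) (by omega))
        (Nat.pow_le_pow_right (by omega) (by omega))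
    have e3 : 2 ^ (D1 + D2 + 1) * (N + 1) ^ (D1 + D2 + 1) =
        2 * (2 ^ (D1 + D2) * (N + 1) ^ (D1 + D2 + 1)) := by
      rw [pow_succ 2 (D1 + D2)]
      ring
    have := h1 N
    have := h2 N
    omega
  | monomial n a =>
    refine ⟨a + n, fun N => ?_⟩
    rw [Polynomial.eval_monomial]
    have h1 : a ≤ 2 ^ (a + n) :=
      Nat.lt_two_pow_self.le.trans (Nat.pow_le_pow_right (by norm_num) (by omega))
    have h2 : N ^ n ≤ (N + 1) ^ (a + n) :=
      (Nat.pow_le_pow_left (by omega) _).trans (Nat.pow_le_pow_right (by omega) (by omega))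
    exact Nat.mul_le_mul h1 h2

/-- the output of the machine -/
def ff (x : List Bool) : List Bool := bits (fC (List.replicate (2 ^ uu x) (), x))

theorem exists_machine : ∃ (K : ℕ) (M : Turing.TM2ComputableInTime
    (id : List Bool → List Bool) (id : List Bool → List Bool) ff),
    ∀ N, M.time N ≤ 2 ^ (K * (N.size + 1) ^ 2) := by
  have hA : PC (fun x : List Bool => x) (bits : List Unit × List Bool → List Bool)
      (fun x => fA x) := PC.comp (g := fA) (f := fun x => x) poly_fA PC.rawIn
  obtain ⟨cA, pA, hA⟩ := hA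
  obtain ⟨cC, pC, hC⟩ := poly_fC
  set Q : Polynomial ℕ := pA + Polynomial.C 50 * Polynomial.X +
    pC.comp (Polynomial.C 9 * Polynomial.X) + Polynomial.C 1 with hQ
  obtain ⟨D, hD⟩ := poly_pow_bound Q
  set c : Cmd ℕ := Cmd.seq cA (Cmd.seq expC cC) with hc
  have hrun : ∀ x : List Bool, Runs c (inp x) (inp (ff x))
      (Q.eval (2 ^ uu x) - 1) := by
    intro x
    have h1 := hA x
    have h2 := expC_runs (uu x) x
    have h3 := hC (List.replicate (2 ^ uu x) (), x)
    refine (h1.seq (h2.seq h3)).mono ?_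
    have hs : x.length < 2 ^ x.length.bits.length := by
      rw [Nat.size_eq_bits_len]
      exact Nat.lt_size_self _
    have hsu : x.length.bits.length ≤ uu x := by
      unfold uu
      nlinarith
    have hx : x.length ≤ 2 ^ uu x := hs.le.trans (Nat.pow_le_pow_right (by norm_num) hsu)
    have h3u : 3 ≤ 2 ^ uu x := by
      have h4 : 3 ≤ uu x := by
        unfold uu
        nlinarith
      calc 3 ≤ 2 ^ 3 := by norm_num
        _ ≤ 2 ^ uu x := Nat.pow_le_pow_right (by norm_num) h4
    have hlen : (bits (List.replicate (2 ^ uu x) (), x)).length ≤ 9 * 2 ^ uu x := by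
      rw [bits_units]
      have h5 : (bits x).length ≤ 4 * x.length + 1 := sz_listBool_le x
      simp only [List.length_cons, List.length_append, tf_length]
      omega
    have e1 : pA.eval x.length ≤ pA.eval (2 ^ uu x) := eval_mono pA hx
    have e2 : pC.eval (bits (List.replicate (2 ^ uu x) (), x)).length ≤
        pC.eval (9 * 2 ^ uu x) := eval_mono pC hlen
    have e3 : Q.eval (2 ^ uu x) = pA.eval (2 ^ uu x) + 50 * 2 ^ uu x + pC.eval (9 * 2 ^ uu x) + 1 := by
      simp [hQ]
    rw [e3]
    simp only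
    omega
  have hbound : ∀ x : List Bool, Q.eval (2 ^ uu x) ≤ 2 ^ (5 * D * (x.length.size + 1) ^ 2) := by
    intro x
    refine (hD _).trans ?_
    have h1 : 2 ^ uu x + 1 ≤ 2 ^ (uu x + 1) := by
      have : 1 ≤ 2 ^ uu x := Nat.one_le_two_pow
      rw [pow_succ]
      omega
    calc 2 ^ D * (2 ^ uu x + 1) ^ D ≤ 2 ^ D * (2 ^ (uu x + 1)) ^ D :=
          Nat.mul_le_mul_left _ (Nat.pow_le_pow_left h1 _)
      _ = 2 ^ (D + (uu x + 1) * D) := by rw [← pow_mul, ← pow_add]
      _ ≤ 2 ^ (5 * D * (x.length.size + 1) ^ 2) := by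
          apply Nat.pow_le_pow_right (by norm_num)
          unfold uu
          rw [Nat.size_eq_bits_len]
          have h2 : 1 ≤ (x.length.size + 1) ^ 2 := Nat.one_le_pow _ _ (by omega)
          nlinarith
  have hQ1 : ∀ x : List Bool, 1 ≤ Q.eval (2 ^ uu x) := by
    intro x
    simp [hQ]
  have key : ∀ x : List Bool, ∃ t, t ≤ 2 ^ (5 * D * (x.length.size + 1) ^ 2) ∧
      Nonempty (Turing.TM2OutputsInTime (c.map (Fin.ofNat (c.bd + 1))).toTM x (some (ff x)) t) := by
    intro x
    obtain ⟨t, ht, hr⟩ := hrun x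
    have h1 := hr.restrict (n := c.bd) (by omega)
    have h2 := hbound x
    have h3 := hQ1 x
    refine ⟨t + 1, by omega, toTM_outputs ?_⟩
    convert! h1 using 1
    · funext i
      by_cases hi : i = 0
      · subst hi; simp [NPC.inp]
      · have : (i : ℕ) ≠ 0 := fun h => hi (Fin.ext h)
        simp [NPC.inp, hi, this]
    · funext i
      by_cases hi : i = 0
      · subst hi; simp [NPC.inp]
      · have : (i : ℕ) ≠ 0 := fun h => hi (Fin.ext h)
        simp [NPC.inp, hi, this]
  refine ⟨5 * D, { tm := (c.map (Fin.ofNat (c.bd + 1))).toTM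
                   inputAlphabet := Equiv.refl Bool
                   outputAlphabet := Equiv.refl Bool
                   time := fun N => 2 ^ (5 * D * (N.size + 1) ^ 2)
                   outputsFun := ?_ }, fun N => le_rfl⟩
  intro x
  have hx := key x
  have ht := hx.choose_spec.1
  have hm := hx.choose_spec.2.some
  exact outputs_conv (List.map_id x).symm (List.map_id (ff x)).symm ht hm

/-! ### correctness -/

theorem size_bound (m n s : ℕ) (h : m + n < 2 ^ s) :
    6 * (2 * n + 1) ^ (m + n).size ≤ 2 ^ (3 * (s + 1) ^ 2) := by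
  have h1 : (m + n).size ≤ s := Nat.size_le.2 h
  have h2 : 2 * n + 1 ≤ 2 ^ (s + 1) := by
    rw [pow_succ]
    omega
  calc 6 * (2 * n + 1) ^ (m + n).size ≤ 2 ^ 3 * (2 ^ (s + 1)) ^ s :=
        Nat.mul_le_mul (by norm_num) ((Nat.pow_le_pow_left h2 _).trans
          (Nat.pow_le_pow_right (by positivity) h1))
    _ = 2 ^ (3 + (s + 1) * s) := by rw [← pow_mul, ← pow_add]
    _ ≤ 2 ^ (3 * (s + 1) ^ 2) := by
        apply Nat.pow_le_pow_right (by norm_num)
        nlinarith

theorem ff_run {m n : ℕ} (A : Fin m → Fin n → ℚ) (b : Fin m → ℚ) (c v : Fin n → ℚ)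
    (hv : (fun j => (v j : ℝ)) ∈
      (Poly (fun i j => (A i j : ℝ)) (fun i => (b i : ℝ))).extremePoints ℝ) :
    ∃ l : List (Fin n → ℚ), ff (bits (mkInst A b c v)) = bits (l.map List.ofFn) ∧
      SimplexRun (Poly (fun i j => (A i j : ℝ)) (fun i => (b i : ℝ))) (fun j => (c j : ℝ))
        (fun j => (v j : ℝ)) (l.map fun p j => (p j : ℝ)) ∧
      l.length ≤ 6 * (2 * n + 1) ^ (m + n).size := by
  obtain ⟨x, hx⟩ : ∃ x, x = bits (mkInst A b c v) := ⟨_, rfl⟩
  rw [← hx]
  have hlen : m + n ≤ x.length := by
    have h1 : x.length = sz (mkInst A b c v) := by rw [hx]; rfl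
    have h2 : sz (mkInst A b c v) = sz (List.ofFn fun i => List.ofFn (A i)) +
        (sz (List.ofFn b) + (sz (List.ofFn c) + sz (List.ofFn v) + 1) + 1) + 1 := by
      unfold mkInst
      rw [sz_pair, sz_pair, sz_pair]
    have h3 := length_lt_sz (List.ofFn b)
    have h4 := length_lt_sz (List.ofFn c)
    rw [List.length_ofFn] at h3 h4
    omega
  have hs : x.length < 2 ^ x.length.bits.length := by
    rw [Nat.size_eq_bits_len]
    exact Nat.lt_size_self _
  have hT : 6 * (2 * n + 1) ^ (m + n).size ≤ 2 ^ uu x := size_bound m n _ (hlen.trans_lt hs)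
  obtain ⟨h1, h2⟩ := outF_run A b c v hv hT
  have hff : ff x = bits (outF (mkInst A b c v) (2 ^ uu x)) := by
    unfold ff fC
    simp only
    rw [hx, unbits_bits]
    simp
  -- all points have the right length
  have hpl : ∀ p ∈ outF (mkInst A b c v) (2 ^ uu x), p.length = n := by
    have hgen : ∀ (P P' : LPd) (s0 : Cfg) (w : List ℕ) (t : ℕ),
        ∀ p ∈ ((tstep P (orc P'))^[t] (s0, (ratPt P w, []))).2.2, p.length = P.2.length := by
      intro P P' s0 w t
      induction t with
      | zero => intro p hp; simp at hp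
      | succ t ih =>
        intro p hp
        rw [Function.iterate_succ_apply'] at hp
        generalize (tstep P (orc P'))^[t] (s0, (ratPt P w, [])) = s at ih hp
        have hdef : tstep P (orc P') s = (step (orc P') s.1,
          if ratPt P (step (orc P') s.1).1 = s.2.1 then s.2
          else (ratPt P (step (orc P') s.1).1, ratPt P (step (orc P') s.1).1 :: s.2.2)) := rfl
        rw [hdef] at hp
        simp only at hp
        split_ifs at hp
        · exact ih p hp
        · rcases List.mem_cons.1 hp with rfl | hp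
          · exact ratPt_len _ _
          · exact ih p hp
    intro p hp
    have h3 := (toP_len A b c v).2.1
    rw [← h3]
    unfold outF at hp
    rw [List.mem_reverse] at hp
    exact hgen _ _ _ _ _ p hp
  generalize outF (mkInst A b c v) (2 ^ uu x) = L at h1 h2 hff hpl
  refine ⟨L.map fun p j => p.getD j 0, ?_, ?_, ?_⟩
  · rw [hff, List.map_map]
    congr 1
    symm
    conv_rhs => rw [← List.map_id L]
    apply List.map_congr_left
    intro p hp
    have hp' := hpl p hp
    refine List.ext_getElem (by simp [hp']) fun i h3 h4 => ?_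
    simp only [Function.comp_apply, List.getElem_ofFn, id_eq]
    rw [List.getD_eq_getElem _ _ (by simpa [hp'] using h3)]
  · rw [List.map_map]
    exact h1
  · rw [List.length_map]
    exact h2

end Pool.Agent.H390R3
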