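import Pool.Agent.H24R2.U.PercB
import Pool.Agent.H390R3.Basic

set_option autoImplicit false

/-!
# The comparison `gtQ` of the tops of two facets
-/

namespace Pool.Agent.H390R3

open Pool.Agent.H24U Pool.Agent.H24R2 Pool.Agent.H670R2 Matrix

/-! ### Cones -/

/-- nonnegative combinations of the columns -/
noncomputable def SS (x : ℕ → ℝ) (cols : List (List ℤ)) (i : ℕ) : ℝ :=
  ∑ j ∈ Finset.range cols.length, x j * (((cols.getD j []).getD i 0 : ℤ) : ℝ)

theorem SS_nil (x : ℕ → ℝ) (i : ℕ) : SS x [] i = 0 := by simp [SS]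

theorem SS_cons (x : ℕ → ℝ) (c : List ℤ) (cols : List (List ℤ)) (i : ℕ) :
    SS x (c :: cols) i = x 0 * ((c.getD i 0 : ℤ) : ℝ) + SS (fun j => x (j + 1)) cols i := by
  unfold SS
  rw [List.length_cons, Finset.sum_range_succ']
  simp [add_comm]

theorem SS_append (x : ℕ → ℝ) (A B : List (List ℤ)) (i : ℕ) :
    SS x (A ++ B) i = SS x A i + SS (fun j => x (A.length + j)) B i := by
  induction A generalizing x with
  | nil => simp [SS_nil]
  | cons c A ih =>
    rw [List.cons_append, SS_cons, SS_cons, ih, add_assoc]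
    congr 3
    funext j
    congr 1
    rw [List.length_cons]
    omega

/-- the cone -/
def Cone (cols : List (List ℤ)) (w : ℕ → ℝ) : Prop :=
  ∃ x : ℕ → ℝ, (∀ j, 0 ≤ x j) ∧ ∀ i, w i = SS x cols i

theorem cone_append {A B : List (List ℤ)} {w : ℕ → ℝ} :
    Cone (A ++ B) w ↔ ∃ w1 w2, Cone A w1 ∧ Cone B w2 ∧ ∀ i, w i = w1 i + w2 i := by
  constructor
  · rintro ⟨x, hx, hw⟩
    refine ⟨fun i => SS x A i, fun i => SS (fun j => x (A.length + j)) B i, ⟨x, hx, fun _ => rfl⟩,
      ⟨_, fun j => hx _, fun _ => rfl⟩, fun i => ?_⟩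
    rw [hw, SS_append]
  · rintro ⟨w1, w2, ⟨x, hx, hw1⟩, ⟨y, hy, hw2⟩, hw⟩
    refine ⟨fun j => if j < A.length then x j else y (j - A.length), fun j => ?_, fun i => ?_⟩
    · dsimp only
      split_ifs
      · exact hx _
      · exact hy _
    · rw [hw, hw1, hw2, SS_append]
      congr 1
      · unfold SS
        refine Finset.sum_congr rfl fun j hj => ?_
        dsimp only
        rw [if_pos (Finset.mem_range.1 hj)]
      · unfold SS
        refine Finset.sum_congr rfl fun j hj => ?_
        dsimp only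
        rw [if_neg (by omega), Nat.add_sub_cancel_left]

theorem cone_cons {c : List ℤ} {B : List (List ℤ)} {w : ℕ → ℝ} :
    Cone (c :: B) w ↔ ∃ (s : ℝ) (w2 : ℕ → ℝ), 0 ≤ s ∧ Cone B w2 ∧
      ∀ i, w i = s * ((c.getD i 0 : ℤ) : ℝ) + w2 i := by
  constructor
  · rintro ⟨x, hx, hw⟩
    exact ⟨x 0, _, hx 0, ⟨_, fun j => hx _, fun _ => rfl⟩, fun i => by rw [hw, SS_cons]⟩
  · rintro ⟨s, w2, hs, ⟨y, hy, hw2⟩, hw⟩
    refine ⟨fun j => if j = 0 then s else y (j - 1), fun j => ?_, fun i => ?_⟩
    · dsimp only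
      split_ifs
      · exact hs
      · exact hy _
    · rw [hw, hw2, SS_cons]
      simp

theorem SS_map {L : List ℕ} (x : ℕ → ℝ) (g : ℕ → List ℤ) (i : ℕ) :
    SS x (L.map g) i = ∑ p ∈ Finset.range L.length, x p * (((g (L.getD p 0)).getD i 0 : ℤ) : ℝ) := by
  unfold SS
  rw [List.length_map]
  refine Finset.sum_congr rfl fun p hp => ?_
  have hp' := Finset.mem_range.1 hp
  rw [List.getD_eq_getElem _ [] (by simpa using hp'), List.getD_eq_getElem L _ hp',
    List.getElem_map]

theorem SS_map_range {n : ℕ} (x : ℕ → ℝ) (g : ℕ → List ℤ) (i : ℕ) :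
    SS x ((List.range n).map g) i = ∑ p ∈ Finset.range n, x p * (((g p).getD i 0 : ℤ) : ℝ) := by
  rw [SS_map, List.length_range]
  refine Finset.sum_congr rfl fun p hp => ?_
  have hp' := Finset.mem_range.1 hp
  rw [List.getD_eq_getElem (List.range n) 0 (by simpa using hp'), List.getElem_range]

theorem SS_neg (x : ℕ → ℝ) (A : List (List ℤ)) (i : ℕ) :
    SS x (A.map (vsmul (-1))) i = - SS x A i := by
  unfold SS
  rw [List.length_map, ← Finset.sum_neg_distrib]
  refine Finset.sum_congr rfl fun p hp => ?_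
  have hp' := Finset.mem_range.1 hp
  rw [List.getD_eq_getElem _ [] (by simpa using hp'), List.getD_eq_getElem A _ hp',
    List.getElem_map]
  have : (vsmul (-1) A[p]).getD i 0 = - (A[p]).getD i 0 := by
    unfold vsmul
    by_cases hi : i < A[p].length
    · rw [List.getD_eq_getElem _ 0 (by simpa using hi), List.getD_eq_getElem _ 0 hi,
        List.getElem_map]
      ring
    · rw [List.getD_eq_default _ _ (by simpa using hi), List.getD_eq_default _ _ (by simpa using hi)]
      simp
  rw [this]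
  push_cast
  ring

/-- free variables -/
theorem cone_free {A : List (List ℤ)} {w : ℕ → ℝ} :
    Cone (A ++ A.map (vsmul (-1))) w ↔ ∃ x : ℕ → ℝ, ∀ i, w i = SS x A i := by
  rw [cone_append]
  constructor
  · rintro ⟨w1, w2, ⟨x, hx, hw1⟩, ⟨y, hy, hw2⟩, hw⟩
    refine ⟨fun j => x j - y j, fun i => ?_⟩
    rw [hw, hw1, hw2, SS_neg]
    unfold SS
    rw [← sub_eq_add_neg, ← Finset.sum_sub_distrib]
    refine Finset.sum_congr rfl fun j _ => ?_
    ring
  · rintro ⟨x, hx⟩
    refine ⟨_, _, ⟨fun j => max (x j) 0, fun j => le_max_right _ _, fun _ => rfl⟩,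
      ⟨fun j => max (-(x j)) 0, fun j => le_max_right _ _, fun _ => rfl⟩, fun i => ?_⟩
    rw [hx, SS_neg]
    unfold SS
    rw [← sub_eq_add_neg, ← Finset.sum_sub_distrib]
    refine Finset.sum_congr rfl fun j _ => ?_
    have : x j = max (x j) 0 - max (-(x j)) 0 := by
      rcases le_total 0 (x j) with h | h
      · rw [max_eq_left h, max_eq_right (by linarith)]; ring
      · rw [max_eq_right h, max_eq_left (by linarith)]; ring
    rw [← sub_mul, ← this]

/-- Both of the first two variables can be made positive. -/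
theorem posMask_two {m : ℕ} {c0 c1 : List ℤ} {B : List (List ℤ)}
    (hc : ∀ c ∈ c0 :: c1 :: B, c.length = m) :
    ((posMask (c0 :: c1 :: B)).getD 0 false && (posMask (c0 :: c1 :: B)).getD 1 false) = true ↔
    ∃ (s t : ℝ) (w : ℕ → ℝ), 0 < s ∧ 0 < t ∧ Cone B w ∧
      ∀ i, s * ((c0.getD i 0 : ℤ) : ℝ) + t * ((c1.getD i 0 : ℤ) : ℝ) + w i = 0 := by
  have hs := (posMask_spec hc).2
  rw [Bool.and_eq_true, hs 0 (by simp), hs 1 (by simp)]
  constructor
  · rintro ⟨⟨x, hx, hx0⟩, ⟨y, hy, hy0⟩⟩
    refine ⟨x 0 + y 0, x 1 + y 1, fun i => SS (fun j => x (j + 1 + 1) + y (j + 1 + 1)) B i,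
      add_pos_of_pos_of_nonneg hx0 (hy.1 0), add_pos_of_nonneg_of_pos (hx.1 1) hy0,
      ⟨_, fun j => add_nonneg (hx.1 _) (hy.1 _), fun _ => rfl⟩, fun i => ?_⟩
    have h1 : SS x (c0 :: c1 :: B) i = 0 := hx.2 i
    have h2 : SS y (c0 :: c1 :: B) i = 0 := hy.2 i
    rw [SS_cons, SS_cons] at h1 h2
    have h3 : SS (fun j => x (j + 1 + 1) + y (j + 1 + 1)) B i =
        SS (fun j => x (j + 1 + 1)) B i + SS (fun j => y (j + 1 + 1)) B i := by
      unfold SS
      rw [← Finset.sum_add_distrib]
      refine Finset.sum_congr rfl fun j _ => ?_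
      ring
    dsimp only
    rw [h3]
    simp only [zero_add] at h1 h2
    linarith
  · rintro ⟨s, t, w, hs0, ht0, ⟨x, hx, hw⟩, h⟩
    have key : Feasible (c0 :: c1 :: B)
        (fun j => if j = 0 then s else if j = 1 then t else x (j - 2)) := by
      refine ⟨fun j => ?_, fun i => ?_⟩
      · dsimp only
        split_ifs
        · exact hs0.le
        · exact ht0.le
        · exact hx _
      · change SS _ (c0 :: c1 :: B) i = 0
        rw [SS_cons, SS_cons]
        have h1 := h i
        rw [hw] at h1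
        simp only [if_true, Nat.add_eq_zero_iff, one_ne_zero, and_false, if_false, zero_add,
          Nat.add_eq_right] at h1 ⊢
        rw [← add_assoc]
        exact h1
    exact ⟨⟨_, key, by simpa using hs0⟩, ⟨_, key, by simpa using ht0⟩⟩

/-! ### entries in four sections -/

theorem getD_append_r {A B : List ℤ} {i : ℕ} : (A ++ B).getD (A.length + i) 0 = B.getD i 0 := by
  rw [List.getD_append_right _ _ _ _ (by omega), Nat.add_sub_cancel_left]

theorem getD_append_l {A B : List ℤ} {i : ℕ} (h : i < A.length) :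
    (A ++ B).getD i 0 = A.getD i 0 := List.getD_append _ _ _ _ h

section four
variable {s1 s2 s3 : List ℤ} {s4 : ℤ} {e g n : ℕ}

theorem sec1 (h1 : s1.length = e) {i : ℕ} (hi : i < e) :
    (s1 ++ s2 ++ s3 ++ [s4]).getD i 0 = s1.getD i 0 := by
  rw [List.append_assoc, List.append_assoc, getD_append_l (by omega)]

theorem sec2 (h1 : s1.length = e) (h2 : s2.length = g) {i : ℕ} (hi : i < g) :
    (s1 ++ s2 ++ s3 ++ [s4]).getD (e + i) 0 = s2.getD i 0 := by
  subst h1
  rw [List.append_assoc, List.append_assoc, getD_append_r, getD_append_l (by omega)]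

theorem sec3 (h1 : s1.length = e) (h2 : s2.length = g) (h3 : s3.length = n) {i : ℕ}
    (hi : i < n) : (s1 ++ s2 ++ s3 ++ [s4]).getD (e + g + i) 0 = s3.getD i 0 := by
  subst h1 h2
  rw [List.append_assoc, List.append_assoc, add_assoc, getD_append_r, getD_append_r,
    getD_append_l (by omega)]

theorem sec4 (h1 : s1.length = e) (h2 : s2.length = g) (h3 : s3.length = n) :
    (s1 ++ s2 ++ s3 ++ [s4]).getD (e + g + n) 0 = s4 := by
  subst h1 h2 h3
  rw [List.append_assoc, List.append_assoc, add_assoc, getD_append_r, getD_append_r]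
  have := getD_append_r (A := s3) (B := [s4]) (i := 0)
  rw [add_zero] at this
  rw [this]
  rfl

theorem sec5 (h1 : s1.length = e) (h2 : s2.length = g) (h3 : s3.length = n) {i : ℕ}
    (hi : e + g + n < i) : (s1 ++ s2 ++ s3 ++ [s4]).getD i 0 = 0 := by
  apply List.getD_eq_default
  simp only [List.length_append, List.length_singleton]
  omega

end four

theorem zeros_getD (n i : ℕ) : (zeros n).getD i 0 = 0 := by
  unfold zeros
  by_cases hi : i < n
  · rw [List.getD_eq_getElem _ _ (by simpa using hi)]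
    simp
  · rw [List.getD_eq_default _ _ (by simpa using hi)]

theorem zeros_len (n : ℕ) : (zeros n).length = n := by simp [zeros]

theorem mapI_getD {L : List ℕ} (g : ℕ → ℤ) {i : ℕ} (hi : i < L.length) :
    (L.map g).getD i 0 = g (L.getD i 0) := by
  rw [List.getD_eq_getElem _ _ (by simpa using hi), List.getD_eq_getElem _ _ hi]
  simp

/-! ### the columns of the system -/

section cols
variable (P : LPd) (F G : List ℕ) (k : ℕ)

def gc0 : List ℤ := ((k :: F).map fun r => -(rowB P r)) ++ (G.map fun r => -(rowB P r)) ++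
  (P.2.map fun x => -x) ++ [0]

def gc1 : List ℤ := zeros (k :: F).length ++ zeros G.length ++ zeros P.2.length ++ [-1]

def gx (i : ℕ) : List ℤ := ((k :: F).map fun r => (rowA P r).getD i 0) ++
  (G.map fun r => (rowA P r).getD i 0) ++ zeros P.2.length ++ [P.2.getD i 0]

def gs (r : ℕ) : List ℤ := zeros (k :: F).length ++ (G.map fun r' => if r' = r then 1 else 0) ++
  zeros P.2.length ++ [0]

def gy (r : ℕ) : List ℤ := zeros (k :: F).length ++ zeros G.length ++ rowA P r ++ [-(rowB P r)]

theorem gtCols_eq (j : ℕ) : gtCols P F G k j = gc0 P F G k :: gc1 P F G k ::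
    (((List.range P.2.length).map (gx P F G k) ++
      ((List.range P.2.length).map (gx P F G k)).map (vsmul (-1))) ++
    (G.map (gs P F G k) ++ (((j :: F).map (gy P F G k) ++
      ((j :: F).map (gy P F G k)).map (vsmul (-1))) ++ G.map (gy P F G k)))) := by
  unfold gtCols gc0 gc1 gx gs gy
  simp only [List.append_assoc, List.cons_append, List.nil_append]

variable {P F G k}

theorem sum_zero_of {s : Finset ℕ} {x g : ℕ → ℝ} (h : ∀ q ∈ s, g q = 0) :
    ∑ q ∈ s, x q * g q = 0 := Finset.sum_eq_zero fun q hq => by rw [h q hq, mul_zero]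

/-- The equations of the system. -/
structure GE (P : LPd) (F G : List ℕ) (k j : ℕ) (s t : ℝ) (x sl y z : ℕ → ℝ) : Prop where
  e1 : ∀ p < (k :: F).length, ∑ l ∈ Finset.range P.2.length,
    x l * (((rowA P ((k :: F).getD p 0)).getD l 0 : ℤ) : ℝ) =
      s * ((rowB P ((k :: F).getD p 0) : ℤ) : ℝ)
  e2 : ∀ q < G.length, ∑ l ∈ Finset.range P.2.length,
    x l * (((rowA P (G.getD q 0)).getD l 0 : ℤ) : ℝ) + sl q =
      s * ((rowB P (G.getD q 0) : ℤ) : ℝ)
  e3 : ∀ l < P.2.length, ∑ p ∈ Finset.range (j :: F).length,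
    y p * (((rowA P ((j :: F).getD p 0)).getD l 0 : ℤ) : ℝ) + ∑ q ∈ Finset.range G.length,
    z q * (((rowA P (G.getD q 0)).getD l 0 : ℤ) : ℝ) = s * ((P.2.getD l 0 : ℤ) : ℝ)
  e4 : ∑ l ∈ Finset.range P.2.length, x l * ((P.2.getD l 0 : ℤ) : ℝ) =
    t + (∑ p ∈ Finset.range (j :: F).length, y p * ((rowB P ((j :: F).getD p 0) : ℤ) : ℝ) +
    ∑ q ∈ Finset.range G.length, z q * ((rowB P (G.getD q 0) : ℤ) : ℝ))

theorem rowA_len (hWF : WF P) {L : List ℕ} (hL : ∀ r ∈ L, r < P.1.length) {p : ℕ}
    (hp : p < L.length) : (rowA P (L.getD p 0)).length = P.2.length := by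
  apply hWF
  apply hL
  rw [List.getD_eq_getElem _ _ hp]
  exact List.getElem_mem _

theorem ge_iff (hWF : WF P) (hFG : FG P.1.length F G) {j : ℕ} (hj : j ∈ G)
    (s t : ℝ) (x sl y z : ℕ → ℝ) :
    (∀ i, s * (((gc0 P F G k).getD i 0 : ℤ) : ℝ) + t * (((gc1 P F G k).getD i 0 : ℤ) : ℝ) +
      (SS x ((List.range P.2.length).map (gx P F G k)) i + (SS sl (G.map (gs P F G k)) i +
        (SS y ((j :: F).map (gy P F G k)) i + SS z (G.map (gy P F G k)) i))) = 0) ↔
    GE P F G k j s t x sl y z := by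
  have hGnd : G.Nodup := (List.nodup_append.1 hFG.1).2.1
  have hGR : ∀ r ∈ G, r < P.1.length := fun r hr => hFG.2 r (List.mem_append_right _ hr)
  have hjR : ∀ r ∈ j :: F, r < P.1.length := by
    intro r hr
    rcases List.mem_cons.1 hr with rfl | hr
    · exact hGR _ hj
    · exact hFG.2 r (List.mem_append_left _ hr)
  -- lengths
  have la1 : ((k :: F).map fun r => -(rowB P r)).length = (k :: F).length := by simp
  have la2 : (G.map fun r => -(rowB P r)).length = G.length := by simp
  have la3 : (P.2.map fun x => -x).length = P.2.length := by simp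
  have lb1 : ∀ l, ((k :: F).map fun r => (rowA P r).getD l 0).length = (k :: F).length := by simp
  have lb2 : ∀ l, (G.map fun r => (rowA P r).getD l 0).length = G.length := by simp
  have lc2 : ∀ r : ℕ, (G.map fun r' => if r' = r then (1 : ℤ) else 0).length = G.length := by simp
  have z1 := zeros_len (k :: F).length
  have z2 := zeros_len G.length
  have z3 := zeros_len P.2.length
  -- section 1
  have A1 : ∀ p < (k :: F).length, (s * (((gc0 P F G k).getD p 0 : ℤ) : ℝ) +
      t * (((gc1 P F G k).getD p 0 : ℤ) : ℝ) +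
      (SS x ((List.range P.2.length).map (gx P F G k)) p + (SS sl (G.map (gs P F G k)) p +
        (SS y ((j :: F).map (gy P F G k)) p + SS z (G.map (gy P F G k)) p))) = 0 ↔
      ∑ l ∈ Finset.range P.2.length,
        x l * (((rowA P ((k :: F).getD p 0)).getD l 0 : ℤ) : ℝ) =
      s * ((rowB P ((k :: F).getD p 0) : ℤ) : ℝ)) := by
    intro p hp
    rw [SS_map_range, SS_map, SS_map, SS_map]
    rw [gc0, sec1 la1 hp, mapI_getD _ hp, gc1, sec1 z1 hp, zeros_getD]
    have h1 : ∀ l, (gx P F G k l).getD p 0 = (rowA P ((k :: F).getD p 0)).getD l 0 := by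
      intro l
      rw [gx, sec1 (lb1 l) hp, mapI_getD _ hp]
    have h2 : ∀ r, (gs P F G k r).getD p 0 = 0 := by
      intro r
      rw [gs, sec1 z1 hp, zeros_getD]
    have h3 : ∀ r, (gy P F G k r).getD p 0 = 0 := by
      intro r
      rw [gy, sec1 z1 hp, zeros_getD]
    simp only [h1, h2, h3]
    push_cast
    simp only [mul_zero, Finset.sum_const_zero, add_zero]
    constructor
    · intro h
      linarith
    · intro h
      linarith
  -- section 2
  have A2 : ∀ q < G.length, (s * (((gc0 P F G k).getD ((k :: F).length + q) 0 : ℤ) : ℝ) +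
      t * (((gc1 P F G k).getD ((k :: F).length + q) 0 : ℤ) : ℝ) +
      (SS x ((List.range P.2.length).map (gx P F G k)) ((k :: F).length + q) +
        (SS sl (G.map (gs P F G k)) ((k :: F).length + q) +
        (SS y ((j :: F).map (gy P F G k)) ((k :: F).length + q) +
          SS z (G.map (gy P F G k)) ((k :: F).length + q)))) = 0 ↔
      ∑ l ∈ Finset.range P.2.length,
        x l * (((rowA P (G.getD q 0)).getD l 0 : ℤ) : ℝ) + sl q =
      s * ((rowB P (G.getD q 0) : ℤ) : ℝ)) := by
    intro q hq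
    rw [SS_map_range, SS_map, SS_map, SS_map]
    rw [gc0, sec2 la1 la2 hq, mapI_getD _ hq, gc1, sec2 z1 z2 hq, zeros_getD]
    have h1 : ∀ l, (gx P F G k l).getD ((k :: F).length + q) 0 =
        (rowA P (G.getD q 0)).getD l 0 := by
      intro l
      rw [gx, sec2 (lb1 l) (lb2 l) hq, mapI_getD _ hq]
    have h2 : ∀ r, (gs P F G k r).getD ((k :: F).length + q) 0 =
        if G.getD q 0 = r then 1 else 0 := by
      intro r
      rw [gs, sec2 z1 (lc2 r) hq, mapI_getD _ hq]
    have h3 : ∀ r, (gy P F G k r).getD ((k :: F).length + q) 0 = 0 := by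
      intro r
      rw [gy, sec2 z1 z2 hq, zeros_getD]
    simp only [h1, h2, h3]
    have h4 : ∑ p ∈ Finset.range G.length,
        sl p * (((if G.getD q 0 = G.getD p 0 then (1 : ℤ) else 0 : ℤ)) : ℝ) = sl q := by
      rw [Finset.sum_eq_single q]
      · simp
      · intro p hp hpq
        have hp' := Finset.mem_range.1 hp
        rw [if_neg]
        · simp
        · intro h
          rw [List.getD_eq_getElem _ _ hq, List.getD_eq_getElem _ _ hp'] at h
          exact hpq ((hGnd.getElem_inj_iff).1 h).symm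
      · intro h
        exact absurd (Finset.mem_range.2 hq) h
    rw [h4]
    push_cast
    simp only [mul_zero, Finset.sum_const_zero, add_zero]
    constructor
    · intro h
      linarith
    · intro h
      linarith
  -- section 3
  have A3 : ∀ l < P.2.length, (s * (((gc0 P F G k).getD ((k :: F).length + G.length + l) 0 : ℤ) : ℝ) +
      t * (((gc1 P F G k).getD ((k :: F).length + G.length + l) 0 : ℤ) : ℝ) +
      (SS x ((List.range P.2.length).map (gx P F G k)) ((k :: F).length + G.length + l) +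
        (SS sl (G.map (gs P F G k)) ((k :: F).length + G.length + l) +
        (SS y ((j :: F).map (gy P F G k)) ((k :: F).length + G.length + l) +
          SS z (G.map (gy P F G k)) ((k :: F).length + G.length + l)))) = 0 ↔
      ∑ p ∈ Finset.range (j :: F).length,
        y p * (((rowA P ((j :: F).getD p 0)).getD l 0 : ℤ) : ℝ) + ∑ q ∈ Finset.range G.length,
        z q * (((rowA P (G.getD q 0)).getD l 0 : ℤ) : ℝ) = s * ((P.2.getD l 0 : ℤ) : ℝ)) := by
    intro l hl
    rw [SS_map_range, SS_map, SS_map, SS_map]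
    have h0 : (P.2.map fun x => -x).getD l 0 = - P.2.getD l 0 := by
      rw [List.getD_eq_getElem _ _ (by simpa using hl), List.getD_eq_getElem _ _ hl]
      simp
    rw [gc0, sec3 la1 la2 la3 hl, h0, gc1, sec3 z1 z2 z3 hl, zeros_getD]
    have h1 : ∀ l', (gx P F G k l').getD ((k :: F).length + G.length + l) 0 = 0 := by
      intro l'
      rw [gx, sec3 (lb1 l') (lb2 l') z3 hl, zeros_getD]
    have h2 : ∀ r, (gs P F G k r).getD ((k :: F).length + G.length + l) 0 = 0 := by
      intro r
      rw [gs, sec3 z1 (lc2 r) z3 hl, zeros_getD]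
    have h3 : ∀ {L : List ℕ}, (∀ r ∈ L, r < P.1.length) → ∀ (y : ℕ → ℝ),
        ∑ p ∈ Finset.range L.length, y p *
        (((gy P F G k (L.getD p 0)).getD ((k :: F).length + G.length + l) 0 : ℤ) : ℝ) =
        ∑ p ∈ Finset.range L.length, y p * (((rowA P (L.getD p 0)).getD l 0 : ℤ) : ℝ) := by
      intro L hL y
      refine Finset.sum_congr rfl fun p hp => ?_
      rw [gy, sec3 z1 z2 (rowA_len hWF hL (Finset.mem_range.1 hp)) hl]
    rw [h3 hjR, h3 hGR]
    simp only [h1, h2]
    push_cast
    simp only [mul_zero, Finset.sum_const_zero, add_zero, zero_add]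
    constructor
    · intro h
      linarith
    · intro h
      linarith
  -- section 4
  have A4 : (s * (((gc0 P F G k).getD ((k :: F).length + G.length + P.2.length) 0 : ℤ) : ℝ) +
      t * (((gc1 P F G k).getD ((k :: F).length + G.length + P.2.length) 0 : ℤ) : ℝ) +
      (SS x ((List.range P.2.length).map (gx P F G k)) ((k :: F).length + G.length + P.2.length) +
        (SS sl (G.map (gs P F G k)) ((k :: F).length + G.length + P.2.length) +
        (SS y ((j :: F).map (gy P F G k)) ((k :: F).length + G.length + P.2.length) +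
          SS z (G.map (gy P F G k)) ((k :: F).length + G.length + P.2.length)))) = 0 ↔
      ∑ l ∈ Finset.range P.2.length, x l * ((P.2.getD l 0 : ℤ) : ℝ) =
        t + (∑ p ∈ Finset.range (j :: F).length,
          y p * ((rowB P ((j :: F).getD p 0) : ℤ) : ℝ) +
        ∑ q ∈ Finset.range G.length, z q * ((rowB P (G.getD q 0) : ℤ) : ℝ))) := by
    rw [SS_map_range, SS_map, SS_map, SS_map]
    rw [gc0, sec4 la1 la2 la3, gc1, sec4 z1 z2 z3]
    have h1 : ∀ l', (gx P F G k l').getD ((k :: F).length + G.length + P.2.length) 0 =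
        P.2.getD l' 0 := by
      intro l'
      rw [gx, sec4 (lb1 l') (lb2 l') z3]
    have h2 : ∀ r, (gs P F G k r).getD ((k :: F).length + G.length + P.2.length) 0 = 0 := by
      intro r
      rw [gs, sec4 z1 (lc2 r) z3]
    have h3 : ∀ {L : List ℕ}, (∀ r ∈ L, r < P.1.length) → ∀ (y : ℕ → ℝ),
        ∑ p ∈ Finset.range L.length, y p *
        (((gy P F G k (L.getD p 0)).getD ((k :: F).length + G.length + P.2.length) 0 : ℤ) : ℝ) =
        - ∑ p ∈ Finset.range L.length, y p * ((rowB P (L.getD p 0) : ℤ) : ℝ) := by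
      intro L hL y
      rw [← Finset.sum_neg_distrib]
      refine Finset.sum_congr rfl fun p hp => ?_
      rw [gy, sec4 z1 z2 (rowA_len hWF hL (Finset.mem_range.1 hp))]
      push_cast
      ring
    rw [h3 hjR, h3 hGR]
    simp only [h1, h2]
    push_cast
    simp only [mul_zero, Finset.sum_const_zero, zero_add]
    constructor
    · intro h
      linarith
    · intro h
      linarith
  -- beyond
  have A5 : ∀ i, (k :: F).length + G.length + P.2.length < i →
      s * (((gc0 P F G k).getD i 0 : ℤ) : ℝ) +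
      t * (((gc1 P F G k).getD i 0 : ℤ) : ℝ) +
      (SS x ((List.range P.2.length).map (gx P F G k)) i +
        (SS sl (G.map (gs P F G k)) i +
        (SS y ((j :: F).map (gy P F G k)) i +
          SS z (G.map (gy P F G k)) i))) = 0 := by
    intro i hi
    rw [SS_map_range, SS_map, SS_map, SS_map]
    rw [gc0, sec5 la1 la2 la3 hi, gc1, sec5 z1 z2 z3 hi]
    have h1 : ∀ l', (gx P F G k l').getD i 0 = 0 := by
      intro l'
      rw [gx, sec5 (lb1 l') (lb2 l') z3 hi]
    have h2 : ∀ r, (gs P F G k r).getD i 0 = 0 := by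
      intro r
      rw [gs, sec5 z1 (lc2 r) z3 hi]
    have h3 : ∀ {L : List ℕ}, (∀ r ∈ L, r < P.1.length) → ∀ (y : ℕ → ℝ),
        ∑ p ∈ Finset.range L.length, y p *
        (((gy P F G k (L.getD p 0)).getD i 0 : ℤ) : ℝ) = 0 := by
      intro L hL y
      refine Finset.sum_eq_zero fun p hp => ?_
      rw [gy, sec5 z1 z2 (rowA_len hWF hL (Finset.mem_range.1 hp)) hi]
      simp
    rw [h3 hjR, h3 hGR]
    simp only [h1, h2]
    simp
  constructor
  · intro h
    exact ⟨fun p hp => (A1 p hp).1 (h _), fun q hq => (A2 q hq).1 (h _),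
      fun l hl => (A3 l hl).1 (h _), A4.1 (h _)⟩
  · intro h i
    by_cases h1 : i < (k :: F).length
    · exact (A1 i h1).2 (h.e1 i h1)
    by_cases h2 : i < (k :: F).length + G.length
    · obtain ⟨q, rfl⟩ : ∃ q, i = (k :: F).length + q := ⟨i - (k :: F).length, by omega⟩
      exact (A2 q (by omega)).2 (h.e2 q (by omega))
    by_cases h3 : i < (k :: F).length + G.length + P.2.length
    · obtain ⟨q, rfl⟩ : ∃ q, i = (k :: F).length + G.length + q :=
        ⟨i - ((k :: F).length + G.length), by omega⟩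
      exact (A3 q (by omega)).2 (h.e3 q (by omega))
    by_cases h4 : i = (k :: F).length + G.length + P.2.length
    · rw [h4]
      exact A4.2 h.e4
    · exact A5 i (by omega)

theorem gtQ_iff (hWF : WF P) (hFG : FG P.1.length F G) {j : ℕ} (hj : j ∈ G) :
    gtQ P F G k j = true ↔ ∃ (s t : ℝ) (x sl y z : ℕ → ℝ), 0 < s ∧ 0 < t ∧ (∀ q, 0 ≤ sl q) ∧
      (∀ q, 0 ≤ z q) ∧ GE P F G k j s t x sl y z := by
  have hGR : ∀ r ∈ G, r < P.1.length := fun r hr => hFG.2 r (List.mem_append_right _ hr)
  have hjR : ∀ r ∈ j :: F, r < P.1.length := by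
    intro r hr
    rcases List.mem_cons.1 hr with rfl | hr
    · exact hGR _ hj
    · exact hFG.2 r (List.mem_append_left _ hr)
  have hlen : ∀ c ∈ gtCols P F G k j,
      c.length = (k :: F).length + G.length + P.2.length + 1 := by
    rw [gtCols_eq]
    have hx : ∀ i, (gx P F G k i).length = (k :: F).length + G.length + P.2.length + 1 := by
      intro i
      simp [gx, zeros_len]
      omega
    have hsl : ∀ i, (gs P F G k i).length = (k :: F).length + G.length + P.2.length + 1 := by
      intro i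
      simp [gs, zeros_len]
      omega
    have hy : ∀ r < P.1.length, (gy P F G k r).length =
        (k :: F).length + G.length + P.2.length + 1 := by
      intro r hr
      simp [gy, zeros_len, hWF r hr]
      omega
    have hvs : ∀ c, (vsmul (-1) c).length = c.length := by
      intro c
      simp [vsmul]
    intro c hc
    simp only [List.mem_cons, List.mem_append, List.mem_map, List.mem_range] at hc
    rcases hc with rfl | rfl | ((⟨i, hi, rfl⟩ | ⟨i, ⟨a, ha, rfl⟩, rfl⟩) | ⟨i, hi, rfl⟩ |
      ((⟨i, hi, rfl⟩ | ⟨i, ⟨a, ha, rfl⟩, rfl⟩) | ⟨i, hi, rfl⟩))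
    · simp [gc0]
      omega
    · simp [gc1, zeros_len]
      omega
    · exact hx i
    · rw [hvs, hx]
    · exact hsl i
    · exact hy i (hjR i (by simpa using hi))
    · rw [hvs, hy a (hjR a (by simpa using ha))]
    · exact hy i (hGR i hi)
  unfold gtQ
  rw [gtCols_eq] at hlen ⊢
  rw [posMask_two hlen]
  constructor
  · rintro ⟨s, t, w, hs, ht, hw, h⟩
    rw [cone_append] at hw
    obtain ⟨w1, w2, hw1, hw2, hw12⟩ := hw
    rw [cone_free] at hw1
    rw [cone_append] at hw2
    obtain ⟨w3, w4, hw3, hw4, hw34⟩ := hw2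
    rw [cone_append] at hw4
    obtain ⟨w5, w6, hw5, hw6, hw56⟩ := hw4
    rw [cone_free] at hw5
    obtain ⟨x, hx⟩ := hw1
    obtain ⟨sl, hsl, hsl2⟩ := hw3
    obtain ⟨y, hy⟩ := hw5
    obtain ⟨z, hz, hz2⟩ := hw6
    refine ⟨s, t, x, sl, y, z, hs, ht, hsl, hz, (ge_iff hWF hFG hj s t x sl y z).1 ?_⟩
    intro i
    rw [← hx, ← hsl2, ← hy, ← hz2, ← hw56, ← hw34, ← hw12]
    exact h i
  · rintro ⟨s, t, x, sl, y, z, hs, ht, hsl, hz, hE⟩
    have h := (ge_iff hWF hFG hj s t x sl y z).2 hE
    refine ⟨s, t, _, hs, ht, cone_append.2 ⟨_, _, cone_free.2 ⟨x, fun _ => rfl⟩,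
      cone_append.2 ⟨_, _, ⟨sl, hsl, fun _ => rfl⟩, cone_append.2 ⟨_, _,
        cone_free.2 ⟨y, fun _ => rfl⟩, ⟨z, hz, fun _ => rfl⟩, fun _ => rfl⟩, fun _ => rfl⟩,
        fun _ => rfl⟩, h⟩

end cols

end Pool.Agent.H390R3
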