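import Pool.Agent.H390R3.Trans

set_option autoImplicit false

/-!
# The initial basis
-/

namespace Pool.Agent.H390R3

open Pool.Agent.H24U Pool.Agent.H24R2 Pool.Agent.H670R2 Matrix Function

/-! ### common denominators -/

theorem lden_cons (q : ℚ) (l : List ℚ) : lden (q :: l) = q.den * lden l := rfl

theorem lden_pos (l : List ℚ) : 0 < lden l := by
  induction l with
  | nil => exact Nat.one_pos
  | cons q l ih =>
    rw [lden_cons]
    exact Nat.mul_pos q.den_pos ih

theorem den_dvd_lden {l : List ℚ} {q : ℚ} (h : q ∈ l) : q.den ∣ lden l := by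
  induction l with
  | nil => exact absurd h List.not_mem_nil
  | cons a l ih =>
    rw [lden_cons]
    rcases List.mem_cons.1 h with rfl | h
    · exact dvd_mul_right _ _
    · exact (ih h).mul_left _

theorem scaled {q : ℚ} {D : ℕ} (h : q.den ∣ D) :
    ((q.num * ((D / q.den : ℕ) : ℤ) : ℤ) : ℝ) = (D : ℝ) * (q : ℝ) := by
  obtain ⟨k, rfl⟩ := h
  rw [Nat.mul_div_cancel_left _ q.den_pos]
  have h1 : (q : ℝ) = (q.num : ℝ) / (q.den : ℝ) := by
    exact_mod_cast (Rat.num_div_den q).symm
  have h2 : (q.den : ℝ) ≠ 0 := by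
    exact_mod_cast q.den_pos.ne'
  rw [h1]
  push_cast
  field_simp

theorem intVec_getD {l : List ℚ} {D : ℕ} (hD : ∀ q ∈ l, q.den ∣ D) (i : ℕ) :
    (((intVec D l).getD i 0 : ℤ) : ℝ) = (D : ℝ) * ((l.getD i 0 : ℚ) : ℝ) := by
  by_cases hi : i < l.length
  · rw [List.getD_eq_getElem _ _ (by rw [length_intVec]; exact hi), List.getD_eq_getElem _ _ hi]
    simp only [intVec, List.getElem_map]
    exact scaled (hD _ (List.getElem_mem _))
  · rw [List.getD_eq_default _ _ (by rw [length_intVec]; omega), List.getD_eq_default _ _ (by omega)]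
    simp

/-! ### dependent rows -/

theorem gram_zero_iff {m : ℕ} {L : List (List ℤ)} (hL : ∀ c ∈ L, c.length = m) :
    (gramM L).det = 0 ↔ ∃ w : ℕ → ℝ, (∃ i < L.length, w i ≠ 0) ∧ ∀ j < m,
      ∑ i ∈ Finset.range L.length, w i * (((L.getD i []).getD j 0 : ℤ) : ℝ) = 0 := by
  have hG := Proj.gramM_eq L hL
  set M : Matrix (Fin L.length) (Fin m) ℝ := (Proj.rowsM m L).map (Int.cast : ℤ → ℝ) with hM
  have hG2 : (gramM L).map (Int.cast : ℤ → ℝ) = M * Mᵀ := by
    rw [hG, hM, ← transpose_map]
    exact Matrix.map_mul (f := Int.castRingHom ℝ)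
  have hdet : (gramM L).det = 0 ↔ (M * Mᵀ).det = 0 := by
    rw [← hG2]
    have h1 : (((gramM L).det : ℤ) : ℝ) = ((gramM L).map (Int.cast : ℤ → ℝ)).det :=
      (Int.castRingHom ℝ).map_det _
    rw [← h1]
    exact Int.cast_eq_zero.symm
  have hMe : ∀ (i : Fin L.length) (j : Fin m), M i j = (((L.getD i []).getD j 0 : ℤ) : ℝ) := by
    intro i j
    simp only [hM, Proj.rowsM, map_apply, of_apply]
    rw [List.get_eq_getElem, List.getD_eq_getElem L _ i.2]
  rw [hdet, ← exists_mulVec_eq_zero_iff]
  constructor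
  · rintro ⟨w, hw, hw0⟩
    have h1 : Mᵀ *ᵥ w = 0 := by
      rw [← dotProduct_self_eq_zero]
      calc (Mᵀ *ᵥ w) ⬝ᵥ (Mᵀ *ᵥ w) = w ⬝ᵥ (M *ᵥ (Mᵀ *ᵥ w)) := by
            rw [Matrix.dotProduct_mulVec w M, ← Matrix.mulVec_transpose]
        _ = 0 := by rw [Matrix.mulVec_mulVec, hw0, dotProduct_zero]
    obtain ⟨i, hi⟩ := Function.ne_iff.1 hw
    refine ⟨fun k => if h : k < L.length then w ⟨k, h⟩ else (0 : ℝ), ⟨i, i.2, ?_⟩, ?_⟩
    · simpa [i.2] using hi
    · intro j hj
      have h2 := congrFun h1 ⟨j, hj⟩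
      rw [Finset.sum_range]
      simp only [Matrix.mulVec, dotProduct, transpose_apply, Pi.zero_apply] at h2
      rw [← h2]
      refine Finset.sum_congr rfl fun k _ => ?_
      rw [hMe]
      simp only [k.2, dif_pos]
      ring
  · rintro ⟨w, ⟨i, hi, hwi⟩, hw⟩
    refine ⟨fun k => w k, ?_, ?_⟩
    · intro h
      exact hwi (congrFun h ⟨i, hi⟩)
    · have h1 : Mᵀ *ᵥ (fun k : Fin L.length => w k) = 0 := by
        funext j
        have h2 := hw j j.2
        rw [Finset.sum_range] at h2
        simp only [Matrix.mulVec, dotProduct, transpose_apply, Pi.zero_apply]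
        rw [← h2]
        refine Finset.sum_congr rfl fun k _ => ?_
        rw [hMe]
        ring
      rw [← Matrix.mulVec_mulVec, h1, mulVec_zero]

variable {P : LPd}

theorem bas_row (hWF : WF P) {L : List ℕ} (hL : ∀ x ∈ L, x < P.1.length) :
    ∀ c ∈ bas P L, c.length = P.2.length := bas_rows hWF hL

theorem sum_bas {L : List ℕ} (w : ℕ → ℝ) {j : ℕ} (hj : j < P.2.length) :
    ∑ i ∈ Finset.range (bas P L).length, w i * ((((bas P L).getD i []).getD j 0 : ℤ) : ℝ) =
      ∑ i ∈ Finset.range L.length, w i * aR P (L.getD i 0) ⟨j, hj⟩ := by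
  rw [bas_len]
  refine Finset.sum_congr rfl fun i hi => ?_
  rw [bas_getD (Finset.mem_range.1 hi)]
  rfl

theorem indep_step (hWF : WF P) {L : List ℕ} (hL : ∀ x ∈ L, x < P.1.length) {r : ℕ}
    (hr : r < P.1.length) (h1 : (gramM (bas P L)).det ≠ 0)
    (h2 : (gramM (bas P (L ++ [r]))).det = 0) {u : Fin P.2.length → ℝ}
    (hu : ∀ s ∈ L, aR P s ⬝ᵥ u = 0) : aR P r ⬝ᵥ u = 0 := by
  have hLr : ∀ x ∈ L ++ [r], x < P.1.length := by
    intro x hx
    rcases List.mem_append.1 hx with h | h
    · exact hL x h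
    · rw [List.mem_singleton] at h
      rw [h]
      exact hr
  obtain ⟨w, ⟨i, hi, hwi⟩, hw⟩ := (gram_zero_iff (bas_row hWF hLr)).1 h2
  have hsplit : ∀ j : Fin P.2.length, ∑ i ∈ Finset.range L.length, w i * aR P (L.getD i 0) j +
      w L.length * aR P r j = 0 := by
    intro j
    have h3 := hw j j.2
    rw [sum_bas w j.2, List.length_append, List.length_singleton, Finset.sum_range_succ] at h3
    rw [← h3]
    congr 1
    · refine Finset.sum_congr rfl fun i hi => ?_
      rw [List.getD_append _ _ _ _ (Finset.mem_range.1 hi)]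
    · rw [List.getD_append_right _ _ _ _ le_rfl]
      simp
  have hwl : w L.length ≠ 0 := by
    intro h0
    apply h1
    rw [gram_zero_iff (bas_row hWF hL)]
    refine ⟨w, ⟨i, ?_, hwi⟩, ?_⟩
    · rw [bas_len, List.length_append, List.length_singleton] at hi
      rw [bas_len]
      by_contra hcon
      have : i = L.length := by omega
      rw [this] at hwi
      exact hwi h0
    · intro j hj
      rw [sum_bas w hj]
      have h3 := hsplit ⟨j, hj⟩
      rw [h0, zero_mul, add_zero] at h3
      exact h3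
  have h4 : ∑ j : Fin P.2.length, (∑ i ∈ Finset.range L.length, w i * aR P (L.getD i 0) j +
      w L.length * aR P r j) * u j = 0 := by
    refine Finset.sum_eq_zero fun j _ => ?_
    rw [hsplit j, zero_mul]
  simp only [add_mul, Finset.sum_add_distrib, Finset.sum_mul] at h4
  rw [Finset.sum_comm] at h4
  have h5 : ∑ i ∈ Finset.range L.length, ∑ j : Fin P.2.length,
      w i * aR P (L.getD i 0) j * u j = 0 := by
    refine Finset.sum_eq_zero fun i hi => ?_
    have hmem : L.getD i 0 ∈ L := by
      rw [List.getD_eq_getElem _ _ (Finset.mem_range.1 hi)]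
      exact List.getElem_mem _
    have h6 := hu _ hmem
    have h7 : ∑ j : Fin P.2.length, w i * aR P (L.getD i 0) j * u j =
        w i * (aR P (L.getD i 0) ⬝ᵥ u) := by
      rw [dotProduct, Finset.mul_sum]
      refine Finset.sum_congr rfl fun j _ => ?_
      ring
    rw [h7, h6, mul_zero]
  rw [h5, zero_add] at h4
  have h8 : ∑ j : Fin P.2.length, w L.length * aR P r j * u j = w L.length * (aR P r ⬝ᵥ u) := by
    rw [dotProduct, Finset.mul_sum]
    refine Finset.sum_congr rfl fun j _ => ?_
    ring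
  rw [h8] at h4
  exact (mul_eq_zero.1 h4).resolve_left hwl

theorem exists_orth {L : List ℕ} (h : L.length < P.2.length) :
    ∃ u : Fin P.2.length → ℝ, u ≠ 0 ∧ ∀ s ∈ L, aR P s ⬝ᵥ u = 0 := by
  set f : (Fin P.2.length → ℝ) →ₗ[ℝ] (Fin L.length → ℝ) :=
    Matrix.mulVecLin (Matrix.of fun (i : Fin L.length) => aR P (L.get i)) with hf
  have hk : LinearMap.ker f ≠ ⊥ := LinearMap.ker_ne_bot_of_finrank_lt (by simpa using h)
  obtain ⟨u, hu, hu0⟩ := Submodule.exists_mem_ne_zero_of_ne_bot hk
  refine ⟨u, hu0, fun s hs => ?_⟩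
  obtain ⟨i, hi, rfl⟩ := List.mem_iff_getElem.1 hs
  have h1 := congrFun (LinearMap.mem_ker.1 hu) ⟨i, hi⟩
  exact h1

theorem too_long (hWF : WF P) {L : List ℕ} (hL : ∀ x ∈ L, x < P.1.length)
    (h : P.2.length < L.length) : (gramM (bas P L)).det = 0 := by
  rw [gram_zero_iff (bas_row hWF hL)]
  set f : (Fin L.length → ℝ) →ₗ[ℝ] (Fin P.2.length → ℝ) :=
    Matrix.mulVecLin (Matrix.of fun (i : Fin L.length) => aR P (L.get i))ᵀ with hf
  have hk : LinearMap.ker f ≠ ⊥ := LinearMap.ker_ne_bot_of_finrank_lt (by simpa using h)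
  obtain ⟨u, hu, hu0⟩ := Submodule.exists_mem_ne_zero_of_ne_bot hk
  obtain ⟨i, hi⟩ := Function.ne_iff.1 hu0
  refine ⟨fun k => if h : k < L.length then u ⟨k, h⟩ else (0 : ℝ),
    ⟨i, by rw [bas_len]; exact i.2, by simpa [i.2] using hi⟩, ?_⟩
  intro j hj
  rw [sum_bas _ hj, Finset.sum_range]
  have h1 := congrFun (LinearMap.mem_ker.1 hu) ⟨j, hj⟩
  refine Eq.trans ?_ h1
  simp only [hf, Matrix.mulVecLin_apply, Matrix.mulVec, dotProduct, transpose_apply, of_apply]
  refine Finset.sum_congr rfl fun k _ => ?_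
  simp only [k.2, dif_pos]
  rw [List.get_eq_getElem, List.getD_eq_getElem _ _ k.2]
  ring

/-! ### the greedy basis -/

/-- the test for tightness -/
theorem tight_iff (hWF : WF P) {x : List ℚ} {r : ℕ} (hr : r < P.1.length) :
    dotL (rowA P r) (intVec (lden x) x) = (lden x : ℤ) * rowB P r ↔
      aR P r ⬝ᵥ toVec P.2.length x = bR P r := by
  have hD : (0 : ℝ) < (lden x : ℝ) := by exact_mod_cast lden_pos x
  have h1 : ((dotL (rowA P r) (intVec (lden x) x) : ℤ) : ℝ) =
      (lden x : ℝ) * (aR P r ⬝ᵥ toVec P.2.length x) := by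
    rw [dotL_eq_sum, hWF r hr, Finset.sum_range, dotProduct, Finset.mul_sum]
    push_cast
    refine Finset.sum_congr rfl fun j _ => ?_
    rw [intVec_getD (fun q hq => den_dvd_lden hq)]
    simp only [aR, toVec]
    ring
  constructor
  · intro h
    have h2 := congrArg (fun z : ℤ => (z : ℝ)) h
    rw [h1] at h2
    push_cast at h2
    exact mul_left_cancel₀ hD.ne' h2
  · intro h
    rw [h] at h1
    have h2 : ((dotL (rowA P r) (intVec (lden x) x) : ℤ) : ℝ) =
        (((lden x : ℤ) * rowB P r : ℤ) : ℝ) := by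
      rw [h1]
      push_cast
      rfl
    exact_mod_cast h2

/-- one step of the greedy algorithm -/
def gst (P : LPd) (x : List ℚ) (acc : List ℕ) (r : ℕ) : List ℕ :=
  if dotL (rowA P r) (intVec (lden x) x) = (lden x : ℤ) * rowB P r ∧
        gdet (bas P (acc ++ [r])) ≠ 0 then acc ++ [r] else acc

theorem greedy_inv (hWF : WF P) (x : List ℚ) : ∀ k ≤ P.1.length,
    ((List.range k).foldl (gst P x) []).Nodup ∧
    (∀ r ∈ (List.range k).foldl (gst P x) [], r < k) ∧
    (∀ r ∈ (List.range k).foldl (gst P x) [], aR P r ⬝ᵥ toVec P.2.length x = bR P r) ∧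
    (gramM (bas P ((List.range k).foldl (gst P x) []))).det ≠ 0 ∧
    ∀ r < k, aR P r ⬝ᵥ toVec P.2.length x = bR P r → ∀ u : Fin P.2.length → ℝ,
      (∀ s ∈ (List.range k).foldl (gst P x) [], aR P s ⬝ᵥ u = 0) → aR P r ⬝ᵥ u = 0 := by
  intro k
  induction k with
  | zero =>
    intro _
    refine ⟨by simp, by simp, by simp, ?_, fun r hr => absurd hr (Nat.not_lt_zero r)⟩
    have : IsEmpty (Fin (bas P ((List.range 0).foldl (gst P x) [])).length) := by
      simp only [List.range_zero, List.foldl_nil, bas, List.map_nil, List.length_nil]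
      infer_instance
    rw [Matrix.det_isEmpty]
    exact one_ne_zero
  | succ k ih =>
    intro hk
    obtain ⟨h1, h2, h3, h4, h5⟩ := ih (by omega)
    rw [List.range_succ, List.foldl_append, List.foldl_cons, List.foldl_nil]
    generalize (List.range k).foldl (gst P x) [] = acc at h1 h2 h3 h4 h5
    have hkR : k < P.1.length := by omega
    have haccR : ∀ s ∈ acc, s < P.1.length := fun s hs => (h2 s hs).trans (by omega)
    unfold gst
    by_cases hc : dotL (rowA P k) (intVec (lden x) x) = (lden x : ℤ) * rowB P k ∧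
        gdet (bas P (acc ++ [k])) ≠ 0
    · rw [if_pos hc]
      refine ⟨?_, ?_, ?_, ?_, ?_⟩
      · rw [List.nodup_append]
        refine ⟨h1, by simp, ?_⟩
        intro a ha b hb
        rw [List.mem_singleton] at hb
        have := h2 a ha
        omega
      · intro r hr
        rcases List.mem_append.1 hr with h | h
        · have := h2 r h
          omega
        · rw [List.mem_singleton] at h
          omega
      · intro r hr
        rcases List.mem_append.1 hr with h | h
        · exact h3 r h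
        · rw [List.mem_singleton] at h
          rw [h]
          exact (tight_iff hWF hkR).1 hc.1
      · have := hc.2
        rw [gdet_eq] at this
        exact Int.natAbs_ne_zero.1 this
      · intro r hr hrt u hu
        by_cases hrk : r = k
        · rw [hrk]
          exact hu k (List.mem_append_right _ (by simp))
        · exact h5 r (by omega) hrt u fun s hs => hu s (List.mem_append_left _ hs)
    · rw [if_neg hc]
      refine ⟨h1, fun r hr => (h2 r hr).trans (Nat.lt_succ_self k), h3, h4, ?_⟩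
      intro r hr hrt u hu
      by_cases hrk : r = k
      · subst hrk
        have hdet : (gramM (bas P (acc ++ [r]))).det = 0 := by
          by_contra hne
          apply hc
          refine ⟨(tight_iff hWF hkR).2 hrt, ?_⟩
          rw [gdet_eq]
          exact Int.natAbs_ne_zero.2 hne
        exact indep_step hWF haccR hkR h4 hdet hu
      · exact h5 r (by omega) hrt u hu

/-- The greedy basis at a vertex. -/
theorem basis0_spec (hWF : WF P) {x : List ℚ}
    (hx : toVec P.2.length x ∈ (poly (aR P) (bR P)).extremePoints ℝ) :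
    Sel P (basis0 P x) ∧ dt (aR P) (bv P (basis0 P x)) ≠ 0 ∧
    pnt P (basis0 P x) = toVec P.2.length x ∧
    ∀ r < P.1.length, 0 ≤ sk (aR P) (bR P) (bv P (basis0 P x)) r := by
  have hb : basis0 P x = (List.range P.1.length).foldl (gst P x) [] := rfl
  obtain ⟨h1, h2, h3, h4, h5⟩ := greedy_inv hWF x P.1.length le_rfl
  rw [← hb] at h1 h2 h3 h4 h5
  -- the polyhedron with finitely many constraints
  have hpoly : poly (aR P) (bR P) =
      poly (fun r : Fin P.1.length => aR P r) (fun r : Fin P.1.length => bR P r) := by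
    ext z
    constructor
    · intro hz r
      exact hz r
    · intro hz
      exact mem_polyP fun r hr => hz ⟨r, hr⟩
  have hlen1 : ¬ (basis0 P x).length < P.2.length := by
    intro hlt
    obtain ⟨u, hu0, hu⟩ := exists_orth hlt
    have hx' := hx
    rw [hpoly] at hx'
    obtain ⟨r, hr, hru⟩ := exists_tight_of_extreme hx' hu0
    exact hru (h5 r r.2 hr u hu)
  have hlen2 : ¬ P.2.length < (basis0 P x).length := fun hlt => h4 (too_long hWF h2 hlt)
  have hlen : (basis0 P x).length = P.2.length := by omega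
  have hsel : Sel P (basis0 P x) := ⟨hlen, h1, h2⟩
  have hd : dt (aR P) (bv P (basis0 P x)) ≠ 0 := by
    rw [dt_eq]
    rw [det_gram hWF hlen h2] at h4
    intro h0
    apply h4
    have : (NZ P (basis0 P x)).det = 0 := by exact_mod_cast h0
    rw [this]
    simp
  have hp : pnt P (basis0 P x) = toVec P.2.length x :=
    (eq_bpt_of_tight hd fun i => h3 _ (bv_mem hsel i)).symm
  refine ⟨hsel, hd, hp, fun r hr => ?_⟩
  have h6 := hx.1 r
  unfold sk
  change 0 ≤ bR P r - aR P r ⬝ᵥ pnt P (basis0 P x)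
  rw [hp]
  linarith

end Pool.Agent.H390R3
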