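import Pool.Agent.H24R2.U.Spec

set_option autoImplicit false

/-!
# The simplex machine halts after quasi-polynomially many steps
-/

namespace Pool.Agent.H390R3

open Pool.Agent.H24U

section

variable {n R : ℕ} {o : Orc} {f : List ℕ → ℝ} {ok : List ℕ → Prop}

/-- optimal on the face -/
def OutA (o : Orc) (f : List ℕ → ℝ) (ok : List ℕ → Prop) (F G v : List ℕ) (rest : List Frame)
    (c : Cfg) : Prop :=
  ∃ w, c = (w, (rest, (1, 0))) ∧ ok w ∧ (∀ x ∈ F, x ∈ w) ∧ (∀ x ∈ w, x ∈ F ∨ x ∈ G) ∧ f v ≤ f w ∧
    ∀ x ∈ w, x ∉ F → o.im w x = false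

/-- another constraint was entered -/
def OutB (R : ℕ) (f : List ℕ → ℝ) (ok : List ℕ → Prop) (F G v : List ℕ) (rest : List Frame)
    (c : Cfg) : Prop :=
  ∃ w r, c = (w, (rest, (2, r))) ∧ ok w ∧ (∀ x ∈ F, x ∈ w) ∧ r ∉ F ∧ r ∉ G ∧ r ∈ w ∧ r < R ∧
    (∀ x ∈ w, x ∈ F ∨ x ∈ G ∨ x = r) ∧ f v < f w

/-- unbounded improving edge -/
def OutC (o : Orc) (c : Cfg) : Prop :=
  c.2.2 = (3, 1) ∧ ∃ j ∈ c.1, o.im c.1 j = true ∧ o.en c.1 j = none

def Out (R : ℕ) (o : Orc) (f : List ℕ → ℝ) (ok : List ℕ → Prop) (F G v : List ℕ)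
    (rest : List Frame) (c : Cfg) : Prop :=
  OutA o f ok F G v rest c ∨ OutB R f ok F G v rest c ∨ OutC o c

/-- the claim for calls with `|G| < 2 ^ k` and codimension at most `d` -/
def Call (n R : ℕ) (o : Orc) (f : List ℕ → ℝ) (ok : List ℕ → Prop) (d k B : ℕ) : Prop :=
  ∀ F G v rest, FG R F G → ok v → (∀ x ∈ F, x ∈ v) → (∀ x ∈ v, x ∈ F ∨ x ∈ G) →
    G.length < 2 ^ k → n ≤ F.length + d →
    ∃ t ≤ B, Out R o f ok F G v rest ((step o)^[t] (v, (((F, G), (0, 0)) :: rest, (0, 0))))

/-! ### steps of the machine -/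

theorem step_call (v F G : List ℕ) (st : ℕ × ℕ) (rest : List Frame) :
    step o (v, (((F, G), st) :: rest, (0, 0))) = callStep o v F G rest := by
  simp [step]

theorem step_ret (v F G : List ℕ) (st : ℕ × ℕ) (rest : List Frame) :
    step o (v, (((F, G), st) :: rest, (1, 0))) = retStep o v F G st rest := by
  simp [step]

theorem step_enter (v F G : List ℕ) (st : ℕ × ℕ) (rest : List Frame) (r : ℕ) :
    step o (v, (((F, G), st) :: rest, (2, r))) = enterStep o v F G st rest r := by
  simp [step]

theorem mem_repl {v : List ℕ} {j r x : ℕ} (hj : j ∈ v) :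
    x ∈ repl v j r ↔ (x ∈ v ∧ x ≠ j) ∨ x = r := by
  unfold repl
  rw [List.mem_map]
  constructor
  · rintro ⟨y, hy, rfl⟩
    split_ifs with h
    · exact Or.inr rfl
    · exact Or.inl ⟨hy, h⟩
  · rintro (⟨hx, hne⟩ | rfl)
    · exact ⟨x, hx, by rw [if_neg hne]⟩
    · exact ⟨j, hj, by rw [if_pos rfl]⟩

/-! ### counting -/

theorem FG_erase {F G : List ℕ} {r : ℕ} (h : FG R F G) (hr : r ∈ G) : FG R (r :: F) (G.erase r) := by
  have hp : List.Perm (r :: F ++ G.erase r) (F ++ G) := by
    have h1 : List.Perm G (r :: G.erase r) := List.perm_cons_erase hr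
    have h2 : List.Perm (F ++ G) (F ++ r :: G.erase r) := h1.append_left F
    exact (List.perm_middle.symm).trans h2.symm
  exact ⟨hp.nodup_iff.2 h.1, fun x hx => h.2 x (hp.mem_iff.1 hx)⟩

theorem FG_filter {F G : List ℕ} (p : ℕ → Bool) (h : FG R F G) : FG R F (G.filter p) := by
  have hs : List.Sublist (F ++ G.filter p) (F ++ G) :=
    (List.Sublist.refl F).append List.filter_sublist
  exact ⟨h.1.sublist hs, fun x hx => h.2 x (hs.subset hx)⟩

/-- strict monotonicity of `cnt` -/
theorem cnt_lt (S : Sem n R o f ok) {F G : List ℕ} (h : FG R F G) {k j : ℕ} (hk : k ∈ G)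
    (hj : j ∈ G) (hkj : o.gt F G k j = true) : cnt o F G k < cnt o F G j := by
  unfold cnt
  have hGn : G.Nodup := (List.nodup_append.1 h.1).2.1
  rw [← List.toFinset_card_of_nodup (hGn.filter _), ← List.toFinset_card_of_nodup (hGn.filter _)]
  apply Finset.card_lt_card
  rw [Finset.ssubset_iff_of_subset]
  · refine ⟨k, ?_, ?_⟩
    · simp [hk, hkj]
    · simp [hk, S.gt_irrefl F G k h hk]
  · intro x hx
    simp only [List.mem_toFinset, List.mem_filter] at hx ⊢
    exact ⟨hx.1, S.gt_trans F G x k j h hx.1 hk hj hx.2 hkj⟩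

/-- the number of constraints in the lower half -/
theorem low_le (S : Sem n R o f ok) {F G : List ℕ} (h : FG R F G) :
    (G.filter fun j => decide ((G.length + 1) / 2 ≤ cnt o F G j)).length ≤ G.length / 2 := by
  set hh := (G.length + 1) / 2 with hhh
  by_cases hex : ∃ j ∈ G, hh ≤ cnt o F G j
  · -- choose one with minimal `cnt`
    obtain ⟨j, hj, hjmin⟩ : ∃ j ∈ G.toFinset.filter (fun j => hh ≤ cnt o F G j),
        ∀ k ∈ G.toFinset.filter (fun j => hh ≤ cnt o F G j), cnt o F G j ≤ cnt o F G k := by
      apply Finset.exists_min_image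
      obtain ⟨j, hj, hj2⟩ := hex
      exact ⟨j, by simp [hj, hj2]⟩
    simp only [Finset.mem_filter, List.mem_toFinset] at hj hjmin
    have hsub : (G.filter fun k => o.gt F G k j).length ≤
        (G.filter fun j => !decide (hh ≤ cnt o F G j)).length := by
      have hGn : G.Nodup := (List.nodup_append.1 h.1).2.1
      rw [← List.toFinset_card_of_nodup (hGn.filter _), ← List.toFinset_card_of_nodup (hGn.filter _)]
      apply Finset.card_le_card
      intro x hx
      simp only [List.mem_toFinset, List.mem_filter, Bool.not_eq_true',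
        decide_eq_false_iff_not, not_le] at hx ⊢
      refine ⟨hx.1, ?_⟩
      by_contra hcon
      have h1 := cnt_lt S h hx.1 hj.1 hx.2
      have h2 := hjmin x ⟨hx.1, not_lt.1 hcon⟩
      omega
    have hj2 : hh ≤ (G.filter fun k => o.gt F G k j).length := hj.2
    have hadd := List.length_eq_length_filter_add (l := G) (fun j => decide (hh ≤ cnt o F G j))
    omega
  · push Not at hex
    have : (G.filter fun j => decide (hh ≤ cnt o F G j)) = [] := by
      rw [List.filter_eq_nil_iff]
      intro j hj
      have := hex j hj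
      simp only [decide_eq_true_eq, not_le]
      omega
    rw [this]
    simp

/-! ### chaining -/

theorem chain {c c1 : Cfg} {t1 : ℕ} {Q : Cfg → Prop} {B2 : ℕ} (h : (step o)^[t1] c = c1)
    (h2 : ∃ t ≤ B2, Q ((step o)^[t] c1)) : ∃ t ≤ t1 + B2, Q ((step o)^[t] c) := by
  obtain ⟨t, ht, hq⟩ := h2
  refine ⟨t + t1, by omega, ?_⟩
  rw [Function.iterate_add_apply, h]
  exact hq

theorem chain1 {c c1 : Cfg} {Q : Cfg → Prop} {B2 : ℕ} (h : step o c = c1)
    (h2 : ∃ t ≤ B2, Q ((step o)^[t] c1)) : ∃ t ≤ B2 + 1, Q ((step o)^[t] c) := by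
  obtain ⟨t, ht, hq⟩ := h2
  refine ⟨t + 1, by omega, ?_⟩
  rw [Function.iterate_add_apply, Function.iterate_one, h]
  exact hq

theorem now {c : Cfg} {Q : Cfg → Prop} {B : ℕ} (h : Q c) : ∃ t ≤ B, Q ((step o)^[t] c) :=
  ⟨0, Nat.zero_le _, h⟩

theorem now1 {c c1 : Cfg} {Q : Cfg → Prop} {B : ℕ} (h : step o c = c1) (hq : Q c1) (hB : 1 ≤ B) :
    ∃ t ≤ B, Q ((step o)^[t] c) := ⟨1, hB, by rw [Function.iterate_one, h]; exact hq⟩

theorem mono {c : Cfg} {Q : Cfg → Prop} {B B' : ℕ} (hB : B ≤ B')
    (h : ∃ t ≤ B, Q ((step o)^[t] c)) : ∃ t ≤ B', Q ((step o)^[t] c) := by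
  obtain ⟨t, ht, hq⟩ := h
  exact ⟨t, ht.trans hB, hq⟩

/-- A face of dimension zero. -/
theorem all_mem {F v : List ℕ} (hF : F.Nodup) (hv : v.Nodup) (hsub : ∀ x ∈ F, x ∈ v)
    (hlen : v.length ≤ F.length) : ∀ x ∈ v, x ∈ F := by
  have h1 : F.toFinset = v.toFinset := by
    apply Finset.eq_of_subset_of_card_le
    · intro x hx
      rw [List.mem_toFinset] at hx ⊢
      exact hsub x hx
    · rw [List.toFinset_card_of_nodup hF, List.toFinset_card_of_nodup hv]
      exact hlen
  intro x hx
  rw [← List.mem_toFinset, h1, List.mem_toFinset]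
  exact hx

/-- calls on which nothing has to be done -/
theorem call_trivial {F G v : List ℕ} {rest : List Frame} (hok : ok v) (hFv : ∀ x ∈ F, x ∈ v)
    (hvFG : ∀ x ∈ v, x ∈ F ∨ x ∈ G) (him : ∀ x ∈ v, x ∉ F → o.im v x = false) :
    ∃ t ≤ 1, Out R o f ok F G v rest ((step o)^[t] (v, (((F, G), (0, 0)) :: rest, (0, 0)))) := by
  have h1 : (v.filter fun j => decide (j ∉ F) && o.im v j) = [] := by
    rw [List.filter_eq_nil_iff]
    intro x hx
    by_cases hxF : x ∈ F
    · simp [hxF]
    · simp [hxF, him x hx hxF]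
  refine now1 (c1 := (v, (rest, (1, 0)))) ?_ ?_ le_rfl
  · rw [step_call, callStep, if_pos h1]
  · exact Or.inl ⟨v, rfl, hok, hFv, hvFG, le_rfl, him⟩

theorem facet_stage (S : Sem n R o f ok) {d k B1 B2 : ℕ} (H1 : Call n R o f ok d (k + 1) B1)
    (H2 : Call n R o f ok (d + 1) k B2) {F G v : List ℕ} {rest : List Frame} {j : ℕ}
    (hFG : FG R F G) (hok : ok v) (hFv : ∀ x ∈ F, x ∈ v) (hvFG : ∀ x ∈ v, x ∈ F ∨ x ∈ G)
    (hlen : G.length < 2 ^ (k + 1)) (hd : n ≤ F.length + (d + 1)) (hj : j ∈ G) (hjv : j ∈ v)
    (hc : cnt o F G j < (G.length + 1) / 2) :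
    ∃ t ≤ B1 + B2 + 3, Out R o f ok F G v rest ((step o)^[t]
      (v, (((j :: F, G.erase j), (0, 0)) :: ((F, G), (1, j)) :: rest, (0, 0)))) := by
  have hFGnd := hFG.1
  have hdisj := (List.nodup_append.1 hFGnd).2.2
  have hGnd := (List.nodup_append.1 hFGnd).2.1
  have hFnd := (List.nodup_append.1 hFGnd).1
  have hjF : j ∉ F := fun h => hdisj j h j hj rfl
  obtain ⟨t1, ht1, hout⟩ := H1 (j :: F) (G.erase j) v (((F, G), (1, j)) :: rest)
    (FG_erase hFG hj) hok
    (by
      intro x hx
      rcases List.mem_cons.1 hx with rfl | hx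
      · exact hjv
      · exact hFv x hx)
    (by
      intro x hx
      rcases hvFG x hx with h | h
      · exact Or.inl (List.mem_cons_of_mem _ h)
      · by_cases hxj : x = j
        · subst hxj
          exact Or.inl (List.mem_cons_self ..)
        · exact Or.inr ((List.mem_erase_of_ne hxj).2 h))
    (by
      rw [List.length_erase_of_mem hj]
      omega)
    (by
      rw [List.length_cons]
      omega)
  refine mono (B := t1 + (B2 + 3)) (by omega) (chain rfl ?_)
  rcases hout with hA | hB | hC
  · obtain ⟨w, hcw, hokw, hFw, hwFG, hfw, him⟩ := hA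
    rw [hcw]
    have hFw' : ∀ x ∈ F, x ∈ w := fun x hx => hFw x (List.mem_cons_of_mem _ hx)
    have hjw : j ∈ w := hFw j (List.mem_cons_self ..)
    have hwFG' : ∀ x ∈ w, x ∈ F ∨ x ∈ G := by
      intro x hx
      rcases hwFG x hx with h | h
      · rcases List.mem_cons.1 h with rfl | h
        · exact Or.inr hj
        · exact Or.inl h
      · exact Or.inr (List.mem_of_mem_erase h)
    have him' : ∀ x ∈ w, x ≠ j → x ∉ F → o.im w x = false := by
      intro x hx hxj hxF
      apply him x hx
      intro h
      rcases List.mem_cons.1 h with h | h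
      · exact hxj h
      · exact hxF h
    by_cases himj : o.im w j = true
    · rcases hen : o.en w j with _ | r
      · -- unbounded
        refine now1 (c1 := (w, (((F, G), (1, j)) :: rest, (3, 1)))) ?_ ?_ (by omega)
        · rw [step_ret, retStep, if_pos ⟨rfl, himj⟩, hen]
          rfl
        · exact Or.inr (Or.inr ⟨rfl, j, hjw, himj, hen⟩)
      · obtain ⟨hokr, hrw, hrR, hfr⟩ := S.en_ok w j r hokw hjw himj hen
        refine chain1 (B2 := B2 + 2) (c1 := (repl w j r, (((F, G), (1, j)) :: rest, (2, r)))) ?_ ?_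
        · rw [step_ret, retStep, if_pos ⟨rfl, himj⟩, hen]
          rfl
        have hrF : r ∉ F := fun h => hrw (hFw' r h)
        have hFr : ∀ x ∈ F, x ∈ repl w j r := by
          intro x hx
          rw [mem_repl hjw]
          exact Or.inl ⟨hFw' x hx, fun h => hjF (h ▸ hx)⟩
        have hrr : r ∈ repl w j r := (mem_repl hjw).2 (Or.inr rfl)
        by_cases hrG : r ∈ G
        · -- the upper part
          have hgr : ∀ u, ok u → (∀ x ∈ F, x ∈ u) → f w < f u → ∀ x ∈ u, x ∈ G →
              x ∈ G.filter fun k => o.gt F G k j := by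
            intro u hu hFu hfu x hx hxG
            rw [List.mem_filter]
            exact ⟨hxG, S.gt_top F G w u j x hFG hokw hu hFw' hjw hj hwFG' him' hFu hx hxG hfu⟩
          refine chain1 (B2 := B2 + 1) (c1 := (repl w j r,
            (((F, G.filter fun k => o.gt F G k j), (0, 0)) :: ((F, G), (2, 0)) :: rest,
              (0, 0)))) ?_ ?_
          · rw [step_enter, enterStep, if_neg (by simpa using hrG), if_neg (by norm_num)]
          obtain ⟨t2, ht2, hout2⟩ := H2 F (G.filter fun k => o.gt F G k j) (repl w j r)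
            (((F, G), (2, 0)) :: rest) (FG_filter _ hFG) hokr hFr
            (by
              intro x hx
              have hx' := (mem_repl hjw).1 hx
              by_cases hxF : x ∈ F
              · exact Or.inl hxF
              · right
                apply hgr _ hokr hFr hfr x hx
                rcases hx' with ⟨h1, _⟩ | rfl
                · exact (hwFG' x h1).resolve_left hxF
                · exact hrG)
            (by
              have h5 : (G.filter fun k => o.gt F G k j).length = cnt o F G j := rfl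
              rw [h5]
              have h6 : (2 : ℕ) ^ (k + 1) = 2 * 2 ^ k := by rw [pow_succ]; ring
              omega) hd
          refine mono (B := t2 + 1) (by omega) (chain rfl ?_)
          rcases hout2 with hA2 | hB2 | hC2
          · obtain ⟨u, hcu, hoku, hFu, huFG, hfu, himu⟩ := hA2
            rw [hcu]
            refine now1 (c1 := (u, (rest, (1, 0)))) ?_ ?_ le_rfl
            · rw [step_ret, retStep, if_neg (by norm_num)]
            · exact Or.inl ⟨u, rfl, hoku, hFu, fun x hx => (huFG x hx).imp_right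
                fun h => (List.mem_filter.1 h).1, by linarith, himu⟩
          · obtain ⟨u, r', hcu, hoku, hFu, hr'F, hr'G, hr'u, hr'R, huFG, hfu⟩ := hB2
            rw [hcu]
            have hr'G' : r' ∉ G := fun h => hr'G (hgr u hoku hFu (by linarith) r' hr'u h)
            refine now1 (c1 := (u, (rest, (2, r')))) ?_ ?_ le_rfl
            · rw [step_enter, enterStep, if_pos hr'G']
            · refine Or.inr (Or.inl ⟨u, r', rfl, hoku, hFu, hr'F, hr'G', hr'u, hr'R, ?_,
                by linarith⟩)
              intro x hx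
              rcases huFG x hx with h | h | h
              · exact Or.inl h
              · exact Or.inr (Or.inl (List.mem_filter.1 h).1)
              · exact Or.inr (Or.inr h)
          · exact now (Or.inr (Or.inr hC2))
        · refine now1 (c1 := (repl w j r, (rest, (2, r)))) ?_ ?_ (by omega)
          · rw [step_enter, enterStep, if_pos hrG]
          · refine Or.inr (Or.inl ⟨_, r, rfl, hokr, hFr, hrF, hrG, hrr, hrR, ?_, by linarith⟩)
            intro x hx
            rcases (mem_repl hjw).1 hx with ⟨h1, _⟩ | h1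
            · rcases hwFG' x h1 with h | h
              · exact Or.inl h
              · exact Or.inr (Or.inl h)
            · exact Or.inr (Or.inr h1)
    · refine now1 (c1 := (w, (rest, (1, 0)))) ?_ ?_ (by omega)
      · rw [step_ret, retStep, if_neg (by simp [himj])]
      · refine Or.inl ⟨w, rfl, hokw, hFw', hwFG', hfw, ?_⟩
        intro x hx hxF
        by_cases hxj : x = j
        · subst hxj
          simpa using himj
        · exact him' x hx hxj hxF
  · obtain ⟨w, r, hcw, hokw, hFw, hrF, hrG, hrw, hrR, hwFG, hfw⟩ := hB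
    rw [hcw]
    have hrj : r ≠ j := fun h => hrF (h ▸ List.mem_cons_self ..)
    have hrG' : r ∉ G := fun h => hrG ((List.mem_erase_of_ne hrj).2 h)
    have hrF' : r ∉ F := fun h => hrF (List.mem_cons_of_mem _ h)
    refine now1 (c1 := (w, (rest, (2, r)))) ?_ ?_ (by omega)
    · rw [step_enter, enterStep, if_pos hrG']
    · refine Or.inr (Or.inl ⟨w, r, rfl, hokw, fun x hx => hFw x (List.mem_cons_of_mem _ hx),
        hrF', hrG', hrw, hrR, ?_, hfw⟩)
      intro x hx
      rcases hwFG x hx with h | h | h
      · rcases List.mem_cons.1 h with rfl | h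
        · exact Or.inr (Or.inl hj)
        · exact Or.inl h
      · exact Or.inr (Or.inl (List.mem_of_mem_erase h))
      · exact Or.inr (Or.inr h)
  · exact now (Or.inr (Or.inr hC))

/-- the bound on the number of steps -/
def W (d k : ℕ) : ℕ := 6 * (2 * d + 1) ^ k - 5

theorem W_zero (d : ℕ) : W d 0 = 1 := by simp [W]

theorem W_pos (d k : ℕ) : 1 ≤ W d k := by
  have : 1 ≤ (2 * d + 1) ^ k := Nat.one_le_pow _ _ (by omega)
  unfold W
  omega

theorem W_rec (d k : ℕ) : 2 * W (d + 1) k + W d (k + 1) + 5 ≤ W (d + 1) (k + 1) := by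
  have h1 : 1 ≤ (2 * (d + 1) + 1) ^ k := Nat.one_le_pow _ _ (by omega)
  have h2 : 1 ≤ (2 * d + 1) ^ (k + 1) := Nat.one_le_pow _ _ (by omega)
  have h3 : 1 ≤ (2 * (d + 1) + 1) ^ (k + 1) := Nat.one_le_pow _ _ (by omega)
  have h4 : (2 * d + 1) ^ k ≤ (2 * (d + 1) + 1) ^ k := Nat.pow_le_pow_left (by omega) _
  have h5 : 2 * (2 * (d + 1) + 1) ^ k + (2 * d + 1) ^ (k + 1) ≤ (2 * (d + 1) + 1) ^ (k + 1) := by
    rw [pow_succ (2 * (d + 1) + 1) k, pow_succ (2 * d + 1) k]
    nlinarith
  unfold W
  omega

theorem call_main (S : Sem n R o f ok) : ∀ k d, Call n R o f ok d k (W d k) := by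
  intro k
  induction k with
  | zero =>
    intro d F G v rest hFG hok hFv hvFG hlen hd
    rw [W_zero]
    have hG : G = [] := List.length_eq_zero_iff.1 (by simpa using hlen)
    subst hG
    refine call_trivial hok hFv hvFG ?_
    intro x hx hxF
    rcases hvFG x hx with h | h
    · exact absurd h hxF
    · exact absurd h (List.not_mem_nil)
  | succ k ihk =>
    intro d
    induction d with
    | zero =>
      intro F G v rest hFG hok hFv hvFG hlen hd
      refine mono (W_pos 0 (k + 1)) (call_trivial hok hFv hvFG ?_)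
      intro x hx hxF
      exfalso
      apply hxF
      refine all_mem (List.nodup_append.1 hFG.1).1 (S.len v hok).2.1 hFv ?_ x hx
      rw [(S.len v hok).1]
      omega
    | succ d ihd =>
      intro F G v rest hFG hok hFv hvFG hlen hd
      by_cases hA : (v.filter fun j => decide (j ∉ F) && o.im v j) = []
      · refine mono (W_pos (d + 1) (k + 1)) (call_trivial hok hFv hvFG ?_)
        intro x hx hxF
        have := List.filter_eq_nil_iff.1 hA x hx
        simpa [hxF] using this
      have hrec := W_rec d k
      by_cases hB : (v.filter fun j =>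
          decide (j ∈ G) && decide (cnt o F G j < (G.length + 1) / 2)) = []
      · -- relaxation
        set Glo := G.filter fun j => decide ((G.length + 1) / 2 ≤ cnt o F G j) with hGlo
        have hGlolen : Glo.length ≤ G.length / 2 := low_le S hFG
        refine mono (B := (W (d + 1) k + (1 + (W d (k + 1) + W (d + 1) k + 3))) + 1) (by omega) ?_
        refine chain1 (c1 := (v, (((F, Glo), (0, 0)) :: ((F, G), (0, 0)) :: rest, (0, 0)))) ?_ ?_
        · rw [step_call, callStep, if_neg hA, if_pos hB]
        obtain ⟨t1, ht1, hout⟩ := ihk (d + 1) F Glo v (((F, G), (0, 0)) :: rest)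
          (FG_filter _ hFG) hok hFv
          (by
            intro x hx
            rcases hvFG x hx with h | h
            · exact Or.inl h
            · right
              rw [hGlo, List.mem_filter]
              refine ⟨h, ?_⟩
              have := List.filter_eq_nil_iff.1 hB x hx
              simp only [Bool.and_eq_true, decide_eq_true_eq, not_and, not_lt] at this
              simpa using this h)
          (by
            have h6 : (2 : ℕ) ^ (k + 1) = 2 * 2 ^ k := by rw [pow_succ]; ring
            omega) hd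
        refine mono (B := t1 + (1 + (W d (k + 1) + W (d + 1) k + 3))) (by omega) (chain rfl ?_)
        rcases hout with hA2 | hB2 | hC2
        · obtain ⟨u, hcu, hoku, hFu, huFG, hfu, himu⟩ := hA2
          rw [hcu]
          refine now1 (c1 := (u, (rest, (1, 0)))) ?_ ?_ (by omega)
          · rw [step_ret, retStep, if_neg (by norm_num)]
          · exact Or.inl ⟨u, rfl, hoku, hFu, fun x hx => (huFG x hx).imp_right
                fun h => (List.mem_filter.1 h).1, hfu, himu⟩
        · obtain ⟨u, r, hcu, hoku, hFu, hrF, hrGlo, hru, hrR, huFG, hfu⟩ := hB2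
          rw [hcu]
          by_cases hrG : r ∈ G
          · -- the facet `r`
            refine mono (B := (W d (k + 1) + W (d + 1) k + 3) + 1) (by omega) ?_
            refine chain1 (c1 := (u, (((r :: F, G.erase r), (0, 0)) :: ((F, G), (1, r)) :: rest,
              (0, 0)))) ?_ ?_
            · rw [step_enter, enterStep, if_neg (by simpa using hrG), if_pos rfl]
            obtain ⟨t2, ht2, hout2⟩ := facet_stage S ihd (ihk (d + 1)) (v := u) (rest := rest)
              hFG hoku hFu
              (by
                intro x hx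
                rcases huFG x hx with h | h | h
                · exact Or.inl h
                · exact Or.inr (List.mem_filter.1 h).1
                · exact Or.inr (h ▸ hrG)) hlen (by omega) hrG hru
              (by
                by_contra hcon
                apply hrGlo
                rw [hGlo, List.mem_filter]
                exact ⟨hrG, by simpa using hcon⟩)
            refine ⟨t2, by omega, ?_⟩
            rcases hout2 with hA3 | hB3 | hC3
            · obtain ⟨w, hcw, hokw, hFw, hwFG, hfw, himw⟩ := hA3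
              exact Or.inl ⟨w, hcw, hokw, hFw, hwFG, by linarith, himw⟩
            · obtain ⟨w, r', hcw, hokw, hFw, hr'F, hr'G, hr'w, hr'R, hwFG, hfw⟩ := hB3
              exact Or.inr (Or.inl ⟨w, r', hcw, hokw, hFw, hr'F, hr'G, hr'w, hr'R, hwFG,
                by linarith⟩)
            · exact Or.inr (Or.inr hC3)
          · refine now1 (c1 := (u, (rest, (2, r)))) ?_ ?_ (by omega)
            · rw [step_enter, enterStep, if_pos hrG]
            · refine Or.inr (Or.inl ⟨u, r, rfl, hoku, hFu, hrF, hrG, hru, hrR, ?_, hfu⟩)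
              intro x hx
              rcases huFG x hx with h | h | h
              · exact Or.inl h
              · exact Or.inr (Or.inl (List.mem_filter.1 h).1)
              · exact Or.inr (Or.inr h)
        · exact now (Or.inr (Or.inr hC2))
      · -- a facet at the vertex
        set L := v.filter fun j =>
          decide (j ∈ G) && decide (cnt o F G j < (G.length + 1) / 2) with hL
        set j := L.headD 0 with hj
        have hjL : j ∈ L := by
          rw [hj]
          rcases hLL : L with _ | ⟨a, l⟩
          · exact absurd hLL hB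
          · simp
        have hjL2 : j ∈ v ∧ j ∈ G ∧ cnt o F G j < (G.length + 1) / 2 := by
          rw [hL, List.mem_filter] at hjL
          simpa using hjL
        obtain ⟨hjv, hjG, hjc⟩ := hjL2
        refine mono (B := (W d (k + 1) + W (d + 1) k + 3) + 1) (by omega) ?_
        refine chain1 (c1 := (v, (((j :: F, G.erase j), (0, 0)) :: ((F, G), (1, j)) :: rest,
          (0, 0)))) ?_ ?_
        · rw [step_call, callStep, if_neg hA, if_neg hB]
        exact facet_stage S ihd (ihk (d + 1)) hFG hok hFv hvFG hlen (by omega) hjG hjv hjc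

/-! ### The whole computation -/

theorem step_mode3 {c : Cfg} (h : c.2.2.1 = 3) : step o c = c := by
  unfold step
  rw [if_pos h]

theorem iterate_mode3 {c : Cfg} (h : c.2.2.1 = 3) (t : ℕ) : (step o)^[t] c = c := by
  induction t with
  | zero => rfl
  | succ t ih => rw [Function.iterate_succ_apply', ih, step_mode3 h]

theorem Final.mode {c : Cfg} (h : Final o c) : c.2.2.1 = 3 := by
  rcases h with h | h
  · rw [h.1]
  · rw [h.1]

/-- The machine halts in time. -/
theorem halts (S : Sem n R o f ok) {v : List ℕ} (hv : ok v) {T : ℕ}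
    (hT : W n R.size + 1 ≤ T) : Final o ((step o)^[T] (start R v)) := by
  have hFG : FG R [] (List.range R) := by
    constructor
    · simpa using List.nodup_range
    · intro r hr
      simpa using hr
  obtain ⟨t, ht, hout⟩ := call_main S R.size n [] (List.range R) v [] hFG hv
    (fun x hx => absurd hx List.not_mem_nil)
    (fun x hx => Or.inr (List.mem_range.2 ((S.len v hv).2.2 x hx)))
    (by rw [List.length_range]; exact Nat.lt_size_self R) (by simp)
  have key : ∃ t ≤ W n R.size + 1, Final o ((step o)^[t] (start R v)) := by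
    change Out R o f ok [] (List.range R) v [] ((step o)^[t] (start R v)) at hout
    rcases hout with hA | hB | hC
    · obtain ⟨w, hcw, hokw, hFw, hwFG, hfw, himw⟩ := hA
      refine ⟨t + 1, by omega, ?_⟩
      rw [Function.iterate_succ_apply', hcw]
      refine Or.inl ⟨?_, ?_⟩
      · simp [step]
      · intro j hj
        have : (step o (w, ([], (1, 0)))).1 = w := by simp [step]
        rw [this] at hj ⊢
        exact himw j hj List.not_mem_nil
    · obtain ⟨w, r, hcw, hokw, hFw, hrF, hrG, hrw, hrR, hwFG, hfw⟩ := hB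
      exact absurd (List.mem_range.2 hrR) hrG
    · exact ⟨t, by omega, Or.inr hC⟩
  obtain ⟨t, ht, hF⟩ := key
  obtain ⟨s, rfl⟩ : ∃ s, T = s + t := ⟨T - t, by omega⟩
  rw [Function.iterate_add_apply, iterate_mode3 (Final.mode hF)]
  exact hF

/-- Every step keeps the basis or makes a pivot. -/
theorem step_ok (S : Sem n R o f ok) (c : Cfg) (hc : ok c.1) :
    ok (step o c).1 ∧ ((step o c).1 = c.1 ∨ Pivot o c.1 (step o c).1) := by
  obtain ⟨v, stk, md, r⟩ := c
  change ok v at hc
  by_cases h3 : md = 3
  · rw [step_mode3 (by exact h3)]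
    exact ⟨hc, Or.inl rfl⟩
  rcases stk with _ | ⟨⟨⟨F, G⟩, st⟩, rest⟩
  · have : (step o (v, ([], (md, r)))).1 = v := by simp [step, h3]
    rw [this]
    exact ⟨hc, Or.inl rfl⟩
  by_cases h0 : md = 0
  · subst h0
    have : (step o (v, (((F, G), st) :: rest, (0, r)))).1 = v := by
      simp only [step, callStep]
      simp only [List.head?_cons, Option.elim_some]
      split_ifs <;> rfl
    rw [this]
    exact ⟨hc, Or.inl rfl⟩
  by_cases h1 : md = 1
  · subst h1
    have e : step o (v, (((F, G), st) :: rest, (1, r))) = retStep o v F G st rest := by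
      simp [step]
    rw [e, retStep]
    split_ifs with hcond
    · rcases hen : o.en v st.2 with _ | r'
      · exact ⟨hc, Or.inl rfl⟩
      · have hjv := S.im_mem v st.2 hc hcond.2
        obtain ⟨hokr, _, _, _⟩ := S.en_ok v st.2 r' hc hjv hcond.2 hen
        exact ⟨hokr, Or.inr ⟨st.2, r', hjv, hcond.2, hen, rfl⟩⟩
    · exact ⟨hc, Or.inl rfl⟩
  · have : (step o (v, (((F, G), st) :: rest, (md, r)))).1 = v := by
      simp only [step, h3, h0, h1, if_false]
      simp only [List.head?_cons, Option.elim_some, enterStep]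
      split_ifs <;> rfl
    rw [this]
    exact ⟨hc, Or.inl rfl⟩

theorem iter_ok (S : Sem n R o f ok) (c : Cfg) (hc : ok c.1) (t : ℕ) :
    ok ((step o)^[t] c).1 := by
  induction t with
  | zero => exact hc
  | succ t ih =>
    rw [Function.iterate_succ_apply']
    exact (step_ok S _ ih).1

end

end Pool.Agent.H390R3
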