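import Pool.Agent.H390R3.Gt

set_option autoImplicit false

/-!
# The oracles of a nondegenerate linear program satisfy the hypotheses of the machine
-/

namespace Pool.Agent.H390R3

open Pool.Agent.H24U Pool.Agent.H24R2 Pool.Agent.H670R2 Matrix Function

variable {P : LPd}

/-! ### sums over lists -/

theorem sum_getD (L : List ℕ) (g : ℕ → ℝ) :
    ∑ p ∈ Finset.range L.length, g (L.getD p 0) = (L.map g).sum := by
  induction L with
  | nil => simp
  | cons a L ih =>
    rw [List.length_cons, Finset.sum_range_succ', List.map_cons, List.sum_cons, ← ih]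
    simp [add_comm]

theorem sum_getD' {L : List ℕ} (hL : L.Nodup) (g : ℕ → ℝ) :
    ∑ p ∈ Finset.range L.length, g (L.getD p 0) = ∑ r ∈ L.toFinset, g r := by
  rw [sum_getD, List.sum_toFinset _ hL]

/-! ### weak duality -/

theorem weak_dual {F G : List ℕ} {k j i : ℕ} {s1 t1 s2 t2 : ℝ} {x1 sl1 y1 z1 x2 sl2 y2 z2 : ℕ → ℝ}
    (h1 : GE P F G k j s1 t1 x1 sl1 y1 z1) (hz1 : ∀ q, 0 ≤ z1 q)
    (h2 : GE P F G j i s2 t2 x2 sl2 y2 z2) (hsl2 : ∀ q, 0 ≤ sl2 q) :
    s1 * ∑ l ∈ Finset.range P.2.length, x2 l * ((P.2.getD l 0 : ℤ) : ℝ) ≤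
      s2 * (∑ p ∈ Finset.range (j :: F).length, y1 p * ((rowB P ((j :: F).getD p 0) : ℤ) : ℝ) +
        ∑ q ∈ Finset.range G.length, z1 q * ((rowB P (G.getD q 0) : ℤ) : ℝ)) := by
  have e : s1 * ∑ l ∈ Finset.range P.2.length, x2 l * ((P.2.getD l 0 : ℤ) : ℝ) =
      ∑ p ∈ Finset.range (j :: F).length, y1 p * (s2 * ((rowB P ((j :: F).getD p 0) : ℤ) : ℝ)) +
        ∑ q ∈ Finset.range G.length, z1 q * (s2 * ((rowB P (G.getD q 0) : ℤ) : ℝ) - sl2 q) := by
    calc s1 * ∑ l ∈ Finset.range P.2.length, x2 l * ((P.2.getD l 0 : ℤ) : ℝ)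
        = ∑ l ∈ Finset.range P.2.length, x2 l * (s1 * ((P.2.getD l 0 : ℤ) : ℝ)) := by
          rw [Finset.mul_sum]
          refine Finset.sum_congr rfl fun l _ => ?_
          ring
      _ = ∑ l ∈ Finset.range P.2.length, x2 l * (∑ p ∈ Finset.range (j :: F).length,
            y1 p * (((rowA P ((j :: F).getD p 0)).getD l 0 : ℤ) : ℝ) +
            ∑ q ∈ Finset.range G.length,
              z1 q * (((rowA P (G.getD q 0)).getD l 0 : ℤ) : ℝ)) := by
          refine Finset.sum_congr rfl fun l hl => ?_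
          rw [h1.e3 l (Finset.mem_range.1 hl)]
      _ = ∑ p ∈ Finset.range (j :: F).length, y1 p * ∑ l ∈ Finset.range P.2.length,
            x2 l * (((rowA P ((j :: F).getD p 0)).getD l 0 : ℤ) : ℝ) +
          ∑ q ∈ Finset.range G.length, z1 q * ∑ l ∈ Finset.range P.2.length,
            x2 l * (((rowA P (G.getD q 0)).getD l 0 : ℤ) : ℝ) := by
          simp only [mul_add, Finset.sum_add_distrib, Finset.mul_sum]
          congr 1
          · rw [Finset.sum_comm]
            refine Finset.sum_congr rfl fun p _ => Finset.sum_congr rfl fun l _ => ?_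
            ring
          · rw [Finset.sum_comm]
            refine Finset.sum_congr rfl fun p _ => Finset.sum_congr rfl fun l _ => ?_
            ring
      _ = _ := by
          congr 1
          · refine Finset.sum_congr rfl fun p hp => ?_
            rw [h2.e1 p (Finset.mem_range.1 hp)]
          · refine Finset.sum_congr rfl fun q hq => ?_
            have := h2.e2 q (Finset.mem_range.1 hq)
            congr 1
            linarith
  rw [e, mul_add, Finset.mul_sum, Finset.mul_sum]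
  apply add_le_add
  · apply le_of_eq
    refine Finset.sum_congr rfl fun p _ => ?_
    ring
  · refine Finset.sum_le_sum fun q _ => ?_
    have h3 := mul_nonneg (hz1 q) (hsl2 q)
    nlinarith

theorem gt_irr (hWF : WF P) {F G : List ℕ} {k : ℕ} (hFG : FG P.1.length F G) (hk : k ∈ G) :
    gtQ P F G k k = false := by
  rw [Bool.eq_false_iff]
  intro hcon
  rw [gtQ_iff hWF hFG hk] at hcon
  obtain ⟨s, t, x, sl, y, z, hs, ht, hsl, hz, hE⟩ := hcon
  have h1 := weak_dual hE hz hE hsl
  have h2 := hE.e4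
  rw [h2, mul_add] at h1
  have : 0 < s * t := mul_pos hs ht
  linarith

theorem gt_tr (hWF : WF P) {F G : List ℕ} {k j i : ℕ} (hFG : FG P.1.length F G)
    (hj : j ∈ G) (hi : i ∈ G) (h1 : gtQ P F G k j = true) (h2 : gtQ P F G j i = true) :
    gtQ P F G k i = true := by
  rw [gtQ_iff hWF hFG hj] at h1
  rw [gtQ_iff hWF hFG hi] at h2 ⊢
  obtain ⟨s1, t1, x1, sl1, y1, z1, hs1, ht1, hsl1, hz1, hE1⟩ := h1
  obtain ⟨s2, t2, x2, sl2, y2, z2, hs2, ht2, hsl2, hz2, hE2⟩ := h2
  have hw := weak_dual hE1 hz1 hE2 hsl2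
  have e1 := hE1.e4
  have e2 := hE2.e4
  set V1 := ∑ p ∈ Finset.range (j :: F).length, y1 p * ((rowB P ((j :: F).getD p 0) : ℤ) : ℝ) +
        ∑ q ∈ Finset.range G.length, z1 q * ((rowB P (G.getD q 0) : ℤ) : ℝ) with hV1
  set V2 := ∑ p ∈ Finset.range (i :: F).length, y2 p * ((rowB P ((i :: F).getD p 0) : ℤ) : ℝ) +
        ∑ q ∈ Finset.range G.length, z2 q * ((rowB P (G.getD q 0) : ℤ) : ℝ) with hV2
  refine ⟨s1 * s2, s2 * (t1 + V1) - s1 * V2, fun l => s2 * x1 l, fun q => s2 * sl1 q,
    fun p => s1 * y2 p, fun q => s1 * z2 q, mul_pos hs1 hs2, ?_,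
    fun q => mul_nonneg hs2.le (hsl1 q), fun q => mul_nonneg hs1.le (hz2 q), ?_, ?_, ?_, ?_⟩
  · have h3 : s1 * ∑ l ∈ Finset.range P.2.length, x2 l * ((P.2.getD l 0 : ℤ) : ℝ) =
        s1 * t2 + s1 * V2 := by rw [e2, mul_add]
    have h4 := mul_pos hs2 ht1
    have h5 := mul_pos hs1 ht2
    linarith
  · intro p hp
    have h := hE1.e1 p hp
    have h' : ∑ l ∈ Finset.range P.2.length, s2 * x1 l *
        (((rowA P ((k :: F).getD p 0)).getD l 0 : ℤ) : ℝ) =
        s2 * ∑ l ∈ Finset.range P.2.length, x1 l *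
        (((rowA P ((k :: F).getD p 0)).getD l 0 : ℤ) : ℝ) := by
      rw [Finset.mul_sum]
      refine Finset.sum_congr rfl fun l _ => ?_
      ring
    rw [h', h]
    ring
  · intro q hq
    have h := hE1.e2 q hq
    have h' : ∑ l ∈ Finset.range P.2.length, s2 * x1 l *
        (((rowA P (G.getD q 0)).getD l 0 : ℤ) : ℝ) =
        s2 * ∑ l ∈ Finset.range P.2.length, x1 l *
        (((rowA P (G.getD q 0)).getD l 0 : ℤ) : ℝ) := by
      rw [Finset.mul_sum]
      refine Finset.sum_congr rfl fun l _ => ?_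
      ring
    rw [h', ← mul_add, h]
    ring
  · intro l hl
    have h := hE2.e3 l hl
    have h' : ∑ p ∈ Finset.range (i :: F).length,
        s1 * y2 p * (((rowA P ((i :: F).getD p 0)).getD l 0 : ℤ) : ℝ) +
        ∑ q ∈ Finset.range G.length,
          s1 * z2 q * (((rowA P (G.getD q 0)).getD l 0 : ℤ) : ℝ) =
        s1 * (∑ p ∈ Finset.range (i :: F).length,
        y2 p * (((rowA P ((i :: F).getD p 0)).getD l 0 : ℤ) : ℝ) +
        ∑ q ∈ Finset.range G.length,
          z2 q * (((rowA P (G.getD q 0)).getD l 0 : ℤ) : ℝ)) := by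
      rw [mul_add, Finset.mul_sum, Finset.mul_sum]
      congr 1
      · refine Finset.sum_congr rfl fun p _ => ?_
        ring
      · refine Finset.sum_congr rfl fun p _ => ?_
        ring
    rw [h', h]
    ring
  · have h' : ∑ l ∈ Finset.range P.2.length, s2 * x1 l * ((P.2.getD l 0 : ℤ) : ℝ) =
        s2 * ∑ l ∈ Finset.range P.2.length, x1 l * ((P.2.getD l 0 : ℤ) : ℝ) := by
      rw [Finset.mul_sum]
      refine Finset.sum_congr rfl fun l _ => ?_
      ring
    have h'' : ∑ p ∈ Finset.range (i :: F).length,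
        s1 * y2 p * ((rowB P ((i :: F).getD p 0) : ℤ) : ℝ) +
        ∑ q ∈ Finset.range G.length, s1 * z2 q * ((rowB P (G.getD q 0) : ℤ) : ℝ) = s1 * V2 := by
      rw [hV2, mul_add, Finset.mul_sum, Finset.mul_sum]
      congr 1
      · refine Finset.sum_congr rfl fun p _ => ?_
        ring
      · refine Finset.sum_congr rfl fun p _ => ?_
        ring
    rw [h', h'', e1]
    ring

/-! ### bases -/

theorem bv_mem {v : List ℕ} (hv : Sel P v) (i : Fin P.2.length) : bv P v i ∈ v := by
  have hi : (i : ℕ) < v.length := by rw [hv.1]; exact i.2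
  simp only [bv]
  rw [List.getD_eq_getElem _ _ hi]
  exact List.getElem_mem _

theorem exists_bv {v : List ℕ} (hv : Sel P v) {j : ℕ} (hj : j ∈ v) :
    ∃ i : Fin P.2.length, bv P v i = j := by
  obtain ⟨i, hi, rfl⟩ := List.mem_iff_getElem.1 hj
  refine ⟨⟨i, by rw [← hv.1]; exact hi⟩, ?_⟩
  simp only [bv]
  rw [List.getD_eq_getElem _ _ hi]

theorem repl_len (v : List ℕ) (j r : ℕ) : (repl v j r).length = v.length := by simp [repl]

theorem bv_repl {v : List ℕ} (hv : Sel P v) {j r : ℕ} {i : Fin P.2.length} (hi : bv P v i = j) :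
    bv P (repl v j r) = update (bv P v) i r := by
  funext l
  have hl : (l : ℕ) < v.length := by rw [hv.1]; exact l.2
  have hi' : (i : ℕ) < v.length := by rw [hv.1]; exact i.2
  have h0 : bv P v l = v[(l : ℕ)] := by
    simp only [bv]
    rw [List.getD_eq_getElem _ _ hl]
  have h1 : bv P (repl v j r) l = if bv P v l = j then r else bv P v l := by
    rw [h0]
    simp only [bv]
    rw [List.getD_eq_getElem _ _ (by rw [repl_len]; exact hl)]
    simp [repl]
  rw [h1]
  by_cases hli : l = i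
  · subst hli
    rw [if_pos hi, update_self]
  · rw [if_neg, update_of_ne hli]
    intro h
    apply hli
    rw [← hi] at h
    simp only [bv] at h
    rw [List.getD_eq_getElem _ _ hl, List.getD_eq_getElem _ _ hi'] at h
    exact Fin.ext ((hv.2.1.getElem_inj_iff).1 h)

theorem sel_repl {v : List ℕ} (hv : Sel P v) {j r : ℕ} (hr : r ∉ v) (hrR : r < P.1.length) :
    Sel P (repl v j r) := by
  refine ⟨by rw [repl_len, hv.1], ?_, ?_⟩
  · unfold repl
    rw [List.nodup_map_iff_inj_on hv.2.1]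
    intro x hx y hy hxy
    by_cases h1 : x = j
    · by_cases h2 : y = j
      · rw [h1, h2]
      · rw [if_pos h1, if_neg h2] at hxy
        exact absurd (hxy ▸ hy) hr
    · by_cases h2 : y = j
      · rw [if_neg h1, if_pos h2] at hxy
        exact absurd (hxy ▸ hx) hr
      · rwa [if_neg h1, if_neg h2] at hxy
  · intro x hx
    unfold repl at hx
    obtain ⟨y, hy, rfl⟩ := List.mem_map.1 hx
    split_ifs
    · exact hrR
    · exact hv.2.2 y hy

theorem enter_some {v : List ℕ} {j r : ℕ} (h : enter P v j = some r) :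
    r ∉ v ∧ r < P.1.length ∧ feas P (repl v j r) = true := by
  unfold enter at h
  have h1 := List.mem_of_mem_head? h
  rw [List.mem_filter, List.mem_range] at h1
  simpa [and_left_comm] using h1

/-- geometry of a pivot -/
theorem pivot_geom (hWF : WF P) {v : List ℕ} {j r : ℕ} (hv : Ok P v) {i : Fin P.2.length}
    (hi : bv P v i = j) (hr : r ∉ v) (hrR : r < P.1.length) (hf : feas P (repl v j r) = true) :
    dt (aR P) (bv P v) ≠ 0 ∧ lm (aR P) (bv P v) i (aR P r) ≠ 0 ∧
    0 ≤ sk (aR P) (bR P) (bv P v) r ∧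
    0 ≤ -(sk (aR P) (bR P) (bv P v) r / lm (aR P) (bv P v) i (aR P r)) := by
  have h1 := (feas_iff hWF hv.1).1 hv.2
  have h2 := (feas_iff hWF (sel_repl (j := j) hv.1 hr hrR)).1 hf
  rw [bv_repl hv.1 hi] at h2
  have h3 : lm (aR P) (bv P v) i (aR P r) ≠ 0 := by
    intro h0
    apply h2.1
    rw [dt_update h1.1, h0, zero_mul]
  refine ⟨h1.1, h3, h1.2 r hrR, ?_⟩
  have hjR : j < P.1.length := by
    rw [← hi]
    exact hv.1.2.2 _ (bv_mem hv.1 i)
  have h4 := h2.2 j hjR
  rw [sk_update h1.1 i r j h3] at h4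
  have h5 : sk (aR P) (bR P) (bv P v) j = 0 := by
    rw [← hi]
    exact sk_self h1.1 i
  have h6 : lm (aR P) (bv P v) i (aR P j) = 1 := by
    rw [← hi]
    exact lm_self h1.1 i
  rw [h5, h6] at h4
  rw [zero_sub, mul_one_div] at h4
  exact h4

theorem en_okP (hWF : WF P) (hND : ND P) {v : List ℕ} {j r : ℕ} (hv : Ok P v)
    (him : impr P v j = true) (hen : enter P v j = some r) :
    Ok P (repl v j r) ∧ r ∉ v ∧ r < P.1.length ∧ val P v < val P (repl v j r) := by
  obtain ⟨hr, hrR, hf⟩ := enter_some hen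
  have hd := ((feas_iff hWF hv.1).1 hv.2).1
  obtain ⟨i, hi, hl⟩ := (impr_iff hWF hv.1 hd j).1 him
  obtain ⟨_, h3, h4, h5⟩ := pivot_geom hWF hv hi hr hrR hf
  refine ⟨⟨sel_repl hv.1 hr hrR, hf⟩, hr, hrR, ?_⟩
  have h6 : 0 < sk (aR P) (bR P) (bv P v) r := lt_of_le_of_ne h4 (hND v hv.1 hd r hrR hr).symm
  have h7 : lm (aR P) (bv P v) i (aR P r) < 0 := by
    rcases lt_or_gt_of_ne h3 with h | h
    · exact h
    · have := div_pos h6 h
      linarith
  have h8 := obj_update (B := bR P) hd (cR P) i r h3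
  change cR P ⬝ᵥ bpt (aR P) (bR P) (bv P v) < cR P ⬝ᵥ bpt (aR P) (bR P) (bv P (repl v j r))
  rw [bv_repl hv.1 hi, h8]
  have h9 : 0 < lm (aR P) (bv P v) i (cR P) / lm (aR P) (bv P v) i (aR P r) :=
    div_pos_of_neg_of_neg hl h7
  have := mul_pos h6 h9
  linarith

/-- the multipliers as a function on the constraints -/
noncomputable def mf (P : LPd) (v : List ℕ) (r : ℕ) : ℝ :=
  ∑ i : Fin P.2.length, if bv P v i = r then lm (aR P) (bv P v) i (cR P) else 0

theorem mf_sum {v : List ℕ} (S : Finset ℕ) (hS : ∀ i, bv P v i ∈ S) (h : ℕ → ℝ) :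
    ∑ r ∈ S, mf P v r * h r =
      ∑ i : Fin P.2.length, lm (aR P) (bv P v) i (cR P) * h (bv P v i) := by
  unfold mf
  simp only [Finset.sum_mul]
  rw [Finset.sum_comm]
  refine Finset.sum_congr rfl fun i _ => ?_
  rw [Finset.sum_eq_single (bv P v i)]
  · rw [if_pos rfl]
  · intro b _ hb
    rw [if_neg (Ne.symm hb), zero_mul]
  · intro h
    exact absurd (hS i) h

theorem mf_nonneg {v : List ℕ} {r : ℕ}
    (h : ∀ i : Fin P.2.length, bv P v i = r → 0 ≤ lm (aR P) (bv P v) i (cR P)) : 0 ≤ mf P v r := by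
  unfold mf
  refine Finset.sum_nonneg fun i _ => ?_
  split_ifs with hi
  · exact h i hi
  · exact le_rfl

theorem top_sum {F G v : List ℕ} {j : ℕ} (hFG : (F ++ G).Nodup) (hj : j ∈ G)
    (hv : ∀ i, bv P v i ∈ F ∨ bv P v i ∈ G) (h : ℕ → ℝ) :
    ∑ p ∈ Finset.range (j :: F).length, mf P v ((j :: F).getD p 0) * h ((j :: F).getD p 0) +
      ∑ q ∈ Finset.range G.length, (if G.getD q 0 = j then 0 else mf P v (G.getD q 0)) *
        h (G.getD q 0) =
    ∑ i : Fin P.2.length, lm (aR P) (bv P v) i (cR P) * h (bv P v i) := by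
  obtain ⟨hF, hG, hdis⟩ := List.nodup_append.1 hFG
  have hjF : j ∉ F := fun h => hdis j h j hj rfl
  have hjFn : (j :: F).Nodup := List.nodup_cons.2 ⟨hjF, hF⟩
  rw [sum_getD' hjFn (fun r => mf P v r * h r),
    sum_getD' hG (fun r => (if r = j then 0 else mf P v r) * h r)]
  rw [← mf_sum (F ++ G).toFinset (fun i => by simpa using hv i) h]
  rw [List.toFinset_append, List.toFinset_cons, Finset.sum_insert (by simpa using hjF)]
  rw [Finset.sum_union (by
    rw [Finset.disjoint_left]
    intro a ha hb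
    exact hdis a (by simpa using ha) a (by simpa using hb) rfl)]
  have hjG' : j ∈ G.toFinset := by simpa using hj
  rw [← Finset.add_sum_erase _ _ hjG', ← Finset.add_sum_erase _ _ hjG', if_pos rfl, zero_mul]
  have : ∑ x ∈ G.toFinset.erase j, (if x = j then 0 else mf P v x) * h x =
      ∑ x ∈ G.toFinset.erase j, mf P v x * h x := by
    refine Finset.sum_congr rfl fun x hx => ?_
    rw [if_neg (Finset.ne_of_mem_erase hx)]
  rw [this]
  ring

theorem gt_topP (hWF : WF P) {F G v w : List ℕ} {j k : ℕ} (hFG : FG P.1.length F G)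
    (hv : Ok P v) (hw : Ok P w) (hj : j ∈ G)
    (hvFG : ∀ x ∈ v, x ∈ F ∨ x ∈ G) (him : ∀ x ∈ v, x ≠ j → x ∉ F → impr P v x = false)
    (hFw : ∀ x ∈ F, x ∈ w) (hkw : k ∈ w) (hlt : val P v < val P w) :
    gtQ P F G k j = true := by
  have hdv := ((feas_iff hWF hv.1).1 hv.2).1
  obtain ⟨hdw, hskw⟩ := (feas_iff hWF hw.1).1 hw.2
  have hGR : ∀ r ∈ G, r < P.1.length := fun r hr => hFG.2 r (List.mem_append_right _ hr)
  rw [gtQ_iff hWF hFG hj]
  have hbv : ∀ i, bv P v i ∈ F ∨ bv P v i ∈ G := fun i => hvFG _ (bv_mem hv.1 i)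
  set X : ℕ → ℝ := fun l => if h : l < P.2.length then
    bpt (aR P) (bR P) (bv P w) ⟨l, h⟩ else 0 with hX
  have hXd : ∀ r, ∑ l ∈ Finset.range P.2.length, X l * (((rowA P r).getD l 0 : ℤ) : ℝ) =
      aR P r ⬝ᵥ bpt (aR P) (bR P) (bv P w) := by
    intro r
    rw [Finset.sum_range]
    unfold dotProduct
    refine Finset.sum_congr rfl fun l _ => ?_
    simp only [hX, l.2, dif_pos, aR]
    ring
  have hXc : ∑ l ∈ Finset.range P.2.length, X l * ((P.2.getD l 0 : ℤ) : ℝ) = val P w := by
    rw [Finset.sum_range]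
    unfold val
    refine Finset.sum_congr rfl fun l _ => ?_
    simp only [hX, l.2, dif_pos, cR]
    ring
  have hsum := fun h => top_sum (P := P) hFG.1 hj hbv h
  have hV : ∑ i : Fin P.2.length, lm (aR P) (bv P v) i (cR P) * ((rowB P (bv P v i) : ℤ) : ℝ) =
      val P v := by
    have h1 := dot_eq hdv (cR P) (bpt (aR P) (bR P) (bv P v))
    have h2 : val P v = cR P ⬝ᵥ bpt (aR P) (bR P) (bv P v) := rfl
    rw [h2, h1]
    refine Finset.sum_congr rfl fun i _ => ?_
    rw [dot_bpt hdv]
    rfl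
  refine ⟨1, val P w - val P v, X, fun q => max (bR P (G.getD q 0) -
    aR P (G.getD q 0) ⬝ᵥ bpt (aR P) (bR P) (bv P w)) 0,
    fun p => mf P v ((j :: F).getD p 0),
    fun q => if q < G.length then (if G.getD q 0 = j then 0 else mf P v (G.getD q 0)) else 0,
    one_pos, by linarith, fun q => le_max_right _ _, ?_, ?_, ?_, ?_, ?_⟩
  · intro q
    dsimp only
    split_ifs with h1 h2
    · exact le_rfl
    · apply mf_nonneg
      intro i hi
      have hq : G.getD q 0 ∈ G := by
        rw [List.getD_eq_getElem _ _ h1]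
        exact List.getElem_mem _
      have h3 : bv P v i ∉ F := by
        intro h
        rw [hi] at h
        exact (List.nodup_append.1 hFG.1).2.2 _ h _ hq rfl
      have h4 := him _ (bv_mem hv.1 i) (by rw [hi]; exact h2) h3
      by_contra hneg
      have h5 := (impr_iff hWF hv.1 hdv (bv P v i)).2 ⟨i, rfl, not_le.1 hneg⟩
      rw [h4] at h5
      exact absurd h5 (by simp)
    · exact le_rfl
  · intro p hp
    rw [hXd, one_mul]
    have hmem : (k :: F).getD p 0 ∈ w := by
      have : (k :: F).getD p 0 ∈ k :: F := by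
        rw [List.getD_eq_getElem _ _ hp]
        exact List.getElem_mem _
      rcases List.mem_cons.1 this with h | h
      · rw [h]
        exact hkw
      · exact hFw _ h
    obtain ⟨i, hi⟩ := exists_bv hw.1 hmem
    rw [← hi, dot_bpt hdw]
    rfl
  · intro q hq
    have hqG : G.getD q 0 ∈ G := by
      rw [List.getD_eq_getElem _ _ hq]
      exact List.getElem_mem _
    have h1 := hskw _ (hGR _ hqG)
    unfold sk at h1
    rw [hXd, one_mul, max_eq_left h1]
    simp only [bR]
    ring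
  · intro l hl
    have h1 := hsum (fun r => (((rowA P r).getD l 0 : ℤ) : ℝ))
    have h2 := sum_lm hdv (cR P) ⟨l, hl⟩
    rw [one_mul]
    refine Eq.trans ?_ h2
    refine Eq.trans ?_ h1
    congr 1
    refine Finset.sum_congr rfl fun q hq => ?_
    rw [if_pos (Finset.mem_range.1 hq)]
  · have h1 := hsum (fun r => ((rowB P r : ℤ) : ℝ))
    rw [hXc]
    have h3 : ∑ p ∈ Finset.range (j :: F).length, mf P v ((j :: F).getD p 0) *
        ((rowB P ((j :: F).getD p 0) : ℤ) : ℝ) +
        ∑ q ∈ Finset.range G.length, (if q < G.length then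
          (if G.getD q 0 = j then 0 else mf P v (G.getD q 0)) else 0) *
          ((rowB P (G.getD q 0) : ℤ) : ℝ) = val P v := by
      rw [← hV, ← h1]
      congr 1
      refine Finset.sum_congr rfl fun q hq => ?_
      rw [if_pos (Finset.mem_range.1 hq)]
    rw [h3]
    ring

theorem orc_gt : (orc P).gt = gtQ P := rfl

theorem orc_im : (orc P).im = impr P := rfl

theorem orc_en : (orc P).en = enter P := rfl

/-- The oracles of a nondegenerate linear program. -/
theorem semP (hWF : WF P) (hND : ND P) :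
    Sem P.2.length P.1.length (orc P) (val P) (Ok P) := by
  refine ⟨fun v hv => hv.1, ?_, ?_, ?_, ?_, ?_⟩
  · intro v j hv him
    rw [orc_im] at him
    have hd := ((feas_iff hWF hv.1).1 hv.2).1
    obtain ⟨i, hi, _⟩ := (impr_iff hWF hv.1 hd j).1 him
    rw [← hi]
    exact bv_mem hv.1 i
  · intro v j r hv _ him hen
    rw [orc_im] at him
    rw [orc_en] at hen
    exact en_okP hWF hND hv him hen
  · intro F G k hFG hk
    rw [orc_gt]
    exact gt_irr hWF hFG hk
  · intro F G k j i hFG _ hj hi h1 h2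
    rw [orc_gt] at h1 h2 ⊢
    exact gt_tr hWF hFG hj hi h1 h2
  · intro F G v w j k hFG hv hw _ _ hj hvFG him hFw hkw _ hlt
    rw [orc_im] at him
    rw [orc_gt]
    exact gt_topP hWF hFG hv hw hj hvFG him hFw hkw hlt

/-- If no constraint can be entered, the edge is unbounded. -/
theorem enter_none (hWF : WF P) {v : List ℕ} {j : ℕ} (hv : Ok P v) {i : Fin P.2.length}
    (hi : bv P v i = j) (hen : enter P v j = none) :
    ∀ r < P.1.length, 0 ≤ lm (aR P) (bv P v) i (aR P r) := by
  by_contra hcon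
  push Not at hcon
  obtain ⟨hd, hsk⟩ := (feas_iff hWF hv.1).1 hv.2
  -- the ratio test
  obtain ⟨r, hr, hmin⟩ : ∃ r ∈ (Finset.range P.1.length).filter
      (fun r => lm (aR P) (bv P v) i (aR P r) < 0),
      ∀ k ∈ (Finset.range P.1.length).filter (fun r => lm (aR P) (bv P v) i (aR P r) < 0),
        sk (aR P) (bR P) (bv P v) r / (-lm (aR P) (bv P v) i (aR P r)) ≤
        sk (aR P) (bR P) (bv P v) k / (-lm (aR P) (bv P v) i (aR P k)) := by
    apply Finset.exists_min_image
    obtain ⟨r, hr, hr2⟩ := hcon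
    exact ⟨r, by simp [hr, hr2]⟩
  rw [Finset.mem_filter, Finset.mem_range] at hr
  obtain ⟨hrR, hrl⟩ := hr
  have hrv : r ∉ v := by
    intro h
    obtain ⟨l, hl⟩ := exists_bv hv.1 h
    rw [← hl] at hrl
    by_cases hli : l = i
    · subst hli
      rw [lm_self hd] at hrl
      linarith
    · rw [lm_ne i l hli] at hrl
      linarith
  have hf : feas P (repl v j r) = true := by
    rw [feas_iff hWF (sel_repl hv.1 hrv hrR), bv_repl hv.1 hi]
    refine ⟨?_, ?_⟩
    · rw [dt_update hd]
      exact mul_ne_zero hrl.ne hd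
    · intro k hk
      rw [sk_update hd i r k hrl.ne]
      have h0 := hsk r hrR
      have h1 := hsk k hk
      by_cases hkl : lm (aR P) (bv P v) i (aR P k) < 0
      · have h2 := hmin k (by simp [hk, hkl])
        rw [div_le_div_iff₀ (by linarith) (by linarith)] at h2
        have h3 : sk (aR P) (bR P) (bv P v) r *
            (lm (aR P) (bv P v) i (aR P k) / lm (aR P) (bv P v) i (aR P r)) =
            (sk (aR P) (bR P) (bv P v) r * (-lm (aR P) (bv P v) i (aR P k))) /
              (-lm (aR P) (bv P v) i (aR P r)) := by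
          rw [mul_div_assoc, neg_div_neg_eq]
        rw [h3, sub_nonneg, div_le_iff₀ (by linarith)]
        exact h2
      · have h2 : sk (aR P) (bR P) (bv P v) r *
            (lm (aR P) (bv P v) i (aR P k) / lm (aR P) (bv P v) i (aR P r)) ≤ 0 :=
          mul_nonpos_of_nonneg_of_nonpos h0
            (div_nonpos_of_nonneg_of_nonpos (not_lt.1 hkl) hrl.le)
        linarith
  unfold enter at hen
  rw [List.head?_eq_none_iff, List.filter_eq_nil_iff] at hen
  apply hen r (List.mem_range.2 hrR)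
  simp [hrv, hf]

end Pool.Agent.H390R3
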