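import Pool.Agent.H24R2.U.Vbd
import Pool.Agent.H390R3.SemP

set_option autoImplicit false

/-!
# The perturbed linear program is nondegenerate
-/

namespace Pool.Agent.H390R3

open Pool.Agent.H24U Pool.Agent.H24R2 Pool.Agent.H670R2 Matrix Function

/-! ### base `Q` -/

theorem baseQ {Q : ℤ} (hQ : 0 < Q) : ∀ (R : ℕ) (d : ℕ → ℤ) (Z : ℤ), (∀ t, |d t| < Q) →
    Z * Q ^ R + ∑ t ∈ Finset.range R, d t * Q ^ t = 0 → ∀ t < R, d t = 0 := by
  intro R
  induction R with
  | zero => intro d Z _ _ t ht; exact absurd ht (Nat.not_lt_zero t)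
  | succ R ih =>
    intro d Z hd h
    rw [Finset.sum_range_succ'] at h
    have h1 : Z * Q ^ (R + 1) + (∑ t ∈ Finset.range R, d (t + 1) * Q ^ (t + 1) + d 0 * Q ^ 0) =
        Q * (Z * Q ^ R + ∑ t ∈ Finset.range R, d (t + 1) * Q ^ t) + d 0 := by
      rw [mul_add, Finset.mul_sum, pow_zero, mul_one, ← add_assoc]
      congr 1
      congr 1
      · ring
      · refine Finset.sum_congr rfl fun t _ => ?_
        ring
    rw [h1] at h
    have h2 : Q ∣ d 0 := by
      have h3 : d 0 = Q * -(Z * Q ^ R + ∑ t ∈ Finset.range R, d (t + 1) * Q ^ t) := by linarith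
      exact ⟨_, h3⟩
    have h4 : d 0 = 0 := Int.eq_zero_of_abs_lt_dvd h2 (hd 0)
    rw [h4, add_zero] at h
    have h5 : Z * Q ^ R + ∑ t ∈ Finset.range R, d (t + 1) * Q ^ t = 0 :=
      (mul_eq_zero.1 h).resolve_left hQ.ne'
    intro t ht
    rcases t with _ | t
    · exact h4
    · exact ih (fun t => d (t + 1)) Z (fun t => hd _) h5 t (by omega)

theorem baseQ_lt {Q : ℤ} (hQ : 1 ≤ Q) : ∀ (R : ℕ) (d : ℕ → ℤ), (∀ t, |d t| < Q) →
    |∑ t ∈ Finset.range R, d t * Q ^ t| ≤ Q ^ R - 1 := by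
  intro R
  induction R with
  | zero => intro d _; simp
  | succ R ih =>
    intro d hd
    rw [Finset.sum_range_succ]
    have h1 := ih d hd
    have h2 : |d R * Q ^ R| ≤ (Q - 1) * Q ^ R := by
      rw [abs_mul, abs_of_nonneg (a := Q ^ R) (by positivity)]
      exact mul_le_mul_of_nonneg_right (by have := hd R; omega) (by positivity)
    refine (abs_add_le _ _).trans ?_
    have h3 : Q ^ (R + 1) = Q * Q ^ R := by ring
    rw [h3]
    linarith

/-! ### integer determinants -/

variable {P : LPd}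

/-- integer determinants of rows -/
def ZD (P : LPd) (β : Fin P.2.length → ℕ) : ℤ :=
  (Matrix.of fun i j : Fin P.2.length => (rowA P (β i)).getD j 0).det

theorem dt_ZD (P : LPd) (β : Fin P.2.length → ℕ) : dt (aR P) β = ((ZD P β : ℤ) : ℝ) := by
  unfold dt ZD
  have h : bm (aR P) β =
    (Matrix.of fun i j : Fin P.2.length => (rowA P (β i)).getD j 0).map (Int.cast : ℤ → ℝ) := rfl
  rw [h]
  exact ((Int.castRingHom ℝ).map_det _).symm

theorem row_l1 (hWF : WF P) {r : ℕ} (hr : r < P.1.length) :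
    ∑ j : Fin P.2.length, |aR P r j| ≤ (bigS P : ℝ) := by
  have h1 : ∑ j : Fin P.2.length, |aR P r j| =
      (((rowA P r).map Int.natAbs).sum : ℝ) := by
    have h2 : ∀ j : Fin P.2.length, |aR P r j| = ((((rowA P r).getD j 0).natAbs : ℕ) : ℝ) := by
      intro j
      simp only [aR]
      rw [← Int.cast_abs, Int.abs_eq_natAbs]
      simp
    rw [Finset.sum_congr rfl fun j _ => h2 j]
    rw [← Finset.sum_range (fun j => ((((rowA P r).getD j 0).natAbs : ℕ) : ℝ))]
    have h3 : ∀ l : List ℤ, ∑ j ∈ Finset.range l.length, (((l.getD j 0).natAbs : ℕ) : ℝ) =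
        (((l.map Int.natAbs).sum : ℕ) : ℝ) := by
      intro l
      induction l with
      | nil => simp
      | cons a l ih =>
        rw [List.length_cons, Finset.sum_range_succ', List.map_cons, List.sum_cons,
          Nat.cast_add, ← ih]
        simp [add_comm]
    rw [← hWF r hr]
    exact h3 _
  rw [h1]
  have h4 : ((rowA P r).map Int.natAbs).sum ≤ bigS P := by
    have h5 : (rowA P r, rowB P r) ∈ P.1 := by
      have : (rowA P r, rowB P r) = P.1[r] := by
        unfold rowA rowB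
        rw [List.getD_eq_getElem _ _ hr]
      rw [this]
      exact List.getElem_mem _
    unfold bigS
    have h6 : ((rowA P r).map Int.natAbs).sum + (rowB P r).natAbs ∈
        P.1.map fun q => (q.1.map Int.natAbs).sum + q.2.natAbs :=
      List.mem_map.2 ⟨_, h5, rfl⟩
    have h7 := List.single_le_sum (fun x _ => Nat.zero_le x) _ h6
    omega
  exact_mod_cast h4

theorem ZD_lt (hWF : WF P) {β : Fin P.2.length → ℕ} (hβ : ∀ i, β i < P.1.length) :
    |ZD P β| < pertQ P := by
  have h1 : |dt (aR P) β| ≤ (bigS P : ℝ) ^ P.2.length := by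
    unfold dt
    refine (abs_det_le_prod _).trans ?_
    refine (Finset.prod_le_prod (fun i _ => Finset.sum_nonneg fun j _ => abs_nonneg _)
      (fun i _ => row_l1 hWF (hβ i))).trans ?_
    simp
  rw [dt_ZD, ← Int.cast_abs] at h1
  have h2 : |ZD P β| ≤ (bigS P : ℤ) ^ P.2.length := by exact_mod_cast h1
  refine lt_of_le_of_lt h2 ?_
  unfold pertQ qexp
  have h3 : bigS P < 2 ^ (bigS P).bits.length := by
    rw [Nat.size_eq_bits_len]
    exact Nat.lt_size_self _
  have h4 : bigS P ^ P.2.length ≤ (2 ^ (bigS P).bits.length) ^ P.2.length :=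
    Nat.pow_le_pow_left h3.le _
  have h5 : (2 ^ (bigS P).bits.length) ^ P.2.length <
      2 ^ ((P.2.length + 1) * (bigS P).bits.length + 2) := by
    rw [← pow_mul]
    apply Nat.pow_lt_pow_right (by norm_num)
    nlinarith
  exact_mod_cast lt_of_le_of_lt h4 h5

/-! ### the perturbation -/

/-- the perturbation of the right-hand side -/
def pe (P : LPd) (v0 : List ℕ) (r : ℕ) : ℤ :=
  if r < P.1.length then (if r ∈ v0 then 0 else pertQ P ^ (P.1.length - 1 - r)) else 0

theorem pertQ_pos (P : LPd) : 0 < pertQ P := by unfold pertQ; positivity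

theorem pert_row (P : LPd) (v0 : List ℕ) (r : ℕ) : rowA (pert P v0) r = rowA P r := by
  unfold rowA pert
  by_cases hr : r < P.1.length
  · rw [List.getD_eq_getElem _ _ (by simpa using hr)]
    simp [rowA]
  · rw [List.getD_eq_default _ _ (by simpa using hr), List.getD_eq_default _ _ (by simpa using hr)]

theorem pert_rhs (P : LPd) (v0 : List ℕ) (r : ℕ) :
    rowB (pert P v0) r = pertQ P ^ P.1.length * rowB P r + pe P v0 r := by
  unfold pe
  by_cases hr : r < P.1.length
  · rw [if_pos hr]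
    conv_lhs => unfold rowB pert
    rw [List.getD_eq_getElem _ _ (by simpa using hr)]
    simp
  · rw [if_neg hr]
    unfold rowB pert
    rw [List.getD_eq_default _ _ (by simpa using hr), List.getD_eq_default _ _ (by simpa using hr)]
    simp

theorem pert_len (P : LPd) (v0 : List ℕ) : (pert P v0).1.length = P.1.length := by simp [pert]

theorem pert_c (P : LPd) (v0 : List ℕ) : (pert P v0).2 = P.2 := rfl

theorem pert_WF (hWF : WF P) (v0 : List ℕ) : WF (pert P v0) := by
  intro r hr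
  rw [pert_row]
  rw [pert_len] at hr
  exact hWF r hr

theorem pert_aR (P : LPd) (v0 : List ℕ) : aR (pert P v0) = aR P := by
  funext r i
  change (((rowA (pert P v0) r).getD i 0 : ℤ) : ℝ) = (((rowA P r).getD i 0 : ℤ) : ℝ)
  rw [pert_row]

theorem pert_bR (P : LPd) (v0 : List ℕ) (r : ℕ) :
    bR (pert P v0) r = (pertQ P : ℝ) ^ P.1.length * bR P r + (pe P v0 r : ℝ) := by
  unfold bR
  rw [pert_rhs]
  push_cast
  rfl

theorem pert_cR (P : LPd) (v0 : List ℕ) : cR (pert P v0) = cR P := rfl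

theorem pert_bv (P : LPd) (v0 v : List ℕ) : bv (pert P v0) v = bv P v := rfl

theorem pert_sel (P : LPd) (v0 v : List ℕ) : Sel (pert P v0) v ↔ Sel P v := by
  unfold Sel
  rw [pert_len, pert_c]

/-- slack as a sum -/
theorem sk_sum {n : ℕ} {a : ℕ → Fin n → ℝ} {B : ℕ → ℝ} {β : Fin n → ℕ} (h : dt a β ≠ 0) (r : ℕ) :
    sk a B β r = B r - ∑ i, lm a β i (a r) * B (β i) := by
  unfold sk
  rw [dot_eq h]
  congr 1
  refine Finset.sum_congr rfl fun i _ => ?_
  rw [dot_bpt h]

/-- the coefficient of the right-hand side `s` in `dt * sk` -/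
def cf (P : LPd) (v : List ℕ) (r s : ℕ) : ℤ :=
  (if s = r then ZD P (bv P v) else 0) -
    ∑ i : Fin P.2.length, if bv P v i = s then ZD P (update (bv P v) i r) else 0

theorem dt_sk {v : List ℕ} (h : dt (aR P) (bv P v) ≠ 0) (r : ℕ) {B : ℕ → ℤ} {S : Finset ℕ}
    (hr : r ∈ S) (hS : ∀ i, bv P v i ∈ S) :
    dt (aR P) (bv P v) * sk (aR P) (fun s => (B s : ℝ)) (bv P v) r =
      ((∑ s ∈ S, cf P v r s * B s : ℤ) : ℝ) := by
  rw [sk_sum h]
  have h1 : ∀ i, lm (aR P) (bv P v) i (aR P r) = (ZD P (update (bv P v) i r) : ℝ) /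
      dt (aR P) (bv P v) := by
    intro i
    have h2 := dt_update h i r
    rw [dt_ZD] at h2
    rw [h2]
    field_simp
  simp only [h1]
  have h3 : dt (aR P) (bv P v) * ((B r : ℝ) - ∑ i : Fin P.2.length,
      (ZD P (update (bv P v) i r) : ℝ) / dt (aR P) (bv P v) * (B (bv P v i) : ℝ)) =
      (ZD P (bv P v) : ℝ) * (B r : ℝ) - ∑ i : Fin P.2.length,
        (ZD P (update (bv P v) i r) : ℝ) * (B (bv P v i) : ℝ) := by
    rw [mul_sub, Finset.mul_sum, ← dt_ZD]
    congr 1
    refine Finset.sum_congr rfl fun i _ => ?_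
    field_simp
  rw [h3]
  have h4 : ∑ s ∈ S, cf P v r s * B s = ZD P (bv P v) * B r - ∑ i : Fin P.2.length,
      ZD P (update (bv P v) i r) * B (bv P v i) := by
    unfold cf
    simp only [sub_mul, Finset.sum_sub_distrib, ite_mul, zero_mul, Finset.sum_ite_eq', hr, if_true]
    congr 1
    simp only [Finset.sum_mul, ite_mul, zero_mul]
    rw [Finset.sum_comm]
    refine Finset.sum_congr rfl fun i _ => ?_
    rw [Finset.sum_ite_eq, if_pos (hS i)]
  rw [h4]
  push_cast
  rfl

theorem cf_lt (hWF : WF P) {v : List ℕ} (hv : Sel P v) {r : ℕ} (hrR : r < P.1.length)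
    (hrv : r ∉ v) (s : ℕ) : |cf P v r s| < pertQ P := by
  have hbvR : ∀ i, bv P v i < P.1.length := fun i => hv.2.2 _ (bv_mem hv i)
  have hinj : Injective (bv P v) := by
    intro i l h
    simp only [bv] at h
    rw [List.getD_eq_getElem _ _ (by rw [hv.1]; exact i.2),
      List.getD_eq_getElem _ _ (by rw [hv.1]; exact l.2)] at h
    exact Fin.ext ((hv.2.1.getElem_inj_iff).1 h)
  unfold cf
  by_cases hs : s = r
  · subst hs
    rw [if_pos rfl, Finset.sum_eq_zero, sub_zero]
    · exact ZD_lt hWF hbvR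
    · intro i _
      rw [if_neg]
      intro h
      exact hrv (h ▸ bv_mem hv i)
  · rw [if_neg hs, zero_sub, abs_neg]
    by_cases hex : ∃ i, bv P v i = s
    · obtain ⟨i, hi⟩ := hex
      rw [Finset.sum_eq_single i]
      · rw [if_pos hi]
        apply ZD_lt hWF
        intro l
        by_cases hl : l = i
        · subst hl
          rw [update_self]
          exact hrR
        · rw [update_of_ne hl]
          exact hbvR l
      · intro l _ hl
        rw [if_neg]
        intro h
        exact hl (hinj (h.trans hi.symm))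
      · intro h
        exact absurd (Finset.mem_univ i) h
    · push Not at hex
      rw [Finset.sum_eq_zero]
      · simpa using pertQ_pos P
      · intro i _
        rw [if_neg (hex i)]

/-- the digits -/
def dg (P : LPd) (v0 v : List ℕ) (r t : ℕ) : ℤ :=
  if P.1.length - 1 - t ∈ v0 then 0 else cf P v r (P.1.length - 1 - t)

theorem sum_pe (P : LPd) (v0 v : List ℕ) (r : ℕ) :
    ∑ s ∈ Finset.range P.1.length, cf P v r s * pe P v0 s =
      ∑ t ∈ Finset.range P.1.length, dg P v0 v r t * pertQ P ^ t := by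
  rw [← Finset.sum_range_reflect]
  refine Finset.sum_congr rfl fun t ht => ?_
  have ht' := Finset.mem_range.1 ht
  unfold dg pe
  rw [if_pos (by omega)]
  by_cases h : P.1.length - 1 - t ∈ v0
  · rw [if_pos h, if_pos h]
    ring
  · rw [if_neg h, if_neg h]
    congr 2
    omega

theorem dg_lt (hWF : WF P) {v0 v : List ℕ} (hv : Sel P v) {r : ℕ} (hrR : r < P.1.length)
    (hrv : r ∉ v) (t : ℕ) : |dg P v0 v r t| < pertQ P := by
  unfold dg
  split_ifs
  · simpa using pertQ_pos P
  · exact cf_lt hWF hv hrR hrv _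

/-- `dt * sk` for the perturbed linear program -/
theorem dt_sk_pert {v0 v : List ℕ} (hv : Sel P v) (h : dt (aR P) (bv P v) ≠ 0)
    {r : ℕ} (hrR : r < P.1.length) :
    dt (aR P) (bv P v) * sk (aR P) (bR (pert P v0)) (bv P v) r =
      (((∑ s ∈ Finset.range P.1.length, cf P v r s * rowB P s) * pertQ P ^ P.1.length +
        ∑ t ∈ Finset.range P.1.length, dg P v0 v r t * pertQ P ^ t : ℤ) : ℝ) := by
  have hbvR : ∀ i, bv P v i ∈ Finset.range P.1.length :=
    fun i => Finset.mem_range.2 (hv.2.2 _ (bv_mem hv i))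
  have h1 := dt_sk (P := P) h r (B := rowB (pert P v0)) (Finset.mem_range.2 hrR) hbvR
  change dt (aR P) (bv P v) * sk (aR P) (fun s => ((rowB (pert P v0) s : ℤ) : ℝ)) (bv P v) r = _
  rw [h1]
  congr 1
  rw [← sum_pe, Finset.sum_mul, ← Finset.sum_add_distrib]
  refine Finset.sum_congr rfl fun s _ => ?_
  rw [pert_rhs]
  ring

theorem pert_ND (hWF : WF P) {v0 : List ℕ} (hv0 : Sel P v0) (hd0 : dt (aR P) (bv P v0) ≠ 0) :
    ND (pert P v0) := by
  intro v hv hd r hr hrv
  rw [pert_sel] at hv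
  rw [pert_len] at hr
  rw [pert_aR] at hd ⊢
  change sk (aR P) (bR (pert P v0)) (bv P v) r ≠ 0
  change dt (aR P) (bv P v) ≠ 0 at hd
  intro h0
  have h1 := dt_sk_pert (v0 := v0) hv hd hr
  rw [h0, mul_zero] at h1
  have h2 := (Int.cast_eq_zero.1 h1.symm)
  have h3 := baseQ (pertQ_pos P) _ _ _ (dg_lt hWF (v0 := v0) hv hr hrv) h2
  have h4 : ∀ s < P.1.length, s ∉ v0 → cf P v r s = 0 := by
    intro s hs hsv
    have h5 := h3 (P.1.length - 1 - s) (by omega)
    unfold dg at h5
    rw [show P.1.length - 1 - (P.1.length - 1 - s) = s by omega, if_neg hsv] at h5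
    exact h5
  have hinj : Injective (bv P v) := injective_of_dt hd
  -- `r` belongs to the initial basis
  have hrv0 : r ∈ v0 := by
    by_contra hcon
    have h5 := h4 r hr hcon
    unfold cf at h5
    rw [if_pos rfl, Finset.sum_eq_zero, sub_zero] at h5
    · apply hd
      rw [dt_ZD, h5]
      simp
    · intro i _
      rw [if_neg]
      intro h
      exact hrv (h ▸ bv_mem hv i)
  have h6 : ∀ i, bv P v i ∉ v0 → lm (aR P) (bv P v) i (aR P r) = 0 := by
    intro i hi
    have h5 := h4 (bv P v i) (hv.2.2 _ (bv_mem hv i)) hi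
    unfold cf at h5
    have hne : bv P v i ≠ r := fun h => hrv (h ▸ bv_mem hv i)
    rw [if_neg hne, Finset.sum_eq_single i, if_pos rfl, zero_sub, neg_eq_zero] at h5
    · have h7 := dt_update hd i r
      rw [dt_ZD, h5] at h7
      have h8 : lm (aR P) (bv P v) i (aR P r) * dt (aR P) (bv P v) = 0 := by
        rw [← h7]
        simp
      exact (mul_eq_zero.1 h8).resolve_right hd
    · intro l _ hl
      rw [if_neg]
      intro h
      exact hl (hinj h)
    · intro h
      exact absurd (Finset.mem_univ i) h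
  obtain ⟨i0, hi0⟩ := exists_bv hv0 hrv0
  have h7 := dot_dir_self hd0 i0 i0
  rw [hi0, if_pos rfl, dot_eq hd] at h7
  have h8 : ∑ i, lm (aR P) (bv P v) i (aR P r) *
      (aR P (bv P v i) ⬝ᵥ dir (aR P) (bv P v0) i0) = 0 := by
    refine Finset.sum_eq_zero fun i _ => ?_
    by_cases hi : bv P v i ∈ v0
    · obtain ⟨l, hl⟩ := exists_bv hv0 hi
      rw [← hl, dot_dir_self hd0, if_neg, mul_zero]
      rintro rfl
      rw [hi0] at hl
      exact hrv (hl ▸ bv_mem hv i)
    · rw [h6 i hi, zero_mul]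
  rw [h8] at h7
  norm_num at h7

/-- the initial basis is feasible -/
theorem pert_Ok0 (hWF : WF P) {v0 : List ℕ} (hv0 : Sel P v0) (hd0 : dt (aR P) (bv P v0) ≠ 0)
    (hsk : ∀ r < P.1.length, 0 ≤ sk (aR P) (bR P) (bv P v0) r) : Ok (pert P v0) v0 := by
  have hs : Sel (pert P v0) v0 := (pert_sel P v0 v0).2 hv0
  refine ⟨hs, ?_⟩
  rw [feas_iff (pert_WF hWF v0) hs, pert_aR]
  refine ⟨hd0, fun r hr => ?_⟩
  rw [pert_len] at hr
  change 0 ≤ sk (aR P) (bR (pert P v0)) (bv P v0) r
  have h1 : sk (aR P) (bR (pert P v0)) (bv P v0) r =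
      (pertQ P : ℝ) ^ P.1.length * sk (aR P) (bR P) (bv P v0) r + (pe P v0 r : ℝ) := by
    rw [sk_sum hd0, sk_sum hd0]
    simp only [pert_bR]
    have h2 : ∀ i, pe P v0 (bv P v0 i) = 0 := by
      intro i
      unfold pe
      rw [if_pos (hv0.2.2 _ (bv_mem hv0 i)), if_pos (bv_mem hv0 i)]
    simp only [h2, Int.cast_zero, add_zero]
    rw [mul_sub, Finset.mul_sum]
    have h3 : ∑ i : Fin P.2.length, lm (aR P) (bv P v0) i (aR P r) *
        ((pertQ P : ℝ) ^ P.1.length * bR P (bv P v0 i)) =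
        ∑ i : Fin P.2.length, (pertQ P : ℝ) ^ P.1.length *
        (lm (aR P) (bv P v0) i (aR P r) * bR P (bv P v0 i)) :=
      Finset.sum_congr rfl fun i _ => by ring
    rw [h3]
    ring
  rw [h1]
  have hQ : (0 : ℝ) ≤ (pertQ P : ℝ) := by exact_mod_cast (pertQ_pos P).le
  have hpe : (0 : ℝ) ≤ (pe P v0 r : ℝ) := by
    have : 0 ≤ pe P v0 r := by
      unfold pe
      split_ifs
      · exact le_rfl
      · exact pow_nonneg (pertQ_pos P).le _
    exact_mod_cast this
  exact add_nonneg (mul_nonneg (pow_nonneg hQ _) (hsk r hr)) hpe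

/-- Feasible bases of the perturbed linear program are feasible. -/
theorem ok_of_pert (hWF : WF P) {v0 v : List ℕ} (hv : Ok (pert P v0) v) :
    Sel P v ∧ dt (aR P) (bv P v) ≠ 0 ∧ ∀ r < P.1.length, 0 ≤ sk (aR P) (bR P) (bv P v) r := by
  have h1 := (feas_iff (pert_WF hWF v0) hv.1).1 hv.2
  rw [pert_aR] at h1
  have hs := (pert_sel P v0 v).1 hv.1
  obtain ⟨hd, hsk⟩ := h1
  change dt (aR P) (bv P v) ≠ 0 at hd
  change ∀ r < (pert P v0).1.length, 0 ≤ sk (aR P) (bR (pert P v0)) (bv P v) r at hsk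
  rw [pert_len] at hsk
  refine ⟨hs, hd, fun r hr => ?_⟩
  by_cases hrv : r ∈ v
  · obtain ⟨i, hi⟩ := exists_bv hs hrv
    rw [← hi, sk_self hd]
  by_contra hneg
  rw [not_le] at hneg
  have h2 := dt_sk_pert (v0 := v0) hs hd hr
  have hbvR : ∀ i, bv P v i ∈ Finset.range P.1.length :=
    fun i => Finset.mem_range.2 (hs.2.2 _ (bv_mem hs i))
  have h3 := dt_sk (P := P) hd r (B := rowB P) (Finset.mem_range.2 hr) hbvR
  change dt (aR P) (bv P v) * sk (aR P) (bR P) (bv P v) r = _ at h3
  set Z := ∑ s ∈ Finset.range P.1.length, cf P v r s * rowB P s with hZ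
  set E := ∑ t ∈ Finset.range P.1.length, dg P v0 v r t * pertQ P ^ t with hE
  have hElt := baseQ_lt (Q := pertQ P) (pertQ_pos P) P.1.length _
    (dg_lt hWF (v0 := v0) hs hr hrv)
  rw [← hE] at hElt
  have hQR : 0 < pertQ P ^ P.1.length := pow_pos (pertQ_pos P) _
  have h4 := hsk r hr
  rcases lt_or_gt_of_ne hd with hneg2 | hpos
  · -- negative determinant
    have h5 : 0 < dt (aR P) (bv P v) * sk (aR P) (bR P) (bv P v) r := mul_pos_of_neg_of_neg hneg2 hneg
    rw [h3] at h5
    have h6 : 0 < Z := by exact_mod_cast h5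
    have h7 : dt (aR P) (bv P v) * sk (aR P) (bR (pert P v0)) (bv P v) r ≤ 0 :=
      mul_nonpos_of_nonpos_of_nonneg hneg2.le h4
    rw [h2] at h7
    have h8 : Z * pertQ P ^ P.1.length + E ≤ 0 := by exact_mod_cast h7
    have h9 := (abs_le.1 hElt).1
    nlinarith
  · have h5 : dt (aR P) (bv P v) * sk (aR P) (bR P) (bv P v) r < 0 := mul_neg_of_pos_of_neg hpos hneg
    rw [h3] at h5
    have h6 : Z < 0 := by exact_mod_cast h5
    have h7 : 0 ≤ dt (aR P) (bv P v) * sk (aR P) (bR (pert P v0)) (bv P v) r :=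
      mul_nonneg hpos.le h4
    rw [h2] at h7
    have h8 : 0 ≤ Z * pertQ P ^ P.1.length + E := by exact_mod_cast h7
    have h9 := (abs_le.1 hElt).2
    nlinarith

end Pool.Agent.H390R3
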