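import Pool.Agent.H24R2.U.PolyB
import Pool.Agent.H390R3.Fin

set_option autoImplicit false

/-!
# Polynomial time of the oracles and of one step of the machine
-/

namespace Pool.Agent.H390R3

open Pool.Agent.H24U Pool.Agent.H24R2 Pool.Agent.H670R2 Function
open Pool.Agent.NPC hiding Poly

attribute [fun_prop] NPC.Poly.natAbs NPC.Poly.iadd NPC.Poly.isub NPC.Poly.imul NPC.Poly.ineg
  NPC.Poly.ilt NPC.Poly.ile NPC.Poly.isum NPC.Poly.zipWith NPC.H670R2.poly_dotL
  NPC.H670R2.poly_gramL poly_solveG poly_posMask polyB_vsmul NPC.Poly.natBits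
  NPC.H670R2.poly_num NPC.H670R2.poly_den NPC.H670R2.poly_gdet NPC.H670R2.poly_gcd

attribute [local irreducible] solveG basic mults posMask gtQ feas impr enter

section
variable {α : Type} [TEnc α]

@[fun_prop]
theorem poly_rangeLen {β : Type} [TEnc β] {l : α → List β} (hl : NPC.Poly l) :
    NPC.Poly (fun a => List.range (l a).length) := NPC.Poly.range_length hl

@[fun_prop]
theorem poly_rowA {P : α → LPd} {r : α → ℕ} (hP : NPC.Poly P) (hr : NPC.Poly r) :
    NPC.Poly (fun a => rowA (P a) (r a)) := by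
  unfold rowA
  fun_prop

@[fun_prop]
theorem poly_rowB {P : α → LPd} {r : α → ℕ} (hP : NPC.Poly P) (hr : NPC.Poly r) :
    NPC.Poly (fun a => rowB (P a) (r a)) := by
  unfold rowB
  fun_prop

@[fun_prop]
theorem poly_zeros {β : Type} [TEnc β] {l : α → List β} (hl : NPC.Poly l) :
    NPC.Poly (fun a => zeros (l a).length) := poly_replicate_len hl (NPC.Poly.const 0)

@[fun_prop]
theorem poly_gtCols {P : α → LPd} {F G : α → List ℕ} {k j : α → ℕ} (hP : NPC.Poly P)
    (hF : NPC.Poly F) (hG : NPC.Poly G) (hk : NPC.Poly k) (hj : NPC.Poly j) :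
    NPC.Poly (fun a => gtCols (P a) (F a) (G a) (k a) (j a)) := by
  unfold gtCols
  simp only
  fun_prop

@[fun_prop]
theorem poly_gtQ {P : α → LPd} {F G : α → List ℕ} {k j : α → ℕ} (hP : NPC.Poly P)
    (hF : NPC.Poly F) (hG : NPC.Poly G) (hk : NPC.Poly k) (hj : NPC.Poly j) :
    NPC.Poly (fun a => gtQ (P a) (F a) (G a) (k a) (j a)) := by
  unfold gtQ
  fun_prop

@[fun_prop]
theorem poly_bas {P : α → LPd} {v : α → List ℕ} (hP : NPC.Poly P) (hv : NPC.Poly v) :
    NPC.Poly (fun a => bas (P a) (v a)) := by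
  unfold bas
  fun_prop

@[fun_prop]
theorem poly_tmul {β : Type} [TEnc β] {l : α → List β} {L : α → List (List ℤ)} {y : α → List ℤ}
    (hl : NPC.Poly l) (hL : NPC.Poly L) (hy : NPC.Poly y) :
    NPC.Poly (fun a => tmul (l a).length (L a) (y a)) := by
  unfold tmul
  fun_prop

@[fun_prop]
theorem poly_basic {P : α → LPd} {v : α → List ℕ} (hP : NPC.Poly P) (hv : NPC.Poly v) :
    NPC.Poly (fun a => basic (P a) (v a)) := by
  unfold basic
  fun_prop

@[fun_prop]
theorem poly_mults {P : α → LPd} {v : α → List ℕ} (hP : NPC.Poly P) (hv : NPC.Poly v) :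
    NPC.Poly (fun a => mults (P a) (v a)) := by
  unfold mults
  fun_prop

@[fun_prop]
theorem poly_feas {P : α → LPd} {v : α → List ℕ} (hP : NPC.Poly P) (hv : NPC.Poly v) :
    NPC.Poly (fun a => feas (P a) (v a)) := by
  unfold feas
  fun_prop

@[fun_prop]
theorem poly_impr {P : α → LPd} {v : α → List ℕ} {j : α → ℕ} (hP : NPC.Poly P)
    (hv : NPC.Poly v) (hj : NPC.Poly j) :
    NPC.Poly (fun a => impr (P a) (v a) (j a)) := by
  unfold impr
  fun_prop

@[fun_prop]
theorem poly_repl {v : α → List ℕ} {j r : α → ℕ} (hv : NPC.Poly v) (hj : NPC.Poly j)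
    (hr : NPC.Poly r) : NPC.Poly (fun a => repl (v a) (j a) (r a)) := by
  unfold repl
  fun_prop

@[fun_prop]
theorem poly_enter {P : α → LPd} {v : α → List ℕ} {j : α → ℕ} (hP : NPC.Poly P)
    (hv : NPC.Poly v) (hj : NPC.Poly j) :
    NPC.Poly (fun a => enter (P a) (v a) (j a)) := by
  unfold enter
  fun_prop

@[fun_prop]
theorem poly_headD {β : Type} [TEnc β] {l : α → List β} (hl : NPC.Poly l) (d : β) :
    NPC.Poly (fun a => (l a).headD d) :=
  (NPC.Poly.head?_getD hl d).congr fun a => by cases l a <;> rfl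

/-- the erasure of an element of a list -/
theorem foldl_erase (x : ℕ) (l : List ℕ) (acc : List ℕ) :
    ∀ b : Bool, (l.foldl (fun (s : Bool × List ℕ) y =>
      if s.1 = false ∧ y = x then (true, s.2) else (s.1, s.2 ++ [y])) (b, acc)).2 =
      acc ++ (if b = true then l else l.erase x) := by
  induction l generalizing acc with
  | nil => intro b; cases b <;> simp
  | cons y l ih =>
    intro b
    rw [List.foldl_cons]
    by_cases h : b = false ∧ y = x
    · obtain ⟨rfl, rfl⟩ := h
      simp only [and_self, if_true]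
      rw [ih]
      simp
    · rw [if_neg h, ih]
      cases b with
      | true => simp
      | false =>
        have hy : y ≠ x := fun h' => h ⟨rfl, h'⟩
        simp [hy]

theorem sz_sublist {β : Type} [TEnc β] {l1 l2 : List β} (h : l1.Sublist l2) : sz l1 ≤ sz l2 := by
  induction h with
  | slnil => exact le_rfl
  | cons a h ih => simp; omega
  | cons_cons a h ih => simp; omega

@[fun_prop]
theorem poly_erase {l : α → List ℕ} {x : α → ℕ} (hl : NPC.Poly l) (hx : NPC.Poly x) :
    NPC.Poly (fun a => (l a).erase (x a)) := by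
  obtain ⟨q, hq⟩ := hl.sz_le
  have h1 : NPC.Poly (fun a => (l a).foldl (fun (s : Bool × List ℕ) y =>
      if s.1 = false ∧ y = x a then (true, s.2) else (s.1, s.2 ++ [y])) (false, [])) := by
    refine NPC.Poly.foldl (F := fun a (s : Bool × List ℕ) y =>
      if s.1 = false ∧ y = x a then (true, s.2) else (s.1, s.2 ++ [y])) (s := fun _ => (false, []))
      hl (NPC.Poly.const _) (by fun_prop) (q + Polynomial.C 4) ?_
    intro a k _
    have h2 := foldl_erase (x a) ((l a).take k) [] false
    set s := ((l a).take k).foldl (fun (s : Bool × List ℕ) y =>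
      if s.1 = false ∧ y = x a then (true, s.2) else (s.1, s.2 ++ [y])) (false, []) with hs
    have h3 : sz s = sz s.1 + sz s.2 + 1 := sz_pair _ _
    have h4 := sz_bool_le s.1
    have h5 : sz s.2 ≤ sz (l a) := by
      rw [h2]
      simp only [Bool.false_eq_true, if_false, List.nil_append]
      exact (sz_sublist List.erase_sublist).trans (sz_sublist (List.take_sublist _ _))
    have h6 := hq a
    simp only [Polynomial.eval_add, Polynomial.eval_C]
    omega
  refine (NPC.Poly.snd h1).congr fun a => ?_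
  rw [foldl_erase]
  simp

/-! ### the machine -/

@[fun_prop]
theorem poly_cnt {P : α → LPd} {F G : α → List ℕ} {j : α → ℕ} (hP : NPC.Poly P)
    (hF : NPC.Poly F) (hG : NPC.Poly G) (hj : NPC.Poly j) :
    NPC.Poly (fun a => cnt (orc (P a)) (F a) (G a) (j a)) := by
  unfold cnt
  simp only [orc_gt]
  fun_prop

attribute [local irreducible] cnt

@[fun_prop]
theorem poly_callStep {P : α → LPd} {v F G : α → List ℕ} {rest : α → List Frame}
    (hP : NPC.Poly P) (hv : NPC.Poly v) (hF : NPC.Poly F) (hG : NPC.Poly G)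
    (hr : NPC.Poly rest) :
    NPC.Poly (fun a => callStep (orc (P a)) (v a) (F a) (G a) (rest a)) := by
  unfold callStep
  simp only [orc_im]
  fun_prop

@[fun_prop]
theorem poly_retStep {P : α → LPd} {v F G : α → List ℕ} {st : α → ℕ × ℕ} {rest : α → List Frame}
    (hP : NPC.Poly P) (hv : NPC.Poly v) (hF : NPC.Poly F) (hG : NPC.Poly G) (hst : NPC.Poly st)
    (hr : NPC.Poly rest) :
    NPC.Poly (fun a => retStep (orc (P a)) (v a) (F a) (G a) (st a) (rest a)) := by
  unfold retStep
  simp only [orc_im, orc_en]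
  fun_prop

@[fun_prop]
theorem poly_enterStep {P : α → LPd} {v F G : α → List ℕ} {st : α → ℕ × ℕ}
    {rest : α → List Frame} {r : α → ℕ}
    (hP : NPC.Poly P) (hv : NPC.Poly v) (hF : NPC.Poly F) (hG : NPC.Poly G) (hst : NPC.Poly st)
    (hr : NPC.Poly rest) (hr' : NPC.Poly r) :
    NPC.Poly (fun a => enterStep (orc (P a)) (v a) (F a) (G a) (st a) (rest a) (r a)) := by
  unfold enterStep
  simp only [orc_gt]
  fun_prop

attribute [local irreducible] callStep retStep enterStep

@[fun_prop]
theorem poly_step {P : α → LPd} {c : α → Cfg} (hP : NPC.Poly P) (hc : NPC.Poly c) :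
    NPC.Poly (fun a => step (orc (P a)) (c a)) := by
  unfold step
  fun_prop

end

end Pool.Agent.H390R3
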