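import Pool.Agent.H390R3.PolyC

set_option autoImplicit false

/-!
# Polynomial time of the preprocessing
-/

namespace Pool.Agent.H390R3

open Pool.Agent.H24U Pool.Agent.H24R2 Pool.Agent.H670R2 Function
open Pool.Agent.NPC hiding Poly

attribute [local irreducible] solveG basic mults posMask gtQ feas impr enter

section
variable {α : Type} [TEnc α]

/-! ### perturbation -/

@[fun_prop]
theorem poly_bigS {P : α → LPd} (hP : NPC.Poly P) : NPC.Poly (fun a => bigS (P a)) := by
  unfold bigS
  fun_prop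

theorem upoly_qexp {P : α → LPd} (hP : NPC.Poly P) : UPoly (fun a => qexp (P a)) := by
  unfold qexp
  exact ((((UPoly.length (NPC.Poly.snd hP)).add (UPoly.const 1)).mul
    (UPoly.length (NPC.Poly.natBits (poly_bigS hP)))).add (UPoly.const 2))

@[fun_prop]
theorem poly_pertQ {P : α → LPd} (hP : NPC.Poly P) : NPC.Poly (fun a => pertQ (P a)) := by
  unfold pertQ
  exact NPC.Poly.ipow (NPC.Poly.const 2) (upoly_qexp hP)

@[fun_prop]
theorem poly_pert {P : α → LPd} {v : α → List ℕ} (hP : NPC.Poly P) (hv : NPC.Poly v) :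
    NPC.Poly (fun a => pert (P a) (v a)) := by
  have h1 : NPC.Poly (fun a => pertQ (P a) ^ (P a).1.length) :=
    NPC.Poly.ipow (poly_pertQ hP) (UPoly.length (NPC.Poly.fst hP))
  have h2 : NPC.Poly (fun p : α × ℕ => pertQ (P p.1) ^ ((P p.1).1.length - 1 - p.2)) := by
    refine NPC.Poly.ipow (by fun_prop) ?_
    refine UPoly.of_le (n := fun p : α × ℕ => (P p.1).1.length) (by fun_prop)
      (UPoly.length (by fun_prop)) ?_
    intro a
    omega
  unfold pert
  refine NPC.Poly.pair (NPC.Poly.map (F := fun a r => (rowA (P a) r,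
    pertQ (P a) ^ (P a).1.length * rowB (P a) r +
    (if r ∈ v a then 0 else pertQ (P a) ^ ((P a).1.length - 1 - r)))) (by fun_prop) ?_)
    (by fun_prop)
  refine NPC.Poly.pair (by fun_prop) ?_
  refine NPC.Poly.iadd (NPC.Poly.imul (h1.comp (NPC.Poly.fst NPC.Poly.id)) (by fun_prop)) ?_
  exact NPC.Poly.ite (p := fun p : α × ℕ => p.2 ∈ v p.1) (by fun_prop) (NPC.Poly.const 0) h2

/-! ### rational numbers -/

theorem prod_lt (l : List ℕ) : l.foldr (fun a b => a * b) 1 < 2 ^ sz l := by
  induction l with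
  | nil => simp
  | cons a l ih =>
    rw [List.foldr_cons, sz_list_cons]
    have h1 : a < 2 ^ sz a := by
      have h2 := Nat.lt_size_self a
      have h3 := size_le_sz a
      exact h2.trans_le (Nat.pow_le_pow_right (by norm_num) (by omega))
    calc a * l.foldr (fun a b => a * b) 1 < 2 ^ sz a * 2 ^ sz l :=
          Nat.mul_lt_mul_of_lt_of_lt h1 ih
      _ ≤ 2 ^ (sz a + sz l + 1) := by
          rw [← pow_add]
          exact Nat.pow_le_pow_right (by norm_num) (by omega)

theorem sz_prod (l : List ℕ) : sz (l.foldr (fun a b => a * b) 1) ≤ 4 * sz l + 1 := by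
  have h1 := sz_nat_le (l.foldr (fun a b => a * b) 1)
  have h2 : (l.foldr (fun a b => a * b) 1).size ≤ sz l := Nat.size_le.2 (prod_lt l)
  omega

@[fun_prop]
theorem poly_prod {l : α → List ℕ} (hl : NPC.Poly l) :
    NPC.Poly (fun a => (l a).foldr (fun a b => a * b) 1) := by
  obtain ⟨q, hq⟩ := hl.sz_le
  refine NPC.Poly.foldr (s := fun _ => 1) (F := fun _ (a b : ℕ) => a * b) hl (NPC.Poly.const 1)
    (by fun_prop) (Polynomial.C 4 * q + Polynomial.C 1) ?_
  intro a k _
  have h1 := sz_prod ((l a).drop k)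
  have h2 := NPC.Poly.sz_drop_le (l a) k
  have h3 := hq a
  simp only [Polynomial.eval_add, Polynomial.eval_mul, Polynomial.eval_C]
  omega

@[fun_prop]
theorem poly_lden {l : α → List ℚ} (hl : NPC.Poly l) : NPC.Poly (fun a => lden (l a)) := by
  unfold lden
  fun_prop

attribute [local irreducible] lden

@[fun_prop]
theorem poly_intVec {D : α → ℕ} {l : α → List ℚ} (hD : NPC.Poly D) (hl : NPC.Poly l) :
    NPC.Poly (fun a => intVec (D a) (l a)) := by
  unfold intVec
  fun_prop

attribute [local irreducible] intVec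

@[fun_prop]
theorem poly_toP {I : α → Inst} (hI : NPC.Poly I) : NPC.Poly (fun a => toP (I a)) := by
  unfold toP
  fun_prop

/-- the sign of an integer, as an integer -/
theorem rat_div_num {x d : ℤ} (hd : d ≠ 0) :
    ((x : ℚ) / (d : ℚ)).num = (if d < 0 then -x else x) / ((Nat.gcd x.natAbs d.natAbs : ℕ) : ℤ) ∧
    ((x : ℚ) / (d : ℚ)).den = d.natAbs / Nat.gcd x.natAbs d.natAbs := by
  set g := Nat.gcd x.natAbs d.natAbs with hg
  have hdp : 0 < d.natAbs := Int.natAbs_pos.2 hd
  have hgp : 0 < g := Nat.gcd_pos_of_pos_right _ hdp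
  set x' : ℤ := if d < 0 then -x else x with hx'
  have hgx : (g : ℤ) ∣ x' := by
    have h1 : (g : ℤ) ∣ x := Int.natCast_dvd.2 (Nat.gcd_dvd_left _ _)
    rw [hx']
    split_ifs
    · exact h1.neg_right
    · exact h1
  have hgd : g ∣ d.natAbs := Nat.gcd_dvd_right _ _
  obtain ⟨n', hn'⟩ := hgx
  obtain ⟨d', hd'⟩ := hgd
  have hxa : x'.natAbs = x.natAbs := by
    rw [hx']
    split_ifs
    · exact Int.natAbs_neg x
    · rfl
  have hn2 : x.natAbs = g * n'.natAbs := by
    rw [← hxa, hn', Int.natAbs_mul, Int.natAbs_natCast]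
  have hcop : Nat.Coprime n'.natAbs d' := by
    have h1 : Nat.gcd (g * n'.natAbs) (g * d') = g := by rw [← hn2, ← hd']
    rw [Nat.gcd_mul_left] at h1
    exact Nat.eq_of_mul_eq_mul_left hgp (by rw [h1, mul_one])
  have hd'p : 0 < d' := by
    rcases Nat.eq_zero_or_pos d' with h | h
    · rw [h, mul_zero] at hd'
      omega
    · exact h
  have e1 : x' / (g : ℤ) = n' := by
    rw [hn']
    exact Int.mul_ediv_cancel_left _ (by exact_mod_cast hgp.ne')
  have e2 : d.natAbs / g = d' := by
    rw [hd']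
    exact Nat.mul_div_cancel_left _ hgp
  have e3 : (x : ℚ) / (d : ℚ) = (n' : ℚ) / ((d' : ℤ) : ℚ) := by
    have h1 : (x : ℚ) / (d : ℚ) = (x' : ℚ) / ((d.natAbs : ℤ) : ℚ) := by
      rw [hx']
      split_ifs with h
      · have h2 : ((d.natAbs : ℕ) : ℤ) = -d := Int.ofNat_natAbs_of_nonpos h.le
        rw [h2]
        push_cast
        rw [neg_div_neg_eq]
      · have h2 : ((d.natAbs : ℕ) : ℤ) = d := Int.natAbs_of_nonneg (not_lt.1 h)
        rw [h2]
    rw [h1, hn', hd']
    push_cast
    have hg0 : (g : ℚ) ≠ 0 := by exact_mod_cast hgp.ne'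
    rw [mul_div_mul_left _ _ hg0]
  rw [e1, e2, e3]
  refine ⟨Rat.num_div_eq_of_coprime (by exact_mod_cast hd'p) (by simpa using hcop), ?_⟩
  have := Rat.den_div_eq_of_coprime (a := n') (b := (d' : ℤ)) (by exact_mod_cast hd'p)
    (by simpa using hcop)
  exact_mod_cast this

@[fun_prop]
theorem poly_ratDiv {x d : α → ℤ} (hx : NPC.Poly x) (hd : NPC.Poly d) :
    NPC.Poly (fun a => ((x a : ℚ) / (d a : ℚ))) := by
  have h1 : NPC.Poly (fun a => (if d a < 0 then -(x a) else x a) /
      ((Nat.gcd (x a).natAbs (d a).natAbs : ℕ) : ℤ)) := by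
    refine NPC.Poly.idiv ?_ (by fun_prop)
    exact NPC.Poly.ite (p := fun a => d a < 0) (NPC.Poly.ilt hd (NPC.Poly.const 0))
      (NPC.Poly.ineg hx) hx
  have h2 : NPC.Poly (fun a => (d a).natAbs / Nat.gcd (x a).natAbs (d a).natAbs) := by fun_prop
  have h3 : NPC.Poly (fun a => if d a = 0 then (((0 : ℤ), (1 : ℕ)) : ℤ × ℕ) else
      ((if d a < 0 then -(x a) else x a) / ((Nat.gcd (x a).natAbs (d a).natAbs : ℕ) : ℤ),
        (d a).natAbs / Nat.gcd (x a).natAbs (d a).natAbs)) :=
    NPC.Poly.ite (p := fun a => d a = 0) (NPC.Poly.decide_eq hd (NPC.Poly.const 0))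
      (NPC.Poly.const _) (NPC.Poly.pair h1 h2)
  refine NPC.Poly.of_toT (h3.toT'.congr fun a => ?_)
  change _ = toT (((x a : ℚ) / (d a : ℚ)).num, ((x a : ℚ) / (d a : ℚ)).den)
  by_cases h : d a = 0
  · rw [if_pos h, h]
    simp
  · rw [if_neg h]
    obtain ⟨e1, e2⟩ := rat_div_num (x := x a) h
    rw [e1, e2]

@[fun_prop]
theorem poly_ratPt {P : α → LPd} {v : α → List ℕ} (hP : NPC.Poly P) (hv : NPC.Poly v) :
    NPC.Poly (fun a => ratPt (P a) (v a)) := by
  simp only [ratPt_eq]
  fun_prop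

attribute [local irreducible] ratPt step gdet

@[fun_prop]
theorem poly_tstep {P P' : α → LPd} {s : α → Cfg × (List ℚ × List (List ℚ))}
    (hP : NPC.Poly P) (hP' : NPC.Poly P') (hs : NPC.Poly s) :
    NPC.Poly (fun a => tstep (P a) (orc (P' a)) (s a)) := by
  unfold tstep
  fun_prop

/-! ### the initial basis -/

theorem foldl_sublist (c : List ℕ → ℕ → Prop) [∀ a r, Decidable (c a r)] (l acc : List ℕ) :
    (l.foldl (fun acc r => if c acc r then acc ++ [r] else acc) acc).Sublist (acc ++ l) := by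
  induction l generalizing acc with
  | nil => simp
  | cons r l ih =>
    rw [List.foldl_cons]
    split_ifs
    · have := ih (acc ++ [r])
      simpa using this
    · refine (ih acc).trans ?_
      exact (List.Sublist.refl acc).append (List.sublist_cons_self r l)

@[fun_prop]
theorem poly_basis0 {P : α → LPd} {x : α → List ℚ} (hP : NPC.Poly P) (hx : NPC.Poly x) :
    NPC.Poly (fun a => basis0 (P a) (x a)) := by
  have hr : NPC.Poly (fun a => List.range (P a).1.length) := by fun_prop
  obtain ⟨q, hq⟩ := hr.sz_le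
  unfold basis0
  refine NPC.Poly.foldl (s := fun _ => []) (F := fun a acc r =>
    if dotL (rowA (P a) r) (intVec (lden (x a)) (x a)) = (lden (x a) : ℤ) * rowB (P a) r ∧
        gdet (bas (P a) (acc ++ [r])) ≠ 0 then acc ++ [r] else acc) hr (NPC.Poly.const _)
    (by fun_prop) q ?_
  intro a k _
  refine le_trans (sz_sublist (foldl_sublist (fun acc r =>
    dotL (rowA (P a) r) (intVec (lden (x a)) (x a)) = (lden (x a) : ℤ) * rowB (P a) r ∧
        gdet (bas (P a) (acc ++ [r])) ≠ 0) _ [])) ?_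
  rw [List.nil_append]
  exact (sz_sublist (List.take_sublist _ _)).trans (hq a)

end

end Pool.Agent.H390R3
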