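import Pool.Agent.H390R3.PolyD

set_option autoImplicit false

/-!
# Polynomial time of `T` steps of the machine, `T` in unary
-/

namespace Pool.Agent.H390R3

open Pool.Agent.H24U Pool.Agent.H24R2 Pool.Agent.H670R2 Function
open Pool.Agent.NPC hiding Poly

attribute [local irreducible] solveG basic mults posMask gtQ feas impr enter

/-- bounded frames -/
def FrOK (R : ℕ) (t : Frame) : Prop :=
  t.1.1.length + t.1.2.length ≤ R ∧ (∀ x ∈ t.1.1, x < R) ∧ (∀ x ∈ t.1.2, x < R) ∧
    t.2.1 ≤ 2 ∧ t.2.2 ≤ R

/-- bounded configurations -/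
structure CInv (R t : ℕ) (c : Cfg) : Prop where
  v : c.1.length ≤ R
  vR : ∀ x ∈ c.1, x < R
  stk : c.2.1.length ≤ t + 1
  fr : ∀ f ∈ c.2.1, FrOK R f
  md : c.2.2.1 ≤ 3
  md2 : c.2.2.2 ≤ R + 2

theorem fr_erase {R : ℕ} {F G : List ℕ} {st : ℕ × ℕ} (h : FrOK R ((F, G), st)) {j : ℕ}
    (hj : j ∈ G) : FrOK R ((j :: F, G.erase j), (0, 0)) := by
  obtain ⟨h1, h2, h3, h4, h5⟩ := h
  have hpos : 0 < G.length := List.length_pos_of_mem hj
  refine ⟨?_, ?_, ?_, ?_, ?_⟩
  · simp only [List.length_cons, List.length_erase_of_mem hj] at h1 ⊢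
    omega
  · intro x hx
    rcases List.mem_cons.1 hx with rfl | hx
    · exact h3 _ hj
    · exact h2 x hx
  · intro x hx
    exact h3 x (List.mem_of_mem_erase hx)
  · simp
  · simp

theorem fr_filter {R : ℕ} {F G : List ℕ} {st : ℕ × ℕ} (h : FrOK R ((F, G), st)) (p : ℕ → Bool) :
    FrOK R ((F, G.filter p), (0, 0)) := by
  obtain ⟨h1, h2, h3, h4, h5⟩ := h
  have hl := List.length_filter_le p G
  refine ⟨?_, h2, ?_, ?_, ?_⟩
  · simp only at h1 ⊢
    omega
  · intro x hx
    exact h3 x (List.mem_filter.1 hx).1
  · simp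
  · simp

theorem fr_stage {R : ℕ} {F G : List ℕ} {st : ℕ × ℕ} (h : FrOK R ((F, G), st)) {a b : ℕ}
    (ha : a ≤ 2) (hb : b ≤ R) : FrOK R ((F, G), (a, b)) := by
  obtain ⟨h1, h2, h3, h4, h5⟩ := h
  exact ⟨h1, h2, h3, ha, hb⟩

theorem cinv_step {R t : ℕ} {o : Orc} (ho : ∀ v j r, o.en v j = some r → r < R) {c : Cfg}
    (h : CInv R t c) : CInv R (t + 1) (step o c) := by
  obtain ⟨v, stk, md, r⟩ := c
  obtain ⟨h1, h2, h3, h4, h5, h6⟩ := h
  simp only at h1 h2 h3 h4 h5 h6
  by_cases hm3 : md = 3
  · rw [step_mode3 (by exact hm3)]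
    exact ⟨h1, h2, by simp only; omega, h4, h5, h6⟩
  rcases stk with _ | ⟨⟨⟨F, G⟩, st⟩, rest⟩
  · have : step o (v, ([], (md, r))) = (v, ([], (3, if md = 1 then 0 else 2))) := by
      simp [step, hm3]
    rw [this]
    refine ⟨h1, h2, by simp, by simp, le_rfl, ?_⟩
    simp only
    split_ifs <;> omega
  have hf := h4 _ (List.mem_cons_self ..)
  have hrest : ∀ f ∈ rest, FrOK R f := fun f hf => h4 f (List.mem_cons_of_mem _ hf)
  rw [List.length_cons] at h3
  by_cases hm0 : md = 0
  · subst hm0
    have e : step o (v, (((F, G), st) :: rest, (0, r))) = callStep o v F G rest := by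
      simp [step]
    rw [e, callStep]
    split_ifs with hc1 hc2
    · exact ⟨h1, h2, by simp only; omega, hrest, by simp, by simp⟩
    · refine ⟨h1, h2, by simp only [List.length_cons]; omega, ?_, by simp, by simp⟩
      intro f hff
      rcases List.mem_cons.1 hff with rfl | hff
      · exact fr_filter hf _
      rcases List.mem_cons.1 hff with rfl | hff
      · exact fr_stage hf (by omega) (by omega)
      · exact hrest f hff
    · have hj : ((v.filter fun j => decide (j ∈ G) &&
          decide (cnt o F G j < (G.length + 1) / 2)).headD 0) ∈ G := by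
        rcases hL : (v.filter fun j => decide (j ∈ G) &&
          decide (cnt o F G j < (G.length + 1) / 2)) with _ | ⟨a, l⟩
        · exact absurd hL hc2
        · have ha : a ∈ v.filter fun j => decide (j ∈ G) &&
              decide (cnt o F G j < (G.length + 1) / 2) := by
            rw [hL]
            exact List.mem_cons_self ..
          rw [List.mem_filter] at ha
          simp only [Bool.and_eq_true, decide_eq_true_eq] at ha
          exact ha.2.1
      refine ⟨h1, h2, by simp only [List.length_cons]; omega, ?_, by simp, by simp⟩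
      intro f hff
      rcases List.mem_cons.1 hff with rfl | hff
      · exact fr_erase hf hj
      rcases List.mem_cons.1 hff with rfl | hff
      · exact fr_stage hf (by omega) (hf.2.2.1 _ hj).le
      · exact hrest f hff
  by_cases hm1 : md = 1
  · subst hm1
    have e : step o (v, (((F, G), st) :: rest, (1, r))) = retStep o v F G st rest := by
      simp [step]
    rw [e, retStep]
    split_ifs with hc1
    · rcases hen : o.en v st.2 with _ | r'
      · refine ⟨h1, h2, by simp only [Option.elim_none, List.length_cons]; omega, ?_, by simp, by simp⟩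
        intro f hff
        simp only [Option.elim_none] at hff
        rcases List.mem_cons.1 hff with rfl | hff
        · exact hf
        · exact hrest f hff
      · have hr' := ho _ _ _ hen
        refine ⟨by simp only [Option.elim_some, repl_len]; exact h1, ?_,
          by simp only [Option.elim_some, List.length_cons]; omega, ?_, by simp, ?_⟩
        · intro x hx
          simp only [Option.elim_some] at hx
          unfold repl at hx
          obtain ⟨y, hy, rfl⟩ := List.mem_map.1 hx
          split_ifs
          · exact hr'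
          · exact h2 y hy
        · intro f hff
          simp only [Option.elim_some] at hff
          rcases List.mem_cons.1 hff with rfl | hff
          · exact hf
          · exact hrest f hff
        · simp only [Option.elim_some]
          omega
    · exact ⟨h1, h2, by simp only; omega, hrest, by simp, by simp⟩
  · have e : step o (v, (((F, G), st) :: rest, (md, r))) = enterStep o v F G st rest r := by
      simp [step, hm3, hm0, hm1]
    rw [e, enterStep]
    by_cases hrG : r ∈ G
    · rw [if_neg (by simpa using hrG)]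
      by_cases hc2 : st.1 = 0
      · rw [if_pos hc2]
        refine ⟨h1, h2, by simp only [List.length_cons]; omega, ?_, by simp, by simp⟩
        intro f hff
        rcases List.mem_cons.1 hff with rfl | hff
        · exact fr_erase hf hrG
        rcases List.mem_cons.1 hff with rfl | hff
        · exact fr_stage hf (by omega) (hf.2.2.1 _ hrG).le
        · exact hrest f hff
      · rw [if_neg hc2]
        refine ⟨h1, h2, by simp only [List.length_cons]; omega, ?_, by simp, by simp⟩
        intro f hff
        rcases List.mem_cons.1 hff with rfl | hff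
        · exact fr_filter hf _
        rcases List.mem_cons.1 hff with rfl | hff
        · exact fr_stage hf (by omega) (by omega)
        · exact hrest f hff
    · rw [if_pos hrG]
      exact ⟨h1, h2, by simp only; omega, hrest, by simp, h6⟩

/-! ### sizes -/

theorem sz_le_of_le {n R : ℕ} (h : n ≤ R) : sz n ≤ 4 * R + 1 := by
  have h1 := sz_nat_le n
  have h2 := NPC.Poly.size_le_self n
  omega

theorem sz_listN {l : List ℕ} {R : ℕ} (hl : l.length ≤ R) (h : ∀ x ∈ l, x < R) :
    sz l ≤ R * (4 * R + 2) + 1 := by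
  have h1 := sz_le_length_mul l (4 * R + 1) fun x hx => sz_le_of_le (h x hx).le
  refine h1.trans ?_
  have : l.length * (4 * R + 1 + 1) ≤ R * (4 * R + 2) := Nat.mul_le_mul_right _ hl
  omega

theorem sz_frame {R : ℕ} {f : Frame} (h : FrOK R f) :
    sz f ≤ 2 * (R * (4 * R + 2) + 1) + (4 * R + 1) + 12 := by
  obtain ⟨⟨F, G⟩, a, b⟩ := f
  obtain ⟨h1, h2, h3, h4, h5⟩ := h
  simp only at h1 h2 h3 h4 h5
  have e1 := sz_listN (l := F) (R := R) (by omega) h2
  have e2 := sz_listN (l := G) (R := R) (by omega) h3
  have e3 := sz_le_of_le h5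
  have e4 := sz_le_of_le h4
  simp only [sz_pair]
  omega

/-- the bound for the size of the states -/
def SB (R t M : ℕ) : ℕ := (R * (4 * R + 2) + 1) +
  ((t + 1) * (2 * (R * (4 * R + 2) + 1) + (4 * R + 1) + 12 + 1) + 1) + (4 * (R + 2) + 1) +
  M + (t * (M + 1) + 1) + 20

theorem sz_state {R t M : ℕ} {s : Cfg × (List ℚ × List (List ℚ))} (h : CInv R t s.1)
    (hp : sz s.2.1 ≤ M) (hl : s.2.2.length ≤ t) (hlp : ∀ q ∈ s.2.2, sz q ≤ M) :
    sz s ≤ SB R t M := by
  obtain ⟨⟨v, stk, md, r⟩, p, l⟩ := s
  obtain ⟨h1, h2, h3, h4, h5, h6⟩ := h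
  simp only at h1 h2 h3 h4 h5 h6 hp hl hlp
  have e1 := sz_listN h1 h2
  have e2 := sz_le_length_mul stk _ fun f hf => sz_frame (h4 f hf)
  have e3 := sz_le_of_le h5
  have e4 := sz_le_of_le h6
  have e5 := sz_le_length_mul l M hlp
  have e6 : stk.length * (2 * (R * (4 * R + 2) + 1) + (4 * R + 1) + 12 + 1) ≤
      (t + 1) * (2 * (R * (4 * R + 2) + 1) + (4 * R + 1) + 12 + 1) := Nat.mul_le_mul_right _ h3
  have e7 : l.length * (M + 1) ≤ t * (M + 1) := Nat.mul_le_mul_right _ hl
  simp only [sz_pair]
  unfold SB
  omega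

theorem SB_mono {R t M R' t' M' : ℕ} (hR : R ≤ R') (ht : t ≤ t') (hM : M ≤ M') :
    SB R t M ≤ SB R' t' M' := by
  unfold SB
  gcongr

/-- the invariant of the computation, for arbitrary data -/
theorem tstep_size {R M : ℕ} {P P' : LPd} (hR : P'.1.length = R)
    (hM : ∀ w : List ℕ, w.length ≤ R → (∀ x ∈ w, x < R) → sz (ratPt P w) ≤ M)
    {v0 : List ℕ} (hv : v0.length ≤ R) (hvR : ∀ x ∈ v0, x < R) (t : ℕ) :
    CInv R t ((tstep P (orc P'))^[t] (start R v0, (ratPt P v0, []))).1 ∧
    sz ((tstep P (orc P'))^[t] (start R v0, (ratPt P v0, []))).2.1 ≤ M ∧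
    ((tstep P (orc P'))^[t] (start R v0, (ratPt P v0, []))).2.2.length ≤ t ∧
    ∀ q ∈ ((tstep P (orc P'))^[t] (start R v0, (ratPt P v0, []))).2.2, sz q ≤ M := by
  induction t with
  | zero =>
    refine ⟨⟨hv, hvR, by simp [start], ?_, by simp [start], by simp [start]⟩, hM v0 hv hvR,
      by simp, by simp⟩
    intro f hf
    simp only [iterate_zero, id_eq, start, List.mem_singleton] at hf
    subst hf
    exact ⟨by simp, by simp, by simp, by simp, by simp⟩
  | succ t ih =>
    rw [Function.iterate_succ_apply']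
    generalize (tstep P (orc P'))^[t] (start R v0, (ratPt P v0, [])) = s at ih
    obtain ⟨h1, h2, h3, h4⟩ := ih
    have h5 : CInv R (t + 1) (step (orc P') s.1) := by
      refine cinv_step ?_ h1
      intro v j r hr
      rw [orc_en] at hr
      have := (enter_some hr).2.1
      rwa [hR] at this
    have hdef : tstep P (orc P') s = (step (orc P') s.1,
        if ratPt P (step (orc P') s.1).1 = s.2.1 then s.2
        else (ratPt P (step (orc P') s.1).1, ratPt P (step (orc P') s.1).1 :: s.2.2)) := rfl
    rw [hdef]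
    refine ⟨h5, ?_⟩
    have h6 := hM _ h5.v h5.vR
    split_ifs
    · exact ⟨h2, by simp only; omega, h4⟩
    · refine ⟨h6, by simp only [List.length_cons]; omega, ?_⟩
      intro q hq
      rcases List.mem_cons.1 hq with rfl | hq
      · exact h6
      · exact h4 q hq

end Pool.Agent.H390R3
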