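import Pool.Agent.H390R3.PolyE

set_option autoImplicit false

/-!
# Polynomial time of the whole computation, the number of steps in unary
-/

namespace Pool.Agent.H390R3

open Pool.Agent.H24U Pool.Agent.H24R2 Pool.Agent.H670R2 Function
open Pool.Agent.NPC hiding Poly

attribute [local irreducible] solveG basic mults posMask gtQ feas impr enter lden intVec ratPt
  step gdet tstep basis0 pert toP

section
variable {α : Type} [TEnc α]

@[fun_prop]
theorem poly_start {P : α → LPd} {v : α → List ℕ} (hP : NPC.Poly P) (hv : NPC.Poly v) :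
    NPC.Poly (fun a => start (P a).1.length (v a)) := by
  unfold start
  fun_prop

theorem basis0_bound (P : LPd) (x : List ℚ) :
    (basis0 P x).length ≤ P.1.length ∧ ∀ r ∈ basis0 P x, r < P.1.length := by
  have h : (basis0 P x).Sublist (List.range P.1.length) := by
    unfold basis0
    have := foldl_sublist (fun acc r =>
      dotL (rowA P r) (intVec (lden x) x) = (lden x : ℤ) * rowB P r ∧
        gdet (bas P (acc ++ [r])) ≠ 0) (List.range P.1.length) []
    simpa using this
  refine ⟨by simpa using h.length_le, fun r hr => ?_⟩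
  simpa using h.subset hr

theorem poly_outF {I : α → Inst} {l : α → List Unit} (hI : NPC.Poly I) (hl : NPC.Poly l) :
    NPC.Poly (fun a => outF (I a) (l a).length) := by
  have hP : NPC.Poly (fun a => toP (I a)) := poly_toP hI
  have hv : NPC.Poly (fun a => basis0 (toP (I a)) (I a).2.2.2) := by fun_prop
  have hrat : NPC.Poly (fun p : LPd × List ℕ => ratPt p.1 p.2) := by fun_prop
  obtain ⟨pq, hpq⟩ := hP.sz_le
  obtain ⟨lq, hlq⟩ := hl.sz_le
  obtain ⟨u, hu⟩ := hrat.sz_le
  unfold outF
  refine NPC.Poly.reverse (NPC.Poly.snd (NPC.Poly.snd ?_))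
  refine NPC.Poly.iterLen (l := l)
    (s := fun a => (start (toP (I a)).1.length (basis0 (toP (I a)) (I a).2.2.2),
      (ratPt (toP (I a)) (basis0 (toP (I a)) (I a).2.2.2), [])))
    (F := fun a s => tstep (toP (I a)) (orc (pert (toP (I a))
      (basis0 (toP (I a)) (I a).2.2.2))) s) hl (by fun_prop) (by fun_prop)
    (let M := u.comp (pq + (pq * (Polynomial.C 4 * pq + Polynomial.C 2) + Polynomial.C 1) +
        Polynomial.C 1)
     (pq * (Polynomial.C 4 * pq + Polynomial.C 2) + Polynomial.C 1) +
      ((lq + Polynomial.C 1) * (Polynomial.C 2 * (pq * (Polynomial.C 4 * pq + Polynomial.C 2) +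
        Polynomial.C 1) + (Polynomial.C 4 * pq + Polynomial.C 1) + Polynomial.C 12 +
        Polynomial.C 1) + Polynomial.C 1) + (Polynomial.C 4 * (pq + Polynomial.C 2) +
        Polynomial.C 1) + M + (lq * (M + Polynomial.C 1) + Polynomial.C 1) + Polynomial.C 20) ?_
  intro a k hk
  set P := toP (I a) with hPdef
  set v0 := basis0 P (I a).2.2.2 with hv0
  obtain ⟨hb1, hb2⟩ := basis0_bound P (I a).2.2.2
  have hRq : P.1.length ≤ pq.eval (sz a) := by
    have h1 := length_lt_sz P.1
    have h2 : sz P = sz P.1 + sz P.2 + 1 := sz_pair _ _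
    have h3 : sz P ≤ pq.eval (sz a) := hpq a
    omega
  have hM : ∀ w : List ℕ, w.length ≤ P.1.length → (∀ x ∈ w, x < P.1.length) →
      sz (ratPt P w) ≤ u.eval (pq.eval (sz a) + (pq.eval (sz a) * (4 * pq.eval (sz a) + 2) + 1) +
        1) := by
    intro w hw hwR
    refine (hu (P, w)).trans (eval_mono u ?_)
    have h1 := sz_listN hw hwR
    have h2 : P.1.length * (4 * P.1.length + 2) + 1 ≤
        pq.eval (sz a) * (4 * pq.eval (sz a) + 2) + 1 := by gcongr
    have h3 : sz P ≤ pq.eval (sz a) := hpq a
    have h4 : sz (P, w) = sz P + sz w + 1 := sz_pair _ _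
    omega
  obtain ⟨h1, h2, h3, h4⟩ := tstep_size (P := P) (P' := pert P v0) (R := P.1.length)
    (pert_len P v0) hM hb1 hb2 k
  refine (sz_state h1 h2 h3 h4).trans ?_
  have hkq : k ≤ lq.eval (sz a) := hk.trans ((length_lt_sz (l a)).le.trans (hlq a))
  refine (SB_mono hRq hkq le_rfl).trans (le_of_eq ?_)
  simp only [Polynomial.eval_add, Polynomial.eval_mul, Polynomial.eval_C, Polynomial.eval_comp]
  rfl

end

end Pool.Agent.H390R3
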