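import Pool.Agent.H390R3.PolyF

set_option autoImplicit false

/-!
# A Turing machine running in quasi-polynomial time
-/

namespace Pool.Agent.H390R3

open Pool.Agent.H24U Pool.Agent.H24R2 Pool.Agent.H670R2 Function
open Pool.Agent.NPC hiding Poly

/-! ### the program which computes a power of two in unary -/

/-- codes of unary numbers -/
def tf : ℕ → List Bool
  | 0 => []
  | n + 1 => true :: false :: tf n

theorem tf_comm (n : ℕ) (y : List Bool) : tf n ++ true :: false :: y = tf (n + 1) ++ y := by
  induction n with
  | zero => rfl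
  | succ n ih =>
    change true :: false :: (tf n ++ true :: false :: y) = true :: false :: (tf (n + 1) ++ y)
    rw [ih]

theorem enc_units (n : ℕ) : (toT (List.replicate n ())).enc = tf n ++ [false] := by
  induction n with
  | zero => rfl
  | succ n ih =>
    rw [List.replicate_succ, toT_list_cons]
    change true :: ((toT ()).enc ++ (toT (List.replicate n ())).enc) = _
    rw [ih]
    rfl

theorem bits_units (n : ℕ) (x : List Bool) :
    bits (List.replicate n (), x) = true :: (tf n ++ false :: bits x) := by
  change true :: ((toT (List.replicate n ())).enc ++ (toT x).enc) = _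
  rw [enc_units]
  simp [bits]

theorem tf_length (n : ℕ) : (tf n).length = 2 * n := by
  induction n with
  | zero => rfl
  | succ n ih =>
    change (tf n).length + 1 + 1 = _
    omega

/-- double stack `1` into stack `2` -/
def dbl1 : Cmd ℕ := Cmd.loop 1 (Cmd.seq (Cmd.pop 1) (Cmd.seq (Cmd.push 2 true) (Cmd.push 2 true)))

/-- double stack `1` -/
def dbl : Cmd ℕ := Cmd.seq dbl1 (mv 2 1)

theorem dbl1_runs (a : List Bool) : ∀ (k : ℕ) (c : List Bool),
    Runs dbl1 (st a (List.replicate k true) c)
      (st a [] (List.replicate (2 * k) true ++ c)) (4 * k + 1) := by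
  intro k
  induction k with
  | zero =>
    intro c
    exact (Runs.loopNil (by simp)).conv rfl (by simp) le_rfl
  | succ k ih =>
    intro c
    have h1 : Runs (Cmd.seq (Cmd.pop 1) (Cmd.seq (Cmd.push 2 true) (Cmd.push 2 true)))
        (st a (List.replicate (k + 1) true) c) (st a (List.replicate k true) (true :: true :: c))
        3 := by
      refine ((Runs.pop _ 1).seq ((Runs.push _ 2 true).seq (Runs.push _ 2 true))).conv rfl ?_ le_rfl
      simp [List.replicate_succ]
    have h2 := ih (true :: true :: c)
    refine (Runs.loopCons (by simp [List.replicate_succ]) h1 h2).conv rfl ?_ (by omega)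
    congr 1
    have : 2 * (k + 1) = 2 * k + 1 + 1 := by ring
    rw [this, List.replicate_succ', List.replicate_succ']
    simp

theorem dbl_runs (a : List Bool) (k : ℕ) :
    Runs dbl (st a (List.replicate k true) []) (st a (List.replicate (2 * k) true) [])
      (12 * k + 2) := by
  have h1 := dbl1_runs a k []
  have h2 := mv_runs (i := 2) (j := 1) (by norm_num) (List.replicate (2 * k) true)
    (st a [] (List.replicate (2 * k) true ++ [])) (st a (List.replicate (2 * k) true) [])
    (by simp) (by simp)
  refine (h1.seq h2).mono ?_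
  rw [List.length_replicate]
  omega

/-- the body of the main loop -/
def body : Cmd ℕ := Cmd.cases 0 Cmd.skip (mv 1 2) (Cmd.seq (Cmd.pop 0) (Cmd.seq (Cmd.pop 0) dbl))

theorem main_runs (X : List Bool) : ∀ (u k : ℕ), 1 ≤ k → ∃ t, t + 20 * k ≤ 40 * (k * 2 ^ u) ∧
    Runs (Cmd.loop 1 body) (st (tf u ++ false :: X) (List.replicate k true) [])
      (st (false :: X) [] (List.replicate (k * 2 ^ u) true)) t := by
  intro u
  induction u with
  | zero =>
    intro k hk
    have h1 : Runs body (st (false :: X) (List.replicate k true) [])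
        (st (false :: X) [] (List.replicate k true)) (4 * k + 1 + 1) := by
      refine Runs.casesFalse (l := X) (by simp) ?_
      have h2 := mv_runs (i := 1) (j := 2) (by norm_num) (List.replicate k true)
        (st (false :: X) (List.replicate k true) []) (st (false :: X) [] (List.replicate k true))
        (by simp) (by simp)
      refine h2.mono ?_
      rw [List.length_replicate]
    obtain ⟨k', rfl⟩ : ∃ k', k = k' + 1 := ⟨k - 1, by omega⟩
    refine ⟨_, ?_, (Runs.loopCons (by simp [List.replicate_succ]) h1
      (Runs.loopNil (by simp))).conv rfl (by simp) le_rfl⟩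
    simp only [pow_zero, mul_one]
    omega
  | succ u ih =>
    intro k hk
    obtain ⟨t, ht, hr⟩ := ih (2 * k) (by omega)
    have h1 : Runs body (st (tf (u + 1) ++ false :: X) (List.replicate k true) [])
        (st (tf u ++ false :: X) (List.replicate (2 * k) true) []) (1 + (1 + (12 * k + 2)) + 1) := by
      refine Runs.casesTrue (l := false :: (tf u ++ false :: X)) rfl ?_
      have h2 : Runs (Cmd.pop 0) (st (tf (u + 1) ++ false :: X) (List.replicate k true) [])
          (st (false :: (tf u ++ false :: X)) (List.replicate k true) []) 1 :=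
        (Runs.pop _ 0).conv rfl (by simp [tf]) le_rfl
      have h3 : Runs (Cmd.pop 0) (st (false :: (tf u ++ false :: X)) (List.replicate k true) [])
          (st (tf u ++ false :: X) (List.replicate k true) []) 1 :=
        (Runs.pop _ 0).conv rfl (by simp) le_rfl
      exact h2.seq (h3.seq (dbl_runs _ k))
    obtain ⟨k', rfl⟩ : ∃ k', k = k' + 1 := ⟨k - 1, by omega⟩
    refine ⟨_, ?_, (Runs.loopCons (by simp [List.replicate_succ]) h1 hr).conv rfl ?_ le_rfl⟩
    · have e : 2 * (k' + 1) * 2 ^ u = (k' + 1) * 2 ^ (u + 1) := by rw [pow_succ]; ring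
      rw [e] at ht
      omega
    · congr 2
      rw [pow_succ]
      ring

/-- write the unary number -/
def wr : Cmd ℕ := Cmd.loop 2 (Cmd.seq (Cmd.pop 2) (Cmd.seq (Cmd.push 0 false) (Cmd.push 0 true)))

theorem wr_runs : ∀ (k : ℕ) (y : List Bool),
    Runs wr (st y [] (List.replicate k true)) (st (tf k ++ y) [] []) (4 * k + 1) := by
  intro k
  induction k with
  | zero =>
    intro y
    exact (Runs.loopNil (by simp)).conv rfl (by simp [tf]) le_rfl
  | succ k ih =>
    intro y
    have h1 : Runs (Cmd.seq (Cmd.pop 2) (Cmd.seq (Cmd.push 0 false) (Cmd.push 0 true)))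
        (st y [] (List.replicate (k + 1) true)) (st (true :: false :: y) [] (List.replicate k true))
        3 := by
      refine ((Runs.pop _ 2).seq ((Runs.push _ 0 false).seq (Runs.push _ 0 true))).conv rfl ?_
        le_rfl
      simp [List.replicate_succ]
    refine (Runs.loopCons (by simp [List.replicate_succ]) h1 (ih _)).conv rfl ?_ (by omega)
    rw [tf_comm]

/-- the program: the unary number `u` is replaced by `2 ^ u` -/
def expC : Cmd ℕ := Cmd.seq (Cmd.pop 0) (Cmd.seq (Cmd.push 1 true)
  (Cmd.seq (Cmd.loop 1 body) (Cmd.seq wr (Cmd.push 0 true))))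

theorem expC_runs (u : ℕ) (x : List Bool) :
    Runs expC (inp (bits (List.replicate u (), x))) (inp (bits (List.replicate (2 ^ u) (), x)))
      (50 * 2 ^ u) := by
  rw [inp_eq_st, inp_eq_st, bits_units, bits_units]
  obtain ⟨t, ht, hr⟩ := main_runs (bits x) u 1 le_rfl
  rw [one_mul] at hr
  have h1 : Runs (Cmd.pop 0) (st (true :: (tf u ++ false :: bits x)) [] [])
      (st (tf u ++ false :: bits x) [] []) 1 := (Runs.pop _ 0).conv rfl (by simp) le_rfl
  have h2 : Runs (Cmd.push 1 true) (st (tf u ++ false :: bits x) [] [])
      (st (tf u ++ false :: bits x) (List.replicate 1 true) []) 1 :=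
    (Runs.push _ 1 true).conv rfl (by simp) le_rfl
  have h3 := wr_runs (2 ^ u) (false :: bits x)
  have h4 : Runs (Cmd.push 0 true) (st (tf (2 ^ u) ++ false :: bits x) [] [])
      (st (true :: (tf (2 ^ u) ++ false :: bits x)) [] []) 1 :=
    (Runs.push _ 0 true).conv rfl (by simp) le_rfl
  refine (h1.seq (h2.seq (hr.seq (h3.seq h4)))).mono ?_
  have : 1 ≤ 2 ^ u := Nat.one_le_two_pow
  omega

end Pool.Agent.H390R3
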