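import Pool.Agent.H390R3.Mach
import Pool.Agent.H390R3.Pert

set_option autoImplicit false

/-!
# The machine on the perturbed linear program makes a run of the simplex method on the original one
-/

namespace Pool.Agent.H390R3

open Pool.Agent.H24U Pool.Agent.H24R2 Pool.Agent.H670R2 Matrix Function

/-! ### walks -/

/-- a sequence of steps of the simplex method from `v` to `w` -/
def Walk {n : ℕ} (P : Set (Fin n → ℝ)) (c : Fin n → ℝ) :
    (Fin n → ℝ) → List (Fin n → ℝ) → (Fin n → ℝ) → Prop
  | v, [], w => v = w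
  | v, u :: l, w => Step P c v u ∧ Walk P c u l w

theorem Walk.snoc {n : ℕ} {P : Set (Fin n → ℝ)} {c : Fin n → ℝ} {w u : Fin n → ℝ}
    {l : List (Fin n → ℝ)} : ∀ {v : Fin n → ℝ}, Walk P c v l w → Step P c w u →
    Walk P c v (l ++ [u]) u := by
  induction l with
  | nil =>
    intro v h hs
    have h' : v = w := h
    subst h'
    exact ⟨hs, rfl⟩
  | cons a l ih =>
    intro v h hs
    exact ⟨h.1, ih h.2 hs⟩

theorem Walk.run {n : ℕ} {P : Set (Fin n → ℝ)} {c : Fin n → ℝ} {w : Fin n → ℝ}
    {l : List (Fin n → ℝ)} : ∀ {v : Fin n → ℝ}, Walk P c v l w → Terminal P c w →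
    SimplexRun P c v l := by
  induction l with
  | nil =>
    intro v h ht
    have h' : v = w := h
    subst h'
    exact ht
  | cons a l ih =>
    intro v h ht
    exact ⟨h.1, ih h.2 ht⟩

/-- a list of rational numbers as a vector -/
def toVec (n : ℕ) (l : List ℚ) : Fin n → ℝ := fun i => ((l.getD i 0 : ℚ) : ℝ)

variable {P : LPd} {v0 : List ℕ}

/-- the point of a basis -/
noncomputable def pnt (P : LPd) (v : List ℕ) : Fin P.2.length → ℝ := bpt (aR P) (bR P) (bv P v)

theorem basic_len (P : LPd) (v : List ℕ) : (basic P v).2.length = P.2.length := by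
  unfold basic
  exact tmul_len _ _ _

theorem ratPt_eq (P : LPd) (v : List ℕ) : ratPt P v =
    (basic P v).2.map fun x : ℤ => (x : ℚ) / (((basic P v).1 : ℤ) : ℚ) := by
  unfold ratPt
  rw [bind_pure_comp, List.map_eq_map, List.map_map]
  rfl

theorem ratPt_len (P : LPd) (v : List ℕ) : (ratPt P v).length = P.2.length := by
  rw [ratPt_eq, List.length_map, basic_len]

theorem toVec_ratPt (hWF : WF P) {v : List ℕ} (hv : Sel P v) (hd : dt (aR P) (bv P v) ≠ 0) :
    toVec P.2.length (ratPt P v) = pnt P v := by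
  funext i
  unfold toVec pnt
  rw [bpt_basic hWF hv hd i]
  have hi : (i : ℕ) < (basic P v).2.length := by rw [basic_len]; exact i.2
  rw [ratPt_eq]
  rw [List.getD_eq_getElem _ _ (by rw [List.length_map]; exact hi), List.getElem_map,
    List.getD_eq_getElem _ _ hi]
  push_cast
  rfl

theorem toVec_inj {n : ℕ} {l1 l2 : List ℚ} (h1 : l1.length = n) (h2 : l2.length = n)
    (h : toVec n l1 = toVec n l2) : l1 = l2 := by
  refine List.ext_getElem (by omega) fun i hi1 hi2 => ?_
  have h3 := congrFun h ⟨i, by omega⟩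
  unfold toVec at h3
  rw [Rat.cast_inj] at h3
  simp only at h3
  rw [List.getD_eq_getElem _ _ hi1, List.getD_eq_getElem _ _ hi2] at h3
  exact h3

theorem mem_polyP {z : Fin P.2.length → ℝ} (h : ∀ r < P.1.length, aR P r ⬝ᵥ z ≤ bR P r) :
    z ∈ poly (aR P) (bR P) := by
  intro r
  by_cases hr : r < P.1.length
  · exact h r hr
  · have h1 : aR P r = 0 := by
      funext i
      simp only [aR, rowA]
      rw [List.getD_eq_default P.1 _ (by omega)]
      simp
    have h2 : bR P r = 0 := by
      simp only [bR, rowB]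
      rw [List.getD_eq_default P.1 _ (by omega)]
      simp
    rw [h1, h2, zero_dotProduct]

theorem pnt_mem (hWF : WF P) {v : List ℕ} (hv : Ok (pert P v0) v) :
    pnt P v ∈ poly (aR P) (bR P) := by
  apply mem_polyP
  intro r hr
  have h := (ok_of_pert hWF hv).2.2 r hr
  unfold sk at h
  unfold pnt
  linarith

/-- improving multipliers do not depend on the perturbation -/
theorem impr_pert (hWF : WF P) {v : List ℕ} (hv : Ok (pert P v0) v) (j : ℕ) :
    impr (pert P v0) v j = true ↔
      ∃ i : Fin P.2.length, bv P v i = j ∧ lm (aR P) (bv P v) i (cR P) < 0 := by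
  have hd : dt (aR (pert P v0)) (bv (pert P v0) v) ≠ 0 :=
    ((feas_iff (pert_WF hWF v0) hv.1).1 hv.2).1
  rw [impr_iff (pert_WF hWF v0) hv.1 hd j, pert_aR]
  rfl

theorem step_pnt (hWF : WF P) (hND : ND (pert P v0)) {v w : List ℕ} (hv : Ok (pert P v0) v)
    (hp : Pivot (orc (pert P v0)) v w) :
    pnt P v = pnt P w ∨ Step (poly (aR P) (bR P)) (cR P) (pnt P v) (pnt P w) := by
  by_cases hne : pnt P v = pnt P w
  · exact Or.inl hne
  right
  obtain ⟨j, r, hj, him, hen, rfl⟩ := hp
  rw [orc_im] at him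
  rw [orc_en] at hen
  have hw := (en_okP (pert_WF hWF v0) hND hv him hen).1
  obtain ⟨hrv, hrR, hf⟩ := enter_some hen
  obtain ⟨hs, hd, _⟩ := ok_of_pert hWF hv
  obtain ⟨i, hi, hl⟩ := (impr_pert hWF hv j).1 him
  have hg := pivot_geom (pert_WF hWF v0) hv (i := i) hi hrv hrR hf
  have hsk := hND v hv.1 hg.1 r hrR hrv
  rw [pert_aR] at hg hsk
  obtain ⟨_, h3, h4, h5⟩ := hg
  change lm (aR P) (bv P v) i (aR P r) ≠ 0 at h3
  change 0 ≤ sk (aR P) (bR (pert P v0)) (bv P v) r at h4
  change 0 ≤ -(sk (aR P) (bR (pert P v0)) (bv P v) r / lm (aR P) (bv P v) i (aR P r)) at h5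
  change sk (aR P) (bR (pert P v0)) (bv P v) r ≠ 0 at hsk
  have h6 := lt_of_le_of_ne h4 (Ne.symm hsk)
  have h7 : lm (aR P) (bv P v) i (aR P r) < 0 := by
    rcases lt_or_gt_of_ne h3 with h | h
    · exact h
    · have := div_pos h6 h
      linarith
  have h8 := pnt_mem hWF hv
  have h9 := pnt_mem hWF hw
  unfold pnt at h8 h9 hne ⊢
  rw [bv_repl hs hi] at h9 hne ⊢
  exact step_of_pivot hd (cR P) i r h8 h9 hl h7 hne

theorem final_pnt (hWF : WF P) {c : Cfg} (hc : Ok (pert P v0) c.1)
    (hF : Final (orc (pert P v0)) c) : Terminal (poly (aR P) (bR P)) (cR P) (pnt P c.1) := by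
  obtain ⟨hs, hd, _⟩ := ok_of_pert hWF hc
  rcases hF with ⟨_, h⟩ | ⟨_, j, hj, him, hen⟩
  · apply terminal_of_opt hd
    intro i
    by_contra hneg
    have h1 := h _ (bv_mem hs i)
    rw [orc_im] at h1
    have h2 := (impr_pert hWF hc (bv P c.1 i)).2 ⟨i, rfl, not_le.1 hneg⟩
    rw [h1] at h2
    exact absurd h2 (by simp)
  · rw [orc_im] at him
    rw [orc_en] at hen
    obtain ⟨i, hi, hl⟩ := (impr_pert hWF hc j).1 him
    have h1 := enter_none (pert_WF hWF v0) hc (i := i) hi hen
    rw [pert_aR, pert_len] at h1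
    change ∀ r < P.1.length, 0 ≤ lm (aR P) (bv P c.1) i (aR P r) at h1
    apply terminal_of_ray hd (cR P) i (pnt_mem hWF hc) hl
    intro r
    by_cases hr : r < P.1.length
    · exact h1 r hr
    · have h0 : aR P r = 0 := by
        funext i
        simp only [aR, rowA]
        rw [List.getD_eq_default P.1 _ (by omega)]
        simp
      have h2 := dot_dir hd (aR P r) i
      rw [h0, zero_dotProduct] at h2
      rw [h0]
      linarith

/-- the points visited -/
def outP (P : LPd) (v0 : List ℕ) (T : ℕ) : List (List ℚ) :=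
  ((tstep P (orc (pert P v0)))^[T] (start P.1.length v0, (ratPt P v0, []))).2.2.reverse

/-- the invariant of the computation -/
theorem tstep_inv (hWF : WF P) (hv0 : Sel P v0) (hd0 : dt (aR P) (bv P v0) ≠ 0)
    (hsk : ∀ r < P.1.length, 0 ≤ sk (aR P) (bR P) (bv P v0) r) (t : ℕ) :
    ((tstep P (orc (pert P v0)))^[t] (start P.1.length v0, (ratPt P v0, []))).1 =
      (step (orc (pert P v0)))^[t] (start P.1.length v0) ∧
    ((tstep P (orc (pert P v0)))^[t] (start P.1.length v0, (ratPt P v0, []))).2.1 =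
      ratPt P ((step (orc (pert P v0)))^[t] (start P.1.length v0)).1 ∧
    Walk (poly (aR P) (bR P)) (cR P) (pnt P v0) ((outP P v0 t).map (toVec P.2.length))
      (pnt P ((step (orc (pert P v0)))^[t] (start P.1.length v0)).1) ∧
    (outP P v0 t).length ≤ t := by
  have hND := pert_ND hWF hv0 hd0
  have hOk0 := pert_Ok0 hWF hv0 hd0 hsk
  have S := semP (pert_WF hWF v0) hND
  have hOk : ∀ t, Ok (pert P v0) ((step (orc (pert P v0)))^[t] (start P.1.length v0)).1 :=
    fun t => iter_ok S _ hOk0 t
  induction t with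
  | zero => exact ⟨rfl, rfl, rfl, le_rfl⟩
  | succ t ih =>
    unfold outP at ih ⊢
    have hOkt := hOk t
    have hOkt1 := hOk (t + 1)
    simp only [Function.iterate_succ_apply'] at hOkt1 ⊢
    generalize hs : (tstep P (orc (pert P v0)))^[t] (start P.1.length v0, (ratPt P v0, [])) = s at ih
    generalize hc : (step (orc (pert P v0)))^[t] (start P.1.length v0) = c at ih hOkt hOkt1
    obtain ⟨h1, h2, h3, h4⟩ := ih
    have hstep := (step_ok S c hOkt).2
    have hsel := ok_of_pert hWF hOkt
    have hsel1 := ok_of_pert hWF hOkt1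
    have hv := toVec_ratPt hWF hsel.1 hsel.2.1
    have hv1 := toVec_ratPt hWF hsel1.1 hsel1.2.1
    have hdef : tstep P (orc (pert P v0)) s = (step (orc (pert P v0)) s.1,
        if ratPt P (step (orc (pert P v0)) s.1).1 = s.2.1 then s.2
        else (ratPt P (step (orc (pert P v0)) s.1).1,
          ratPt P (step (orc (pert P v0)) s.1).1 :: s.2.2)) := rfl
    rw [hdef, h1]
    refine ⟨rfl, ?_⟩
    by_cases heq : ratPt P (step (orc (pert P v0)) c).1 = s.2.1
    · rw [if_pos heq]
      refine ⟨heq.symm, ?_, by simpa using (by simpa using h4 : s.2.2.length ≤ t).trans (Nat.le_succ t)⟩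
      have h5 : pnt P (step (orc (pert P v0)) c).1 = pnt P c.1 := by
        rw [← hv, ← hv1, heq, h2]
      rw [h5]
      exact h3
    · rw [if_neg heq]
      refine ⟨rfl, ?_, by simpa using h4⟩
      have hne : pnt P c.1 ≠ pnt P (step (orc (pert P v0)) c).1 := by
        intro h
        apply heq
        rw [← hv, ← hv1] at h
        rw [h2]
        exact (toVec_inj (ratPt_len _ _) (ratPt_len _ _) h).symm
      have hST : Step (poly (aR P) (bR P)) (cR P) (pnt P c.1)
          (pnt P (step (orc (pert P v0)) c).1) := by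
        rcases hstep with h | h
        · exact absurd (by rw [h]) hne
        · rcases step_pnt hWF hND hOkt h with h | h
          · exact absurd h hne
          · exact h
      have h6 := h3.snoc hST
      simp only [List.reverse_cons, List.map_append, List.map_cons, List.map_nil]
      rw [hv1]
      exact h6

theorem W_le (n k : ℕ) : W n k + 1 ≤ 6 * (2 * n + 1) ^ k := by
  have : 1 ≤ (2 * n + 1) ^ k := Nat.one_le_pow _ _ (by omega)
  unfold W
  omega

/-- the output is constant after the halting time -/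
theorem out_const (hWF : WF P) (hv0 : Sel P v0) (hd0 : dt (aR P) (bv P v0) ≠ 0)
    (hsk : ∀ r < P.1.length, 0 ≤ sk (aR P) (bR P) (bv P v0) r) {T0 : ℕ}
    (hF : Final (orc (pert P v0)) ((step (orc (pert P v0)))^[T0] (start P.1.length v0))) (s : ℕ) :
    outP P v0 (s + T0) = outP P v0 T0 := by
  have key : (tstep P (orc (pert P v0)))^[s + T0] (start P.1.length v0, (ratPt P v0, [])) =
      (tstep P (orc (pert P v0)))^[T0] (start P.1.length v0, (ratPt P v0, [])) := by
    rw [Function.iterate_add_apply]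
    obtain ⟨h1, h2, _, _⟩ := tstep_inv hWF hv0 hd0 hsk T0
    generalize (tstep P (orc (pert P v0)))^[T0] (start P.1.length v0, (ratPt P v0, [])) = x at h1 h2
    have h3 : tstep P (orc (pert P v0)) x = x := by
      have hdef : tstep P (orc (pert P v0)) x = (step (orc (pert P v0)) x.1,
        if ratPt P (step (orc (pert P v0)) x.1).1 = x.2.1 then x.2
        else (ratPt P (step (orc (pert P v0)) x.1).1,
          ratPt P (step (orc (pert P v0)) x.1).1 :: x.2.2)) := rfl
      rw [hdef, h1, step_mode3 (Final.mode hF), if_pos h2.symm, ← h1]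
    exact Function.iterate_fixed h3 s
  unfold outP
  rw [key]

/-- The output is a run of the simplex method. -/
theorem run_P (hWF : WF P) (hv0 : Sel P v0) (hd0 : dt (aR P) (bv P v0) ≠ 0)
    (hsk : ∀ r < P.1.length, 0 ≤ sk (aR P) (bR P) (bv P v0) r) {T : ℕ}
    (hT : 6 * (2 * P.2.length + 1) ^ P.1.length.size ≤ T) :
    SimplexRun (poly (aR P) (bR P)) (cR P) (pnt P v0) ((outP P v0 T).map (toVec P.2.length)) ∧
    (outP P v0 T).length ≤ 6 * (2 * P.2.length + 1) ^ P.1.length.size := by
  have hND := pert_ND hWF hv0 hd0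
  have hOk0 := pert_Ok0 hWF hv0 hd0 hsk
  have S := semP (pert_WF hWF v0) hND
  have hWT := W_le P.2.length P.1.length.size
  have hlenR : (pert P v0).1.length = P.1.length := pert_len P v0
  have hF0 : Final (orc (pert P v0)) ((step (orc (pert P v0)))^[W P.2.length P.1.length.size + 1]
      (start P.1.length v0)) := by
    have h := halts S (v := v0) hOk0 (T := W P.2.length P.1.length.size + 1) (by
      rw [hlenR]; exact le_rfl)
    rw [hlenR] at h
    exact h
  have hF : Final (orc (pert P v0)) ((step (orc (pert P v0)))^[T] (start P.1.length v0)) := by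
    have h := halts S (v := v0) hOk0 (T := T) (by
      rw [hlenR]
      change W P.2.length P.1.length.size + 1 ≤ T
      omega)
    rw [hlenR] at h
    exact h
  have hinv := tstep_inv hWF hv0 hd0 hsk T
  refine ⟨hinv.2.2.1.run (final_pnt hWF (iter_ok S _ hOk0 T) hF), ?_⟩
  obtain ⟨s, rfl⟩ : ∃ s, T = s + (W P.2.length P.1.length.size + 1) :=
    ⟨T - (W P.2.length P.1.length.size + 1), by omega⟩
  rw [out_const hWF hv0 hd0 hsk hF0 s]
  exact (tstep_inv hWF hv0 hd0 hsk _).2.2.2.trans hWT

end Pool.Agent.H390R3
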